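import Pool.Agent.H72.MQ.G0
import Pool.Agent.H72.MP.Exact

open CategoryTheory Limits Opposite

namespace Pool.Agent.H72.MQ

noncomputable section

section loc

variable {C : Type 1} [SmallCategory C] {J : GrothendieckTopology C}

lemma loc_iff {U : C} {P : ∀ V : C, (V ⟶ U) → Prop} :
    Loc J U P ↔ ∃ S ∈ J U, ∀ (V : C) (g : V ⟶ U), S g → P V g := by
  constructor
  · rintro ⟨S, hS, h⟩
    exact ⟨S, hS, fun V g hg => h V g ((Sieve.mem_iff_pullback_eq_top g).1 hg)⟩
  · rintro ⟨S, hS, h⟩
    exact ⟨S, hS, fun V g hg => h V g ((Sieve.mem_iff_pullback_eq_top g).2 hg)⟩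

lemma Loc.of_forall {U : C} {P : ∀ V : C, (V ⟶ U) → Prop} (h : ∀ V g, P V g) : Loc J U P :=
  ⟨⊤, J.top_mem U, fun V g _ => h V g⟩

lemma Loc.mono {U : C} {P Q : ∀ V : C, (V ⟶ U) → Prop} (h : ∀ V g, P V g → Q V g)
    (hP : Loc J U P) : Loc J U Q := by
  obtain ⟨S, hS, hS'⟩ := hP
  exact ⟨S, hS, fun V g hg => h V g (hS' V g hg)⟩

end loc

section rst

variable {C : Type 1} [SmallCategory C] {R : Cᵒᵖ ⥤ RingCat.{1}} (M : PresheafOfModules.{1} R)

lemma rst_eq {V U : C} (u : V ⟶ U) (x : M.obj (op U)) : rst M u x = M.map u.op x := rfl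

lemma rst_id (U : C) (x : M.obj (op U)) : rst M (𝟙 U) x = x := by
  have h := M.presheaf.map_id (op U)
  exact congrArg (fun f : M.presheaf.obj (op U) ⟶ M.presheaf.obj (op U) => f.hom x) h

lemma rst_comp {W V U : C} (v : W ⟶ V) (u : V ⟶ U) (x : M.obj (op U)) :
    rst M (v ≫ u) x = rst M v (rst M u x) := M.map_comp_apply u.op v.op x

lemma rst_smul {V U : C} (u : V ⟶ U) (r : R.obj (op U)) (x : M.obj (op U)) :
    rst M u (r • x) = (R.map u.op r : R.obj (op V)) • rst M u x := M.map_smul u.op r x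

lemma rst_add {V U : C} (u : V ⟶ U) (x y : M.obj (op U)) :
    rst M u (x + y) = rst M u x + rst M u y := (M.map u.op).hom.map_add x y

lemma rst_zero {V U : C} (u : V ⟶ U) : rst M u 0 = 0 := (M.map u.op).hom.map_zero

/-- Restriction along an isomorphism. -/
def rstEquiv {U V : C} (u : V ⟶ U) [IsIso u] : M.obj (op U) ≃+ M.obj (op V) where
  toFun := rst M u
  invFun := rst M (inv u)
  left_inv x := by rw [← rst_comp, IsIso.inv_hom_id, rst_id]
  right_inv x := by rw [← rst_comp, IsIso.hom_inv_id, rst_id]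
  map_add' := rst_add M u

end rst

section mk

variable {C : Type 1} [SmallCategory C] {J : GrothendieckTopology C} {R : Sheaf J RingCat.{1}}

/-- Constructor for morphisms of sheaves of modules. -/
def mdHom {M N : SheafOfModules.{1} R} (e : ∀ U : C, M.val.obj (op U) →+ N.val.obj (op U))
    (hs : ∀ (U : C) (r : R.obj.obj (op U)) (x : M.val.obj (op U)), e U (r • x) = r • e U x)
    (h : ∀ {U V : C} (u : V ⟶ U) (x : M.val.obj (op U)),
      e V (rst M.val u x) = rst N.val u (e U x)) : M ⟶ N :=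
  ⟨{ app := fun U => ModuleCat.ofHom
      { toFun := e U.unop
        map_add' := map_add (e U.unop)
        map_smul' := hs U.unop }
     naturality := fun {U V} u => by
      refine ModuleCat.hom_ext (LinearMap.ext fun x => ?_)
      exact h u.unop x }⟩

lemma mdHom_apply {M N : SheafOfModules.{1} R}
    (e : ∀ U : C, M.val.obj (op U) →+ N.val.obj (op U))
    (hs : ∀ (U : C) (r : R.obj.obj (op U)) (x : M.val.obj (op U)), e U (r • x) = r • e U x)
    (h : ∀ {U V : C} (u : V ⟶ U) (x : M.val.obj (op U)),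
      e V (rst M.val u x) = rst N.val u (e U x)) (U : C) (x : M.val.obj (op U)) :
    (mdHom e hs h).val.app (op U) x = e U x := rfl

lemma md_hom_ext {M N : SheafOfModules.{1} R} {f g : M ⟶ N}
    (h : ∀ (U : C) (x : M.val.obj (op U)), f.val.app (op U) x = g.val.app (op U) x) :
    f = g := by
  apply SheafOfModules.hom_ext
  apply PresheafOfModules.hom_ext
  intro U
  exact ModuleCat.hom_ext (LinearMap.ext fun x => h U.unop x)

lemma md_comp_apply {M N L : SheafOfModules.{1} R} (f : M ⟶ N) (g : N ⟶ L) (U : C)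
    (x : M.val.obj (op U)) :
    (f ≫ g).val.app (op U) x = g.val.app (op U) (f.val.app (op U) x) := rfl

lemma md_id_apply {M : SheafOfModules.{1} R} (U : C)
    (x : M.val.obj (op U)) : (𝟙 M : M ⟶ M).val.app (op U) x = x := rfl

lemma md_nat {M N : SheafOfModules.{1} R} (f : M ⟶ N) {U V : C} (u : V ⟶ U)
    (x : M.val.obj (op U)) :
    f.val.app (op V) (rst M.val u x) = rst N.val u (f.val.app (op U) x) :=
  PresheafOfModules.naturality_apply f.val u.op x

/-- Constructor for isomorphisms of sheaves of modules. -/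
def mdIso {M N : SheafOfModules.{1} R} (e : ∀ U : C, M.val.obj (op U) ≃+ N.val.obj (op U))
    (hs : ∀ (U : C) (r : R.obj.obj (op U)) (x : M.val.obj (op U)), e U (r • x) = r • e U x)
    (h : ∀ {U V : C} (u : V ⟶ U) (x : M.val.obj (op U)),
      e V (rst M.val u x) = rst N.val u (e U x)) : M ≅ N where
  hom := mdHom (fun U => (e U).toAddMonoidHom) hs h
  inv := mdHom (fun U => (e U).symm.toAddMonoidHom)
    (fun U r x => (e U).injective (by
      change (e U) ((e U).symm (r • x)) = (e U) (r • (e U).symm x)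
      rw [AddEquiv.apply_symm_apply, hs, AddEquiv.apply_symm_apply]))
    (fun {U V} u x => (e V).injective (by
      change (e V) ((e V).symm (rst N.val u x)) = (e V) (rst M.val u ((e U).symm x))
      rw [AddEquiv.apply_symm_apply, h, AddEquiv.apply_symm_apply]))
  hom_inv_id := md_hom_ext (fun U x => (e U).symm_apply_apply x)
  inv_hom_id := md_hom_ext (fun U x => (e U).apply_symm_apply x)

lemma md_shortExact (S : ShortComplex (SheafOfModules.{1} R))
    (hi : ∀ U : C, Function.Injective (S.f.val.app (op U)))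
    (hs : ∀ U : C, Function.Surjective (S.g.val.app (op U)))
    (he : ∀ (U : C) (y : S.X₂.val.obj (op U)), S.g.val.app (op U) y = 0 →
      ∃ x, S.f.val.app (op U) x = y) : S.ShortExact where
  exact := by
    rw [MP.exact_iff]
    intro U y hy
    obtain ⟨x, rfl⟩ := he U y hy
    exact ⟨⊤, J.top_mem U, fun V h _ => ⟨rst S.X₁.val h x, md_nat S.f h x⟩⟩
  mono_f := (MP.mono_iff_injective S.f).2 hi
  epi_g := (MP.epi_iff_locSurj S.g).2 (fun U y => ⟨⊤, J.top_mem U, fun V g _ => by
    obtain ⟨x, hx⟩ := hs V (rst S.X₃.val g y)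
    exact ⟨x, hx⟩⟩)

lemma locFree_of_iso {L L' : SheafOfModules.{1} R} (e : L ≅ L') (hL : LocFree L) :
    LocFree L' := by
  intro U
  refine (hL U).mono fun V g => ?_
  rintro ⟨n, b, hb⟩
  refine ⟨n, fun j => e.hom.val.app (op V) (b j), fun W h x => ?_⟩
  let φ : L.val.obj (op W) →ₗ[R.obj.obj (op W)] L'.val.obj (op W) :=
    (e.hom.val.app (op W)).hom
  have hinv : ∀ y, φ (e.inv.val.app (op W) y) = y := fun y => by
    have := md_comp_apply e.inv e.hom W y
    rw [e.inv_hom_id] at this
    exact this.symm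
  have hinv' : ∀ x, e.inv.val.app (op W) (φ x) = x := fun x => by
    have := md_comp_apply e.hom e.inv W x
    rw [e.hom_inv_id] at this
    exact this.symm
  have h3 : ∀ r : Fin n → R.obj.obj (op W), ∑ j, r j • rst L'.val h (e.hom.val.app (op V) (b j)) =
      φ (∑ j, r j • rst L.val h (b j)) := by
    intro r
    rw [map_sum]
    refine Finset.sum_congr rfl fun j _ => ?_
    rw [map_smul]
    congr 1
    exact (md_nat e.hom h (b j)).symm
  obtain ⟨r, hr, hr'⟩ := hb W h (e.inv.val.app (op W) x)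
  refine ⟨r, ?_, fun r' hr1 => hr' r' ?_⟩
  · change ∑ j, r j • rst L'.val h (e.hom.val.app (op V) (b j)) = x
    rw [h3, hr, hinv]
  · change ∑ j, r' j • rst L'.val h (e.hom.val.app (op V) (b j)) = x at hr1
    change ∑ j, r' j • rst L.val h (b j) = _
    rw [← hr1, h3, hinv']

end mk

end

end Pool.Agent.H72.MQ
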