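import Pool.Agent.H72.MQ.S6
import Pool.Agent.H72.MQ.P6

open CategoryTheory Limits AlgebraicGeometry TopologicalSpace Opposite

namespace Pool.Agent.H72.MQ

noncomputable section

namespace Tw

variable {E : Env} {X Y : Scheme.{0}}

lemma ringS_mul_comm {U : (Tw E X)ᵒᵖ} (r s : (Rs E X).obj.obj U) : r * s = s * r := by
  change (ULift C(U.unop.T, ℚ_[E.ℓ])) at r s
  exact mul_comm r s

section tw

variable (χ : E.G →* ℚ_[E.ℓ]ˣ) (hχ : Continuous χ)

/-- The function `t ↦ χ (c t)`. -/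
def chiF {U : Tw E X} (c : C(U.T, E.G)) : (Rs E X).obj.obj (op U) :=
  (⟨⟨fun t => (χ (c t) : ℚ_[E.ℓ]), by fun_prop⟩⟩ : ULift.{1} C(U.T, ℚ_[E.ℓ]))

lemma chiF_mul {U : Tw E X} (c d : C(U.T, E.G)) :
    chiF χ hχ (c * d) = chiF χ hχ c * chiF χ hχ d := by
  refine ULift.down_injective (ContinuousMap.ext fun t => ?_)
  change ((χ (c t * d t) : ℚ_[E.ℓ]ˣ) : ℚ_[E.ℓ]) = (χ (c t) : ℚ_[E.ℓ]) * (χ (d t) : ℚ_[E.ℓ])
  rw [map_mul, Units.val_mul]

lemma chiF_one {U : Tw E X} : chiF χ hχ (1 : C(U.T, E.G)) = 1 := by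
  refine ULift.down_injective (ContinuousMap.ext fun t => ?_)
  change ((χ 1 : ℚ_[E.ℓ]ˣ) : ℚ_[E.ℓ]) = 1
  rw [map_one, Units.val_one]

lemma chiF_map {U V : Tw E X} (u : U ⟶ V) (c : C(V.T, E.G)) :
    (Rs E X).obj.map u.op (chiF χ hχ c) = chiF χ hχ (c.comp ⟨u.f, by fun_prop⟩) := rfl

lemma chiF_inv_mul {U : Tw E X} (c : C(U.T, E.G)) :
    chiF χ hχ c⁻¹ * chiF χ hχ c = 1 := by
  rw [← chiF_mul, inv_mul_cancel, chiF_one]

lemma chiF_mul_inv {U : Tw E X} (c : C(U.T, E.G)) :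
    chiF χ hχ c * chiF χ hχ c⁻¹ = 1 := by
  rw [← chiF_mul, mul_inv_cancel, chiF_one]

set_option backward.isDefEq.respectTransparency false in
/-- The twisted presheaf of modules. -/
def twP (M : PresheafOfModules.{1} (Rs E X).obj) :
    PresheafOfModules.{1} (Rs E X).obj where
  obj U := M.obj U
  map {U V} u := ModuleCat.ofHom
    (Y := (ModuleCat.restrictScalars ((Rs E X).obj.map u).hom).obj (M.obj V))
    { toFun := fun x => chiF χ hχ (u.unop.c)⁻¹ • rst M u.unop x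
      map_add' := fun x y => by
        rw [rst_add, smul_add]
      map_smul' := fun r x => by
        rw [rst_smul, smul_smul, ringS_mul_comm, mul_smul]
        rfl }
  map_id U := by
    ext x
    change chiF χ hχ (1 : C(U.unop.T, E.G))⁻¹ • rst M (𝟙 U.unop) x = x
    rw [inv_one, chiF_one, rst_id, one_smul]
  map_comp {U V W} u v := by
    ext x
    change chiF χ hχ (u.unop.c.comp ⟨v.unop.f, by fun_prop⟩ * v.unop.c)⁻¹ •
      rst M (v.unop ≫ u.unop) x =
      chiF χ hχ (v.unop.c)⁻¹ • rst M v.unop (chiF χ hχ (u.unop.c)⁻¹ • rst M u.unop x)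
    rw [rst_smul, smul_smul, mul_inv_rev, chiF_mul, rst_comp, chiF_map]
    rfl

lemma twP_rst (M : PresheafOfModules.{1} (Rs E X).obj) {U V : Tw E X}
    (u : V ⟶ U) (x : M.obj (op U)) :
    rst (twP χ hχ M) u x = (chiF χ hχ (u.c)⁻¹ • rst M u x : M.obj (op V)) := rfl

lemma tw_key (M : PresheafOfModules.{1} (Rs E X).obj) {W Z U : Tw E X} (a : W ⟶ Z)
    (g : Z ⟶ U) (x : M.obj (op Z)) : rst M a (chiF χ hχ g.c • x) =
      chiF χ hχ (a ≫ g).c • (chiF χ hχ (a.c)⁻¹ • rst M a x) := by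
  rw [smul_smul, rst_smul, chiF_map, comp_c, chiF_mul, mul_assoc, chiF_mul_inv, mul_one]

lemma tw_cancel (M : PresheafOfModules.{1} (Rs E X).obj) {Z : Tw E X} (c : C(Z.T, E.G))
    (x : M.obj (op Z)) : chiF χ hχ c⁻¹ • (chiF χ hχ c • x) = x := by
  rw [smul_smul, chiF_inv_mul, one_smul]

lemma tw_cancel' (M : PresheafOfModules.{1} (Rs E X).obj) {Z : Tw E X} (c : C(Z.T, E.G))
    (x : M.obj (op Z)) : chiF χ hχ c • (chiF χ hχ c⁻¹ • x) = x := by
  rw [smul_smul, chiF_mul_inv, one_smul]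

lemma twP_isSheaf (M : Sh E X) : Presheaf.IsSheaf (topo E X) (twP χ hχ M.val).presheaf := by
  refine Presheaf.isSheaf_of_isSheaf_comp _ _ (CategoryTheory.forget Ab.{1}) ?_
  have hM : Presieve.IsSheaf (topo E X) (M.val.presheaf ⋙ CategoryTheory.forget Ab.{1}) := by
    rw [← isSheaf_iff_isSheaf_of_type]
    exact Presheaf.isSheaf_comp_of_isSheaf _ _ _ M.isSheaf
  rw [isSheaf_iff_isSheaf_of_type]
  change Presieve.IsSheaf (precov E X).toGrothendieck
    ((twP χ hχ M.val).presheaf ⋙ CategoryTheory.forget Ab.{1})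
  rw [Precoverage.isSheaf_toGrothendieck_iff_of_isStableUnderBaseChange]
  intro U R hR
  have hM' := Presieve.IsSheaf.isSheafFor_of_mem_precoverage (J := precov E X) hM hR
  obtain ⟨ι, Z, g, rfl⟩ := R.exists_eq_ofArrows
  rw [Presieve.isSheafFor_arrows_iff] at hM' ⊢
  intro x hx
  let x' : ∀ i, M.val.obj (op (Z i)) := x
  let y : ∀ i, M.val.obj (op (Z i)) := fun i => chiF χ hχ (g i).c • x' i
  have hy : Presieve.Arrows.Compatible (M.val.presheaf ⋙ CategoryTheory.forget Ab.{1}) g y := by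
    intro i j W a b hab
    have h1 : (chiF χ hχ (a.c)⁻¹ • rst M.val a (x' i) : M.val.obj (op W)) =
      chiF χ hχ (b.c)⁻¹ • rst M.val b (x' j) := hx i j W a b hab
    change rst M.val a (y i) = rst M.val b (y j)
    refine (tw_key χ hχ M.val a (g i) (x' i)).trans ?_
    refine Eq.trans ?_ (tw_key χ hχ M.val b (g j) (x' j)).symm
    rw [h1, hab]
  obtain ⟨t, ht, huniq⟩ := hM' y hy
  refine ⟨t, fun i => ?_, fun t' ht' => huniq t' (fun i => ?_)⟩
  · have h1 : rst M.val (g i) t = y i := ht i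
    change chiF χ hχ ((g i).c)⁻¹ • rst M.val (g i) t = x' i
    rw [h1]
    exact tw_cancel χ hχ M.val _ _
  · have h1 : (chiF χ hχ ((g i).c)⁻¹ • rst M.val (g i) t' : M.val.obj (op (Z i))) = x' i :=
      ht' i
    change rst M.val (g i) t' = chiF χ hχ (g i).c • x' i
    rw [← h1]
    exact (tw_cancel' χ hχ M.val _ _).symm

/-- Twist of a sheaf of modules by a character. -/
def twM : Sh E X ⥤ Sh E X where
  obj M := ⟨twP χ hχ M.val, twP_isSheaf χ hχ M⟩
  map {M N} f := ⟨{ app := fun U => f.val.app U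
                    naturality := fun {U V} u => by
                      ext x
                      change f.val.app V (chiF χ hχ (u.unop.c)⁻¹ • rst M.val u.unop x) =
                        chiF χ hχ (u.unop.c)⁻¹ • rst N.val u.unop (f.val.app U x)
                      refine ((f.val.app V).hom.map_smul _ _).trans ?_
                      congr 1
                      exact PresheafOfModules.naturality_apply f.val u x }⟩

instance : (twM (E := E) (X := X) χ hχ).Additive where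
  map_add := rfl

lemma twM_exact (S : ShortComplex (Sh E X)) (hS : S.Exact) :
    (S.map (twM χ hχ)).Exact := by
  rw [MP.exact_iff] at hS ⊢
  intro U y hy
  obtain ⟨T, hT, hT'⟩ := hS U y hy
  refine ⟨T, hT, fun V h hh => ?_⟩
  obtain ⟨x, hx⟩ := hT' V h hh
  refine ⟨(chiF χ hχ (h.c)⁻¹ • (show S.X₁.val.obj (op V) from x) : S.X₁.val.obj (op V)), ?_⟩
  refine ((S.f.val.app (op V)).hom.map_smul _ _).trans ?_
  change (chiF χ hχ (h.c)⁻¹ • S.f.val.app (op V) x : S.X₂.val.obj (op V)) =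
    chiF χ hχ (h.c)⁻¹ • rst S.X₂.val h y
  rw [hx]
  rfl

lemma twM_preserves : PreservesFiniteLimits (twM (E := E) (X := X) χ hχ) ∧
    PreservesFiniteColimits (twM (E := E) (X := X) χ hχ) :=
  ((Functor.exact_tfae (twM (E := E) (X := X) χ hχ)).out 1 3).1
    (fun S hS => twM_exact χ hχ S hS)

instance : PreservesFiniteLimits (twM (E := E) (X := X) χ hχ) := (twM_preserves χ hχ).1
instance : PreservesFiniteColimits (twM (E := E) (X := X) χ hχ) := (twM_preserves χ hχ).2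

end tw

variable (E X) in
/-- The constant sheaf `ℚ_ℓ`. -/
def unitM : Sh E X := SheafOfModules.unit (Rs E X)

/-- Sections of the constant sheaf. -/
lemma unitM_rst {U V : Tw E X} (u : V ⟶ U) (a : (Rs E X).obj.obj (op U)) :
    rst (unitM E X).val u a = (Rs E X).obj.map u.op a := rfl

section ext

variable (χ : E.G →* ℚ_[E.ℓ]ˣ) (hχ : Continuous χ) (τ : C(E.G, ℚ_[E.ℓ]))
  (hτ : ∀ g h, τ (g * h) = τ g + ((χ g)⁻¹ : ℚ_[E.ℓ]ˣ) * τ h)

/-- The function `t ↦ τ (c t)`. -/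
def tauF {U : Tw E X} (c : C(U.T, E.G)) : (Rs E X).obj.obj (op U) :=
  (⟨τ.comp c⟩ : ULift.{1} C(U.T, ℚ_[E.ℓ]))

lemma tauF_map {U V : Tw E X} (u : U ⟶ V) (c : C(V.T, E.G)) :
    (Rs E X).obj.map u.op (tauF τ c) = tauF τ (c.comp ⟨u.f, by fun_prop⟩) := rfl

include hτ in
lemma tauF_mul {U : Tw E X} (c d : C(U.T, E.G)) :
    tauF τ (c * d) = tauF τ c + chiF χ hχ c⁻¹ * tauF τ d := by
  refine ULift.down_injective (ContinuousMap.ext fun t => ?_)
  change τ (c t * d t) = τ (c t) + ((χ (c t)⁻¹ : ℚ_[E.ℓ]ˣ) : ℚ_[E.ℓ]) * τ (d t)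
  rw [hτ, map_inv]

include hτ in
lemma tau_one : τ 1 = 0 := by
  have := hτ 1 1
  simp at this
  exact this

include hτ in
lemma tauF_one {U : Tw E X} : tauF τ (1 : C(U.T, E.G)) = 0 := by
  refine ULift.down_injective (ContinuousMap.ext fun t => ?_)
  exact tau_one χ τ hτ

/-- The restriction maps of the rank two sheaf. -/
def extMap {U V : Tw E X} (u : V ⟶ U)
    (x : (Rs E X).obj.obj (op U) × (Rs E X).obj.obj (op U)) :
    (Rs E X).obj.obj (op V) × (Rs E X).obj.obj (op V) :=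
  ((Rs E X).obj.map u.op x.1 - tauF τ u.c * (Rs E X).obj.map u.op x.2,
    chiF χ hχ (u.c)⁻¹ * (Rs E X).obj.map u.op x.2)

include hτ in
lemma extMap_id (U : Tw E X)
    (x : (Rs E X).obj.obj (op U) × (Rs E X).obj.obj (op U)) :
    extMap χ hχ τ (𝟙 U) x = x := by
  refine Prod.ext ?_ ?_
  · change (Rs E X).obj.map (𝟙 (op U)) x.1 - tauF τ (1 : C(U.T, E.G)) *
      (Rs E X).obj.map (𝟙 (op U)) x.2 = x.1
    rw [tauF_one χ τ hτ, zero_mul, sub_zero]
    rfl
  · change chiF χ hχ (1 : C(U.T, E.G))⁻¹ * (Rs E X).obj.map (𝟙 (op U)) x.2 = x.2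
    rw [inv_one, chiF_one, one_mul]
    rfl

include hτ in
lemma extMap_comp {W V U : Tw E X} (v : W ⟶ V) (u : V ⟶ U)
    (x : (Rs E X).obj.obj (op U) × (Rs E X).obj.obj (op U)) :
    extMap χ hχ τ (v ≫ u) x = extMap χ hχ τ v (extMap χ hχ τ u x) := by
  have h0 : ∀ y : (Rs E X).obj.obj (op U), (Rs E X).obj.map (v ≫ u).op y =
    (Rs E X).obj.map v.op ((Rs E X).obj.map u.op y) := fun y => rfl
  refine Prod.ext ?_ ?_
  · change (Rs E X).obj.map (v ≫ u).op x.1 -
      tauF τ (u.c.comp ⟨v.f, by fun_prop⟩ * v.c) * (Rs E X).obj.map (v ≫ u).op x.2 =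
      (Rs E X).obj.map v.op ((Rs E X).obj.map u.op x.1 -
        tauF τ u.c * (Rs E X).obj.map u.op x.2) -
      tauF τ v.c * (Rs E X).obj.map v.op (chiF χ hχ (u.c)⁻¹ *
        (Rs E X).obj.map u.op x.2)
    rw [map_sub, map_mul, map_mul, tauF_map, chiF_map, tauF_mul χ hχ τ hτ, h0, h0, add_mul]
    rw [← mul_assoc (tauF τ v.c), ringS_mul_comm (tauF τ v.c)]
    rw [sub_sub]
    rfl
  · change chiF χ hχ (u.c.comp ⟨v.f, by fun_prop⟩ * v.c)⁻¹ *
        (Rs E X).obj.map (v ≫ u).op x.2 =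
      chiF χ hχ (v.c)⁻¹ * (Rs E X).obj.map v.op (chiF χ hχ (u.c)⁻¹ *
        (Rs E X).obj.map u.op x.2)
    rw [map_mul, chiF_map, h0, mul_inv_rev, chiF_mul, mul_assoc]
    rfl

set_option backward.isDefEq.respectTransparency false in
/-- The rank two presheaf. -/
def extP : PresheafOfModules.{1} (Rs E X).obj where
  obj U := ModuleCat.of _ ((Rs E X).obj.obj U × (Rs E X).obj.obj U)
  map {U V} u := ModuleCat.ofHom
    (Y := (ModuleCat.restrictScalars ((Rs E X).obj.map u).hom).obj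
      (ModuleCat.of _ ((Rs E X).obj.obj V × (Rs E X).obj.obj V)))
    { toFun := extMap χ hχ τ u.unop
      map_add' := fun x y => by
        refine Prod.ext ?_ ?_
        · change (Rs E X).obj.map u (x.1 + y.1) -
            tauF τ u.unop.c * (Rs E X).obj.map u (x.2 + y.2) =
            ((Rs E X).obj.map u x.1 - tauF τ u.unop.c * (Rs E X).obj.map u x.2) +
            ((Rs E X).obj.map u y.1 - tauF τ u.unop.c * (Rs E X).obj.map u y.2)
          rw [map_add, map_add, mul_add]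
          abel
        · change chiF χ hχ (u.unop.c)⁻¹ * (Rs E X).obj.map u (x.2 + y.2) =
            chiF χ hχ (u.unop.c)⁻¹ * (Rs E X).obj.map u x.2 +
            chiF χ hχ (u.unop.c)⁻¹ * (Rs E X).obj.map u y.2
          rw [map_add, mul_add]
      map_smul' := fun r x => by
        refine Prod.ext ?_ ?_
        · change (Rs E X).obj.map u (r * x.1) -
            tauF τ u.unop.c * (Rs E X).obj.map u (r * x.2) =
            (Rs E X).obj.map u r * ((Rs E X).obj.map u x.1 -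
              tauF τ u.unop.c * (Rs E X).obj.map u x.2)
          rw [map_mul, map_mul, mul_sub, ← mul_assoc, ← mul_assoc,
            ringS_mul_comm (tauF τ u.unop.c)]
        · change chiF χ hχ (u.unop.c)⁻¹ * (Rs E X).obj.map u (r * x.2) =
            (Rs E X).obj.map u r *
              (chiF χ hχ (u.unop.c)⁻¹ * (Rs E X).obj.map u x.2)
          rw [map_mul, ← mul_assoc, ← mul_assoc, ringS_mul_comm (chiF χ hχ (u.unop.c)⁻¹)] }
  map_id U := by
    refine ModuleCat.hom_ext (LinearMap.ext fun x => ?_)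
    exact extMap_id χ hχ τ hτ U.unop x
  map_comp {U V W} u v := by
    refine ModuleCat.hom_ext (LinearMap.ext fun x => ?_)
    exact extMap_comp χ hχ τ hτ v.unop u.unop x

lemma extP_rst {U V : Tw E X} (u : V ⟶ U)
    (x : (Rs E X).obj.obj (op U) × (Rs E X).obj.obj (op U)) :
    rst (extP χ hχ τ hτ) u x = extMap χ hχ τ u x := rfl

/-- A copy of `ℚ_ℓ × ℚ_ℓ` on which the group acts. -/
@[nolint unusedArguments]
def VV (_ : ∀ g h, τ (g * h) = τ g + ((χ g)⁻¹ : ℚ_[E.ℓ]ˣ) * τ h) : Type := ℚ_[E.ℓ] × ℚ_[E.ℓ]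

instance : TopologicalSpace (VV χ τ hτ) := inferInstanceAs (TopologicalSpace (ℚ_[E.ℓ] × ℚ_[E.ℓ]))

instance : MulAction E.G (VV χ τ hτ) where
  smul g x := (show ℚ_[E.ℓ] × ℚ_[E.ℓ] from (x.1 + χ g * τ g * x.2, χ g * x.2))
  one_smul x := by
    refine Prod.ext ?_ ?_
    · change x.1 + χ 1 * τ 1 * x.2 = x.1
      rw [tau_one χ τ hτ]; ring
    · change χ 1 * x.2 = x.2
      rw [map_one, Units.val_one, one_mul]
  mul_smul g h x := by
    refine Prod.ext ?_ ?_
    · change x.1 + χ (g * h) * τ (g * h) * x.2 =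
        (x.1 + χ h * τ h * x.2) + χ g * τ g * (χ h * x.2)
      rw [hτ, map_mul, Units.val_mul]
      have h1 : (χ g : ℚ_[E.ℓ]) * ((χ g)⁻¹ : ℚ_[E.ℓ]ˣ) = 1 := Units.mul_inv _
      linear_combination (χ h * τ h * x.2) * h1
    · change χ (g * h) * x.2 = χ g * (χ h * x.2)
      rw [map_mul, Units.val_mul, mul_assoc]

lemma VV_continuousSMul (hχ : Continuous χ) : ContinuousSMul E.G (VV χ τ hτ) := by
  refine ⟨?_⟩
  change Continuous (fun z : E.G × (ℚ_[E.ℓ] × ℚ_[E.ℓ]) =>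
    ((z.2.1 + χ z.1 * τ z.1 * z.2.2, χ z.1 * z.2.2) : ℚ_[E.ℓ] × ℚ_[E.ℓ]))
  fun_prop

/-- Comparison of pairs of functions and functions with values in pairs. -/
def extEquiv (T : Type) [TopologicalSpace T] :
    ULift.{1} C(T, VV χ τ hτ) ≃ ULift.{1} C(T, ℚ_[E.ℓ]) × ULift.{1} C(T, ℚ_[E.ℓ]) where
  toFun φ := (⟨⟨fun t => (show ℚ_[E.ℓ] × ℚ_[E.ℓ] from φ.down t).1,
      continuous_fst.comp φ.down.continuous⟩⟩,
    ⟨⟨fun t => (show ℚ_[E.ℓ] × ℚ_[E.ℓ] from φ.down t).2, continuous_snd.comp φ.down.continuous⟩⟩)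
  invFun x := ⟨⟨fun t => (show ℚ_[E.ℓ] × ℚ_[E.ℓ] from (x.1.down t, x.2.down t)),
    x.1.down.continuous.prodMk x.2.down.continuous⟩⟩
  left_inv _ := rfl
  right_inv _ := rfl

include hχ hτ in
lemma extP_isSheaf : Presheaf.IsSheaf (topo E X)
    (extP χ hχ τ hτ (E := E) (X := X)).presheaf := by
  refine Presheaf.isSheaf_of_isSheaf_comp _ _ (CategoryTheory.forget Ab.{1}) ?_
  rw [isSheaf_iff_isSheaf_of_type]
  have := VV_continuousSMul χ τ hτ hχ
  have h : Presieve.IsSheaf (topo E X) (fn E X (VV χ τ hτ) ⋙ uliftFunctor.{1, 0}) :=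
    (Presieve.isSheaf_comp_uliftFunctor_iff _).2 fn_isSheaf
  refine Presieve.isSheaf_iso _ (NatIso.ofComponents
    (fun U => (extEquiv χ τ hτ U.unop.T).toIso) (fun {U V} u => ?_)) h
  ext φ
  refine Prod.ext ?_ ?_
  · refine ULift.down_injective (ContinuousMap.ext fun t => ?_)
    let ψ : C(U.unop.T, VV χ τ hτ) := φ.down
    let y : ℚ_[E.ℓ] × ℚ_[E.ℓ] := ψ (u.unop.f t)
    change y.1 + χ (u.unop.c t)⁻¹ * τ (u.unop.c t)⁻¹ * y.2 = y.1 - τ (u.unop.c t) * y.2
    have h1 := hτ (u.unop.c t)⁻¹ (u.unop.c t)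
    rw [inv_mul_cancel, tau_one χ τ hτ] at h1
    have h2 : (χ (u.unop.c t)⁻¹ : ℚ_[E.ℓ]) * ((χ (u.unop.c t)⁻¹)⁻¹ : ℚ_[E.ℓ]ˣ) = 1 :=
      Units.mul_inv _
    linear_combination (-(χ (u.unop.c t)⁻¹ : ℚ_[E.ℓ]) * y.2) * h1 -
      (τ (u.unop.c t) * y.2) * h2
  · exact ULift.down_injective (ContinuousMap.ext fun t => rfl)

variable (E X) in
/-- The rank two sheaf, an extension of a twist of the constant sheaf by the constant sheaf. -/
def extM : Sh E X := ⟨extP χ hχ τ hτ, extP_isSheaf χ hχ τ hτ⟩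

variable (E X) in
/-- The inclusion of the constant sheaf. -/
def extInc : unitM E X ⟶ extM E X χ hχ τ hτ :=
  ⟨{ app := fun U => ModuleCat.ofHom (LinearMap.inl _ _ _)
     naturality := fun {U V} u => by
      refine ModuleCat.hom_ext (LinearMap.ext fun x => ?_)
      refine Prod.ext ?_ ?_
      · change (Rs E X).obj.map u x = (Rs E X).obj.map u x -
          tauF τ u.unop.c * (Rs E X).obj.map u 0
        rw [map_zero, mul_zero, sub_zero]
      · change 0 = chiF χ hχ (u.unop.c)⁻¹ * (Rs E X).obj.map u 0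
        rw [map_zero, mul_zero] }⟩

variable (E X) in
/-- The projection to the twist of the constant sheaf. -/
def extProj : extM E X χ hχ τ hτ ⟶ (twM χ hχ).obj (unitM E X) :=
  ⟨{ app := fun U => ModuleCat.ofHom (LinearMap.snd _ _ _)
     naturality := fun {U V} u => by
      refine ModuleCat.hom_ext (LinearMap.ext fun x => ?_)
      rfl }⟩

end ext

end Tw

end

end Pool.Agent.H72.MQ
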