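import Pool.Agent.H72.MQ.S7
import Pool.Agent.H72.MQ.P7
import Pool.Agent.H72.MP.Two
import Pool.Agent.H72.MP.Mod.A3

open CategoryTheory Limits AlgebraicGeometry TopologicalSpace Opposite ZeroObject

namespace Pool.Agent.H72.MQ

noncomputable section

section unitRes

variable (E : Env) {X Y : Scheme.{0}}

/-- The restriction of the constant sheaf to a subscheme. -/
def unitRes (i : Y ⟶ X) : Tw.unitM E X ⟶ (push E i).obj (Tw.unitM E Y) :=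
  haveI := Tw.pull_cont (E := E) i
  SheafOfModules.unitToPushforwardObjUnit
    (⟨Tw.rpull i⟩ : Tw.Rs E X ⟶ ((Tw.pull i).sheafPushforwardContinuous RingCat.{1}
      (Tw.topo E X) (Tw.topo E Y)).obj (Tw.Rs E Y))

lemma unitRes_apply (i : Y ⟶ X) (U : Tw E X) (a : (Tw.Rs E X).obj.obj (op U)) :
    (unitRes E i).val.app (op U) a = (Tw.rpull i).app (op U) a := rfl

/-- The complex `A ⟶ B` placed in degrees `-1` and `0` is bounded below. -/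
instance two_isStrictlyGE {C : Type*} [Category C] [Abelian C] {A B : C} (f : A ⟶ B) :
    (MP.two f).IsStrictlyGE (-1) := by
  rw [CochainComplex.isStrictlyGE_iff]
  intro i hi
  exact MP.isZero_two_X f i (by omega) (by omega)

end unitRes

section kum

variable {p ℓ : ℕ} [Fact p.Prime] [Fact ℓ.Prime]

/-- The same data with other names. -/
def Kum.toMP (κ : Kum p ℓ) : MP.Kum p ℓ :=
  ⟨κ.ζ, κ.ζ_prim, κ.ζ_succ, κ.ϖ, κ.ϖ_zero, κ.ϖ_succ, κ.t, κ.ht⟩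

/-- The same data with other names. -/
def kumOf (κ : MP.Kum p ℓ) : Kum p ℓ :=
  ⟨κ.ζ, κ.ζ_prim, κ.ζ_succ, κ.ϖ, κ.ϖ_zero, κ.ϖ_succ, κ.t, κ.ht⟩

variable (p ℓ) in
lemma kum_nonempty : Nonempty (Kum p ℓ) := (MP.kum_nonempty p ℓ).map kumOf

variable (p) in
lemma resAct_eq (g : Gη p) : resAct (OO p) (mem_dec p) g = MP.ρη p g := by
  refine RingEquiv.ext fun x => ?_
  obtain ⟨y, rfl⟩ := IsLocalRing.residue_surjective x
  rfl

variable (p ℓ) in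
/-- The inverse of the cyclotomic character. -/
def cInv : (Eη p ℓ).G →* ℚ_[(Eη p ℓ).ℓ]ˣ := MP.cycInv p ℓ

variable (p ℓ) in
lemma cInv_continuous : Continuous (cInv p ℓ) := MP.cycInv_continuous p ℓ

variable (κ : Kum p ℓ)

/-- The Kummer cocycle as a continuous function. -/
def kumC : C((Eη p ℓ).G, ℚ_[(Eη p ℓ).ℓ]) :=
  ⟨κ.tq, continuous_subtype_val.comp (MP.Kum.continuous κ.toMP)⟩

lemma kumC_apply (g : Gη p) : kumC κ g = (κ.t g : ℚ_[ℓ]) := rfl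

lemma kumC_mul (g h : (Eη p ℓ).G) :
    kumC κ (g * h) = kumC κ g +
      (((cInv p ℓ g)⁻¹ : ℚ_[(Eη p ℓ).ℓ]ˣ) : ℚ_[(Eη p ℓ).ℓ]) * kumC κ h := by
  have h1 := MP.Kum.cocycle κ.toMP g h
  change ((κ.t ((show Gη p from g) * (show Gη p from h)) : ℤ_[ℓ]) : ℚ_[ℓ]) = (κ.t g : ℚ_[ℓ]) +
    (((MP.cycInv p ℓ g)⁻¹ : ℚ_[ℓ]ˣ) : ℚ_[ℓ]) * (κ.t h : ℚ_[ℓ])
  have h2 : κ.t ((show Gη p from g) * (show Gη p from h)) = _ := h1
  rw [h2, PadicInt.coe_add, PadicInt.coe_mul]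
  congr 2

end kum

section cex

open Tw

variable {p ℓ : ℕ} [Fact p.Prime] [Fact ℓ.Prime] (κ : Kum p ℓ) {X Y : Scheme.{0}}

/-- The sheaf `E`, a non-split extension of `ℚ_ℓ(-1)` by `ℚ_ℓ`. -/
def EE (Y : Scheme.{0}) : Sh (Eη p ℓ) Y :=
  extM (Eη p ℓ) Y (cInv p ℓ) (cInv_continuous p ℓ) (kumC κ) (kumC_mul κ)

variable (p ℓ) in
/-- The constant sheaf. -/
abbrev OE (Y : Scheme.{0}) : Sh (Eη p ℓ) Y := unitM (Eη p ℓ) Y

variable (p ℓ) in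
/-- The Tate twist. -/
abbrev tateM (Y : Scheme.{0}) : Sh (Eη p ℓ) Y ⥤ Sh (Eη p ℓ) Y :=
  twM (cInv p ℓ) (cInv_continuous p ℓ)

/-- The inclusion of `ℚ_ℓ` in `E`. -/
def eInc (Y : Scheme.{0}) : OE p ℓ Y ⟶ EE κ Y :=
  extInc (Eη p ℓ) Y (cInv p ℓ) (cInv_continuous p ℓ) (kumC κ) (kumC_mul κ)

/-- The projection of `E` to `ℚ_ℓ(-1)`. -/
def eProj (Y : Scheme.{0}) : EE κ Y ⟶ (tateM p ℓ Y).obj (OE p ℓ Y) :=
  extProj (Eη p ℓ) Y (cInv p ℓ) (cInv_continuous p ℓ) (kumC κ) (kumC_mul κ)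

/-- The differential of the complex `ℚ_ℓ ⟶ i_* E`. -/
def dI (i : Y ⟶ X) : OE p ℓ X ⟶ (push (Eη p ℓ) i).obj (EE κ Y) :=
  unitRes (Eη p ℓ) i ≫ (push (Eη p ℓ) i).map (eInc κ Y)

/-- The complex `ℚ_ℓ ⟶ i_* E` in degrees `-1` and `0`, as a bounded below complex. -/
def CP (i : Y ⟶ X) : CochainComplex.Plus (Sh (Eη p ℓ) X) :=
  ⟨MP.two (dI κ i), -1, inferInstance⟩

/-- The counterexample. -/
def FF (i : Y ⟶ X) : DerivedCategory.Plus (Sh (Eη p ℓ) X) := DerivedCategory.Plus.Q.obj (CP κ i)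

lemma FF_ι (i : Y ⟶ X) :
    DerivedCategory.Plus.ι.obj (FF κ i) = DerivedCategory.Q.obj (MP.two (dI κ i)) := rfl

end cex

end

end Pool.Agent.H72.MQ
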