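import Pool.Agent.H72.MQ.G1
import Pool.Agent.H72.MP.PosF0
import Pool.Agent.H72.MP.Two

open CategoryTheory Limits Opposite Pretriangulated ZeroObject

namespace Pool.Agent.H72.MQ

noncomputable section

open MP

variable {A : Type 2} [Category.{1} A] [Abelian A] [HasDerivedCategory.{2} A]
  {B : Type 2} [Category.{1} B] [Abelian B] [HasDerivedCategory.{2} B]
  (F : A ⥤ B) [F.Additive] [PreservesFiniteLimits F] [PreservesFiniteColimits F]

/-- The functor on complexes. -/
abbrev Fc : CochainComplex A ℤ ⥤ CochainComplex B ℤ := F.mapHomologicalComplex (ComplexShape.up ℤ)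

/-- Morphisms in the derived category defined by morphisms of complexes. -/
def dj {K L : CochainComplex A ℤ} (f : (Fc F).obj K ⟶ (Fc F).obj L) :
    F.mapDerivedCategory.obj (DerivedCategory.Q.obj K) ⟶
      F.mapDerivedCategory.obj (DerivedCategory.Q.obj L) :=
  F.mapDerivedCategoryFactors.hom.app K ≫ DerivedCategory.Q.map f ≫
    F.mapDerivedCategoryFactors.inv.app L

lemma dj_eq_cj {K : CochainComplex A ℤ} (f : (Fc F).obj K ⟶ (Fc F).obj K) : dj F f = cj F f := rfl

lemma dj_comp {K L M : CochainComplex A ℤ} (f : (Fc F).obj K ⟶ (Fc F).obj L)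
    (g : (Fc F).obj L ⟶ (Fc F).obj M) : dj F (f ≫ g) = dj F f ≫ dj F g := by
  rw [dj, dj, dj, Category.assoc, Category.assoc, Iso.inv_hom_id_app_assoc,
    Functor.map_comp, Category.assoc]

lemma dj_id (K : CochainComplex A ℤ) : dj F (𝟙 ((Fc F).obj K)) = 𝟙 _ := cj_one F

lemma dj_zero (K L : CochainComplex A ℤ) : dj F (0 : (Fc F).obj K ⟶ (Fc F).obj L) = 0 := by
  rw [dj, Functor.map_zero, zero_comp, comp_zero]

lemma dj_map {K L : CochainComplex A ℤ} (f : K ⟶ L) :
    dj F ((Fc F).map f) = F.mapDerivedCategory.map (DerivedCategory.Q.map f) := by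
  have h := F.mapDerivedCategoryFactors.hom.naturality f
  have h' : F.mapDerivedCategory.map (DerivedCategory.Q.map f) ≫
      F.mapDerivedCategoryFactors.hom.app L = F.mapDerivedCategoryFactors.hom.app K ≫
        DerivedCategory.Q.map ((Fc F).map f) := h
  rw [dj, ← Category.assoc, ← h', Category.assoc, Iso.hom_inv_id_app]
  exact Category.comp_id _

lemma dj_sq {K L M N : CochainComplex A ℤ} {f : (Fc F).obj K ⟶ (Fc F).obj L} {g : L ⟶ M}
    {g' : K ⟶ N} {f' : (Fc F).obj N ⟶ (Fc F).obj M} (h : f ≫ (Fc F).map g = (Fc F).map g' ≫ f') :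
    dj F f ≫ F.mapDerivedCategory.map (DerivedCategory.Q.map g) =
      F.mapDerivedCategory.map (DerivedCategory.Q.map g') ≫ dj F f' := by
  rw [← dj_map, ← dj_map, ← dj_comp, ← dj_comp, h]

lemma isIso_dj {K L : CochainComplex A ℤ} (f : (Fc F).obj K ⟶ (Fc F).obj L) (hf : IsIso f) :
    IsIso (dj F f) := by
  refine ⟨dj F (inv f), ?_, ?_⟩
  · rw [← dj_comp, IsIso.hom_inv_id, dj_id]
  · rw [← dj_comp, IsIso.inv_hom_id, dj_id]

lemma dNat_eq {F G : A ⥤ B} [F.Additive] [PreservesFiniteLimits F] [PreservesFiniteColimits F]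
    [G.Additive] [PreservesFiniteLimits G] [PreservesFiniteColimits G] (τ : F ⟶ G) :
    MQ.dNat τ = MP.dNat τ := rfl

lemma isZero_Q {C : Type*} [Category C] [Abelian C] [HasDerivedCategory C] :
    IsZero ((DerivedCategory.Q (C := C)).obj 0) :=
  DerivedCategory.Q.map_isZero (isZero_zero _)

lemma isIso_of_isZero {C : Type*} [Category C] {A B : C} (hA : IsZero A) (hB : IsZero B)
    (f : A ⟶ B) : IsIso f :=
  ⟨⟨hB.to_ A, hA.eq_of_src _ _, hB.eq_of_src _ _⟩⟩

lemma map_two_hom_ext {C D : Type*} [Category C] [Category D] [Abelian C] [Abelian D] (F : C ⥤ D)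
    [F.Additive] {A B : C} {f : A ⟶ B} {K : CochainComplex D ℤ}
    {u v : (F.mapHomologicalComplex (ComplexShape.up ℤ)).obj (two f) ⟶ K}
    (h1 : u.f (-1) = v.f (-1)) (h0 : u.f 0 = v.f 0) : u = v := by
  refine HomologicalComplex.hom_ext _ _ (fun i => ?_)
  rcases i with (_ | i) | (_ | i)
  · exact h0
  · exact (F.map_isZero (isZero_zero C)).eq_of_src _ _
  · exact h1
  · exact (F.map_isZero (isZero_zero C)).eq_of_src _ _

end

end Pool.Agent.H72.MQ
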