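import Pool.Agent.H72.MQ.Isos
import Pool.Agent.H72.MP.Mod.C1

open CategoryTheory Limits AlgebraicGeometry TopologicalSpace Opposite

namespace Pool.Agent.H72.MQ

noncomputable section

open Tw

section fac

variable {E : Env} {X : Scheme.{0}}

/-- Factorisation through an untwisted morphism. -/
def untwFac {A U : Tw E X} (w : A ⟶ U) {Z : Scheme.{0}} (f : Z ⟶ U.T) (π : Z ⟶ X)
    (hπ : WeaklyEtale π) (h : f ≫ U.π = π) (a : A.T ⟶ Z) (ha : a ≫ f = w.f) :
    A ⟶ untw f π hπ where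
  f := a
  c := w.c
  w := by
    change a ≫ π = _
    rw [← h, ← Category.assoc, ha, w.w]
  h := by
    have h1 : IsTw E.ρ A.a U.a (a ≫ f) w.c := by rw [ha]; exact w.h
    exact IsTwF.comap_iff.2 h1

lemma untwFac_comp {A U : Tw E X} (w : A ⟶ U) {Z : Scheme.{0}} (f : Z ⟶ U.T) (π : Z ⟶ X)
    (hπ : WeaklyEtale π) (h : f ≫ U.π = π) (a : A.T ⟶ Z) (ha : a ≫ f = w.f) :
    untwFac w f π hπ h a ha ≫ untwHom f π hπ h = w :=
  hom_ext ha (fun _ => one_mul _)

end fac

section empty

variable {E : Env} {X : Scheme.{0}}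

lemma bot_mem_topo {U : Tw E X} (hU : IsEmpty U.T) : (⊥ : Sieve U) ∈ topo E X U := by
  refine mem_topo_iff.2 ⟨⊥, ?_, fun _ _ h => h.elim⟩
  change (⊥ : Presieve U).map (forget E X) ∈ Scheme.proetalePrecoverage _
  have h : (⊥ : Presieve U).map (forget E X) = ⊥ := by
    refine le_antisymm ?_ bot_le
    rintro _ _ ⟨h⟩
    exact h.elim
  rw [h]
  have : IsEmpty ((forget E X).obj U) := hU
  exact Scheme.bot_mem_propQCPrecoverage _

lemma sections_empty (M : Sh E X) {U : Tw E X} (hU : IsEmpty U.T)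
    (x y : M.val.obj (op U)) : x = y := by
  have hM : Presieve.IsSheaf (topo E X) (M.val.presheaf ⋙ CategoryTheory.forget Ab.{1}) := by
    rw [← isSheaf_iff_isSheaf_of_type]
    exact Presheaf.isSheaf_comp_of_isSheaf _ _ _ M.isSheaf
  exact (hM.isSeparated _ (bot_mem_topo hU)).ext (fun _ _ h => h.elim)

end empty

section pt

variable {E : Env} {X : Scheme.{0}}
  {F : Type} [Field F] [IsLocallyNoetherian X] (s : X ⟶ Spec (.of F)) (x : Spec (.of F) ⟶ X)
  [IsClosedImmersion x] (hx : x ≫ s = 𝟙 _)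

include hx in
lemma exists_cover_pt (U : Tw E X) (S : Sieve ((pull x).obj U))
    (hS : S ∈ topo E (Spec (.of F)) ((pull x).obj U)) :
    ∃ S' ∈ topo E X U, ∀ (V : Tw E X) (g : V ⟶ U), S' g →
      IsEmpty ((pull x).obj V : Tw E (Spec (.of F))).T ∨ S ((pull x).map g) := by
  obtain ⟨R, hR, hRS⟩ := mem_topo_iff.1 hS
  obtain ⟨ι, Z, g, rfl⟩ := R.exists_eq_ofArrows
  change (Presieve.ofArrows Z g).map _ ∈ Scheme.proetalePrecoverage _ at hR
  rw [Presieve.map_ofArrows] at hR
  have hU : WeaklyEtale U.π := U.we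
  obtain ⟨R', hR', h⟩ := MP.exists_cover_of_point F s x hx U.π _ hR
  obtain ⟨ι', Z', g', rfl⟩ := R'.exists_eq_ofArrows
  have hg' : ∀ j, WeaklyEtale (g' j) := fun j => hR'.2.2 ⟨j⟩
  have hπ : ∀ j, WeaklyEtale (g' j ≫ U.π) := fun j => by
    have := hg' j
    infer_instance
  refine ⟨Sieve.generate (Presieve.ofArrows (fun j => untw (U := U) (g' j)
    (g' j ≫ U.π) (hπ j)) (fun j => untwHom (U := U) (g' j) (g' j ≫ U.π) (hπ j) rfl)),
    mem_topo_iff.2 ⟨_, ?_, Sieve.le_generate _⟩, ?_⟩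
  · change (Presieve.ofArrows _ _).map _ ∈ Scheme.proetalePrecoverage _
    rw [Presieve.map_ofArrows]
    exact hR'
  · rintro V _ ⟨W, a, _, ⟨j⟩, rfl⟩
    rcases h (Z' j) (g' j) ⟨j⟩ with he | ⟨W', r, hr, h', e⟩
    · exact Or.inl ⟨fun t => he.false (((pull x).map a).f t)⟩
    · refine Or.inr ?_
      rw [Functor.map_comp]
      refine S.downward_closed ?_ _
      obtain ⟨i⟩ := hr
      have h1 : S.arrows (g i) := hRS _ _ ⟨i⟩
      have h2 := S.downward_closed h1 (untwTo (g i))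
      rw [untwTo_comp] at h2
      have h3 := S.downward_closed h2 (untwFac ((pull x).map (untwHom (U := U) (g' j)
        (g' j ≫ U.π) (hπ j) rfl)) (g i).f (Z i).π (Z i).we (g i).w h' e)
      rw [untwFac_comp] at h3
      exact h3

include hx in
lemma push_exact_pt (S : ShortComplex (Sh E (Spec (.of F)))) (hS : S.Exact) :
    (S.map (push E x)).Exact := by
  rw [MP.exact_iff] at hS ⊢
  intro U y hy
  obtain ⟨T, hT, hT'⟩ := hS ((pull x).obj U) y hy
  obtain ⟨T', h1, h2⟩ := exists_cover_pt s x hx U T hT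
  refine ⟨T', h1, fun V g hg => ?_⟩
  rcases h2 V g hg with he | h3
  · exact ⟨0, sections_empty S.X₂ he _ _⟩
  · obtain ⟨z, hz⟩ := hT' _ _ h3
    exact ⟨z, hz⟩

include hx in
lemma push_preserves_pt : PreservesFiniteLimits (push E x) ∧
    PreservesFiniteColimits (push E x) :=
  ((Functor.exact_tfae (push E x)).out 1 3).1
    (fun S hS => push_exact_pt s x hx S hS)

end pt

section id

variable (E : Env) (X : Scheme.{0})

/-- Push-forward along the identity is the identity. -/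
def pushIdIso : 𝟭 _ ≅ push E (𝟙 X) :=
  NatIso.ofComponents pushId (fun f => md_hom_ext (fun U y =>
    (md_nat f (pullIdHom U) y).symm))

instance : PreservesFiniteColimits (push E (𝟙 X)) :=
  preservesFiniteColimits_of_natIso (pushIdIso E X)

instance (Y : Scheme.{0}) (f : Y ⟶ X) : PreservesFiniteLimits (push E f) := push_lim' E f

end id

end

end Pool.Agent.H72.MQ
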