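import Mathlib

open CategoryTheory Limits Opposite

namespace Pool.Agent.H72.MQ

noncomputable section

variable {C : Type 1} [SmallCategory C]

/-- Restriction of sections. -/
def rst {R : Cᵒᵖ ⥤ RingCat.{1}} (M : PresheafOfModules.{1} R) {V U : C} (u : V ⟶ U)
    (x : M.obj (op U)) : M.obj (op V) := (M.map u.op).hom x

variable {J : GrothendieckTopology C} {R : Sheaf J RingCat.{1}}

/-- The property `P` holds locally on `U`: for all `g` in a covering sieve `S` of `U`
(note that `S.pullback g = ⊤` means that `g` belongs to `S`). -/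
def Loc (J : GrothendieckTopology C) (U : C) (P : ∀ V : C, (V ⟶ U) → Prop) : Prop :=
  ∃ S ∈ J U, ∀ (V : C) (g : V ⟶ U), S.pullback g = ⊤ → P V g

/-- Locally free sheaves of finite rank: locally there are finitely
many sections which form a basis of the sections over every further object. -/
def LocFree (L : SheafOfModules.{1} R) : Prop :=
  ∀ U : C, Loc J U (fun V _ => ∃ (n : ℕ) (b : Fin n → L.val.obj (op V)),
    ∀ (W : C) (h : W ⟶ V) (x : L.val.obj (op W)),
      ∃! r : Fin n → R.obj.obj (op W), ∑ i, r i • rst L.val h (b i) = x)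

/-- `M` is the subsheaf of `F` of the sections which are locally zero or defined over an object
satisfying `off`. -/
def IsSubOff (F M : SheafOfModules.{1} R) (off : C → Prop) : Prop :=
  ∃ m : M ⟶ F, Mono m ∧ ∀ (U : C) (s : F.val.obj (op U)),
    (∃ e : M.val.obj (op U), (m.val.app (op U)).hom e = s) ↔
      Loc J U (fun V g => rst F.val g s = 0 ∨ off V)

/-- A central action of the ring `k` on a presheaf of rings. -/
structure Cst {C : Type 1} [Category C] (k : Type) [CommRing k] (R : Cᵒᵖ ⥤ RingCat.{1}) :
    Type 1 where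
  c : ∀ U : C, k →+* R.obj (op U)
  nat : ∀ {U V : C} (u : V ⟶ U) (a : k), (R.map u.op).hom (c U a) = c V a
  comm : ∀ (U : C) (a : k) (r : R.obj (op U)), r * c U a = c U a * r

namespace Cst

variable {k : Type} [CommRing k]

/-- Composition with a functor. -/
def comap {C D : Type 1} [Category C] [Category D] {R : Dᵒᵖ ⥤ RingCat.{1}} (κ : Cst k R)
    (F : C ⥤ D) : Cst k (F.op ⋙ R) :=
  ⟨fun U => κ.c (F.obj U), fun u => κ.nat (F.map u), fun U => κ.comm (F.obj U)⟩

variable (κ : Cst k R.obj)

/-- The scalar `a` acting on the sections of `M` over `U`. -/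
def on (a : k) (M : SheafOfModules.{1} R) (U : C) (x : M.val.obj (op U)) : M.val.obj (op U) :=
  κ.c U a • x

/-- The polynomial `P` annihilates the action of `u` on the sections of `M` over `U`. -/
def Ann (M : SheafOfModules.{1} R) {U : C} (u : U ⟶ U) (P : Polynomial k) : Prop :=
  ∀ x : M.val.obj (op U), P.sum (fun i a => κ.on a M U ((rst M.val u)^[i] x)) = 0

theorem on_add (a : k) (M : SheafOfModules.{1} R) (U : C) (x y : M.val.obj (op U)) :
    κ.on a M U (x + y) = κ.on a M U x + κ.on a M U y := smul_add _ _ _

theorem on_smul (a : k) (M : SheafOfModules.{1} R) (U : C) (r : R.obj.obj (op U))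
    (x : M.val.obj (op U)) : κ.on a M U (r • x) = r • κ.on a M U x := by
  unfold on
  rw [smul_smul, smul_smul, κ.comm]

/-- The scalar `a` acting on the sections of `M` over `U`. -/
def ap (a : k) (M : SheafOfModules.{1} R) (U : Cᵒᵖ) : M.val.obj U ⟶ M.val.obj U :=
  ModuleCat.ofHom
    { toFun := κ.on a M U.unop
      map_add' := κ.on_add a M U.unop
      map_smul' := κ.on_smul a M U.unop }

/-- The scalar `a` acting on `M`. -/
def act (a : k) (M : SheafOfModules.{1} R) : M ⟶ M :=
  ⟨{ app := κ.ap a M
     naturality := fun {U V} u => by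
      ext x
      have h := M.val.map_smul u (κ.c U.unop a) x
      have h2 := κ.nat u.unop a
      rw [Quiver.Hom.op_unop] at h2
      rw [h2] at h
      exact h.symm }⟩

theorem act_nat (a : k) {M N : SheafOfModules.{1} R} (f : M ⟶ N) :
    f ≫ κ.act a N = κ.act a M ≫ f := by
  ext U x
  exact ((f.val.app U).hom.map_smul (κ.c U.unop a) x).symm

/-- The scalar `a` acting on all objects. -/
def nt (a : k) : CatCenter (SheafOfModules.{1} R) :=
  { app := κ.act a, naturality := fun _ _ f => κ.act_nat a f }

theorem nt_one : κ.nt 1 = 1 := by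
  ext M U x
  exact (congrArg (fun r : R.obj.obj U => r • x) (map_one (κ.c U.unop))).trans (one_smul _ x)

theorem nt_zero : κ.nt 0 = 0 := by
  ext M U x
  exact (congrArg (fun r : R.obj.obj U => r • x) (map_zero (κ.c U.unop))).trans (zero_smul _ x)

theorem nt_mul (a b : k) : κ.nt (a * b) = κ.nt a * κ.nt b := by
  ext M U x
  refine (congrArg (fun r : R.obj.obj U => r • x) (map_mul (κ.c U.unop) a b)).trans ?_
  exact mul_smul (κ.c U.unop a) (κ.c U.unop b) x

theorem nt_add (a b : k) : κ.nt (a + b) = κ.nt a + κ.nt b := by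
  ext M U x
  exact (congrArg (fun r : R.obj.obj U => r • x) (map_add (κ.c U.unop) a b)).trans
    (add_smul _ _ x)

/-- The action of `k` on the identity functor. -/
def hom : k →+* CatCenter (SheafOfModules.{1} R) where
  toFun := κ.nt
  map_one' := κ.nt_one
  map_zero' := κ.nt_zero
  map_mul' := κ.nt_mul
  map_add' := κ.nt_add

/-- The linear structure. -/
@[implicit_reducible]
def lin : CategoryTheory.Linear k (SheafOfModules.{1} R) := Linear.ofRingMorphism κ.hom

end Cst

section act

variable {D : Type 1} [SmallCategory D] {K : GrothendieckTopology D} {F : C ⥤ D}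
  [Functor.IsContinuous F J K] {S : Sheaf K RingCat.{1}}

/-- The natural transformation `τ` acts on sections as the restriction along the
endomorphisms `v` satisfying `P`. -/
def IsActBy {φ : R ⟶ (F.sheafPushforwardContinuous RingCat.{1} J K).obj S}
    (τ : SheafOfModules.pushforward.{1} φ ⟶ SheafOfModules.pushforward.{1} φ)
    (P : ∀ U : C, (F.obj U ⟶ F.obj U) → Prop) : Prop :=
  ∀ (M : SheafOfModules.{1} S) (U : C) (v : F.obj U ⟶ F.obj U), P U v →
    ∀ x : M.val.obj (op (F.obj U)), ((τ.app M).val.app (op U)).hom x = rst M.val v x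

end act

end

end Pool.Agent.H72.MQ
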