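import Mathlib

open CategoryTheory Limits Opposite Pretriangulated

namespace Pool.Agent.H72.MQ

noncomputable section

variable {A : Type 2} [Category.{1} A] [Abelian A] [HasDerivedCategory.{2} A]
  {B : Type 2} [Category.{1} B] [Abelian B] [HasDerivedCategory.{2} B]

/-- The smallest class of objects of the derived category containing the objects satisfying `S` and
the zero objects and stable under isomorphisms and extensions. -/
inductive DCl (S : DerivedCategory A → Prop) : DerivedCategory A → Prop
  | of {K : DerivedCategory A} : S K → DCl S K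
  | zero {K : DerivedCategory A} : IsZero K → DCl S K
  | iso {K L : DerivedCategory A} (e : K ≅ L) : DCl S K → DCl S L
  | ext (T : Triangle (DerivedCategory A)) : T ∈ distTriang (DerivedCategory A) →
      DCl S T.obj₁ → DCl S T.obj₃ → DCl S T.obj₂

/-- `K` is the object `M` placed in degree `j`. -/
def IsSgl (M : A) (j : ℤ) (K : DerivedCategory A) : Prop :=
  Nonempty (K ≅ (DerivedCategory.singleFunctor A j).obj M)

/-- `K` is the derived direct image under `F` of the object `L` placed in degree `j`. -/
def IsRF [EnoughInjectives A] (F : A ⥤ B) [F.Additive] (L : A) (j : ℤ) (K : DerivedCategory B) :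
    Prop :=
  Nonempty (K ≅ DerivedCategory.Plus.ι.obj (F.rightDerivedFunctorPlus.obj
    ((DerivedCategory.Plus.singleFunctor A j).obj L)))

/-- `Q` is the `i`-th cohomology object of `K` for the t-structure with aisles `LE` and `GE`. -/
def IsCoh (LE GE : ℤ → DerivedCategory A → Prop) (i : ℤ) (K Q : DerivedCategory A) : Prop :=
  ∃ T₁ ∈ distTriang (DerivedCategory A), ∃ T₂ ∈ distTriang (DerivedCategory A),
    Nonempty (T₁.obj₂ ≅ K) ∧ LE i T₁.obj₁ ∧ GE (i + 1) T₁.obj₃ ∧
    Nonempty (T₂.obj₂ ≅ T₁.obj₁) ∧ LE (i - 1) T₂.obj₁ ∧ GE i T₂.obj₃ ∧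
    Nonempty (Q ≅ T₂.obj₃⟦i⟧)

/-- The natural transformation between functors of derived categories defined by a natural
transformation of exact functors. -/
def dNat {F G : A ⥤ B} [F.Additive] [PreservesFiniteLimits F] [PreservesFiniteColimits F]
    [G.Additive] [PreservesFiniteLimits G] [PreservesFiniteColimits G] (τ : F ⟶ G) :
    F.mapDerivedCategory ⟶ G.mapDerivedCategory :=
  Localization.liftNatTrans DerivedCategory.Q
    (HomologicalComplex.quasiIso A (ComplexShape.up ℤ))
    (F.mapHomologicalComplex (ComplexShape.up ℤ) ⋙ DerivedCategory.Q)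
    (G.mapHomologicalComplex (ComplexShape.up ℤ) ⋙ DerivedCategory.Q)
    F.mapDerivedCategory G.mapDerivedCategory
    (Functor.whiskerRight (NatTrans.mapHomologicalComplex τ (ComplexShape.up ℤ)) DerivedCategory.Q)

/-- Endomorphisms in the derived category. -/
abbrev DEnd (K : DerivedCategory B) : Type 2 := K ⟶ K

/-- Endomorphisms of a functor. -/
abbrev FEnd {A B : Type 2} [Category.{1} A] [Category.{1} B] (F : A ⥤ B) : Type 2 := F ⟶ F

/-- The `n`-th power of `N` vanishes. -/
def NilAt {K : DerivedCategory B} (N : DEnd K) (n : ℕ) : Prop := (show End K from N) ^ n = 0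

/-- The natural transformation `τ` acts on `K` by the sum of the first `n` terms of the
exponential series of `t N`. -/
def ActsByExp {k : Type} [Field k] [CategoryTheory.Linear k B] {F : A ⥤ B} [F.Additive]
    [PreservesFiniteLimits F] [PreservesFiniteColimits F] (τ : FEnd F) (K : DerivedCategory A)
    (N : DEnd (F.mapDerivedCategory.obj K)) (t : k) (n : ℕ) : Prop :=
  (dNat τ).app K = ∑ j ∈ Finset.range n, (t ^ j * (j.factorial : k)⁻¹) •
    (show F.mapDerivedCategory.obj K ⟶ F.mapDerivedCategory.obj K from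
      (show End (F.mapDerivedCategory.obj K) from N) ^ j)

/-- The monodromy filtration of an object `K` with a nilpotent endomorphism `N` of its image
under `G`, in the category of the objects satisfying `Pv`. -/
structure MonFil (G : DerivedCategory A ⥤ DerivedCategory B) (Pv : DerivedCategory A → Prop)
    (K : DerivedCategory A) (N : DEnd (G.obj K)) : Type 2 where
  /-- the steps of the filtration -/
  M : ℤ → DerivedCategory A
  perv_M : ∀ k, Pv (M k)
  /-- their inclusions in `K` -/
  inc : ∀ k, M k ⟶ K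
  /-- the inclusions between them -/
  s : ∀ k, M k ⟶ M (k + 1)
  s_inc : ∀ k, s k ≫ inc (k + 1) = inc k
  low : ∃ a, ∀ k ≤ a, IsZero (M k)
  high : ∃ b, ∀ k ≥ b, IsIso (inc k)
  /-- the graded pieces -/
  gr : ℤ → DerivedCategory A
  perv_gr : ∀ k, Pv (gr k)
  /-- the projections to the graded pieces -/
  q : ∀ k, M k ⟶ gr k
  /-- the connecting morphisms -/
  δ : ∀ k, gr (k + 1) ⟶ (M k)⟦(1 : ℤ)⟧
  dist : ∀ k, Triangle.mk (s k) (q (k + 1)) (δ k) ∈ distTriang (DerivedCategory A)
  /-- the operator on the filtration -/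
  Nk : ∀ k, G.obj (M (k + 2)) ⟶ G.obj (M k)
  Nk_inc : ∀ k, Nk k ≫ G.map (inc k) = G.map (inc (k + 2)) ≫ N
  /-- the operator on the graded pieces -/
  ν : ∀ k, G.obj (gr (k + 2)) ⟶ G.obj (gr k)
  q_ν : ∀ k, G.map (q (k + 2)) ≫ ν k = Nk k ≫ G.map (q k)
  /-- the iterates of the operator on the graded pieces -/
  it : ∀ a b : ℤ, G.obj (gr a) ⟶ G.obj (gr b)
  it_self : ∀ a, it a a = 𝟙 _
  it_step : ∀ a b, b ≤ a → it (a + 2) b = ν a ≫ it a b
  iso : ∀ j : ℕ, IsIso (it j (-j))

end

end Pool.Agent.H72.MQ
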