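import Pool.Agent.H72.MQ.Pos
import Pool.Agent.H72.MP.Mod.G1
import Pool.Agent.H72.MP.Mod.A4

open CategoryTheory Limits AlgebraicGeometry TopologicalSpace Opposite

attribute [local instance] MvPolynomial.gradedAlgebra

namespace Pool.Agent.H72.MQ

open Tw

section geo

variable (p : ℕ) [Fact p.Prime]

theorem exists_geo : ∃ i : YY p ⟶ PS p 1, i ≫ PS.toSpec p 1 = 𝟙 _ ∧ Geo p i := by
  obtain ⟨i, hi, h⟩ := MP.PS_point p
  have h1 : IsLocallyNoetherian (PS p 1) := by
    have := MP.PS_locallyOfFiniteType p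
    exact LocallyOfFiniteType.isLocallyNoetherian (MP.PS.toSpec p 1)
  refine ⟨i, h, ⟨hi, fun E => (push_preserves_pt (MP.PS.toSpec p 1) i h).2,
    ⟨_, MP.PS_smooth p⟩, ⟨𝟙 _, inferInstance⟩, MP.PS_irreducible p,
    inferInstanceAs (IrreducibleSpace (PrimeSpectrum (ZMod p))), ?_, ?_⟩⟩
  · exact le_antisymm (MP.PS_dim_le p) (MP.PS_le_dim p)
  · exact MP.dim_field (ZMod p)

omit [Fact p.Prime] in
theorem isProj_toSpec (n : ℕ) : IsProj p (𝟙 (YY p)) (PS.toSpec p n) := by
  have h1 : IsIso (pullback.snd (𝟙 (YY p)) (PS.toSpec p n)) := inferInstance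
  refine ⟨n, inv (pullback.snd (𝟙 (YY p)) (PS.toSpec p n)), inferInstance, ?_⟩
  rw [IsIso.inv_comp_eq, ← pullback.condition, Category.comp_id]

end geo

section sec

variable (p ℓ : ℕ) [Fact p.Prime] [Fact ℓ.Prime]

lemma specAut_injective {R : Type} [CommRing R] {g h : RingAut R} (e : specAut g = specAut h) :
    g = h := by
  have h1 : (specAut g).inv = (specAut h).inv := by rw [e]
  have h2 : CommRingCat.ofHom g.toRingHom = CommRingCat.ofHom h.toRingHom :=
    Spec.map_injective h1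
  exact RingEquiv.ext fun x => congrArg (fun f : CommRingCat.of R ⟶ CommRingCat.of R => f.hom x) h2

lemma specAut_surjective {R : Type} [CommRing R] (a : Aut (Spec (.of R))) :
    ∃ g : RingAut R, specAut g = a := by
  obtain ⟨f, hf⟩ := Spec.map_surjective a.inv
  obtain ⟨f', hf'⟩ := Spec.map_surjective a.hom
  have h1 : f ≫ f' = 𝟙 _ := Spec.map_injective (by
    rw [Spec.map_comp, hf, hf', a.hom_inv_id, Spec.map_id])
  have h2 : f' ≫ f = 𝟙 _ := Spec.map_injective (by
    rw [Spec.map_comp, hf, hf', a.inv_hom_id, Spec.map_id])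
  refine ⟨RingEquiv.ofRingHom f.hom f'.hom ?_ ?_, ?_⟩
  · exact congrArg CommRingCat.Hom.hom h2
  · exact congrArg CommRingCat.Hom.hom h1
  · refine Aut.ext ?_
    exact hf'

theorem exists_isSec : ∃ H : Subgroup (Eη p ℓ).G, IsSec (Eη p ℓ) H := by
  obtain ⟨s⟩ := MP.exists_sec p
  have hinj : Function.Injective s.σ := by
    intro a b hab
    refine AlgEquiv.ext fun x => ?_
    have h1 := s.sec a
    have h2 := s.sec b
    rw [hab, h2] at h1
    exact (DFunLike.congr_fun h1 x).symm
  refine ⟨s.σ.range, ?_, ?_, ?_⟩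
  · have : IsCompact (Set.range s.σ) := isCompact_range s.cont
    exact this.isClosed
  · rintro ⟨_, a, rfl⟩ ⟨_, b, rfl⟩ hab
    have h1 : resAct (OO p) (mem_dec p) (s.σ a) = resAct (OO p) (mem_dec p) (s.σ b) :=
      specAut_injective hab
    rw [resAct_eq, resAct_eq, s.sec, s.sec] at h1
    have h2 : a = b := AlgEquiv.ext fun x => DFunLike.congr_fun h1 x
    subst h2
    rfl
  · intro a
    obtain ⟨g, rfl⟩ := specAut_surjective a
    let f : MP.Gs p := AlgEquiv.ofRingEquiv (f := g) (fun r => by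
      obtain ⟨n, rfl⟩ := ZMod.natCast_zmod_surjective r
      rw [map_natCast, map_natCast])
    refine ⟨⟨s.σ f, f, rfl⟩, ?_⟩
    have h1 : resAct (OO p) (mem_dec p) (s.σ f) = g := by
      rw [resAct_eq, s.sec]
      exact RingEquiv.ext fun x => rfl
    change specAut (resAct (OO p) (mem_dec p) (s.σ f)) = specAut g
    rw [h1]

end sec

end Pool.Agent.H72.MQ
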