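import Pool.Agent.H72.MQ.P7

open CategoryTheory Limits AlgebraicGeometry TopologicalSpace Opposite

namespace Pool.Agent.H72.MQ

noncomputable section

open Tw

section res

variable {E : Env} {X Y : Scheme.{0}} (H : Subgroup E.G)

/-- Restriction of the constant sheaf. -/
def resUnit : (res E X H).obj (unitM E X) ≅ unitM (E.sub H) X :=
  mdIso (fun U => AddEquiv.refl (ULift.{1} C(U.T, ℚ_[E.ℓ]))) (fun _ _ _ => rfl) (fun _ _ => rfl)

/-- Restriction of a character. -/
def chS (χ : E.G →* ℚ_[E.ℓ]ˣ) : (E.sub H).G →* ℚ_[(E.sub H).ℓ]ˣ := χ.comp H.subtype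

lemma chS_continuous {χ : E.G →* ℚ_[E.ℓ]ˣ} (hχ : Continuous χ) : Continuous (chS H χ) :=
  hχ.comp continuous_subtype_val

/-- Restriction of a twist. -/
def resTw (χ : E.G →* ℚ_[E.ℓ]ˣ) (hχ : Continuous χ) (M : Sh E X) :
    (res E X H).obj ((twM χ hχ).obj M) ≅
      (twM (chS H χ) (chS_continuous H hχ)).obj ((res E X H).obj M) :=
  mdIso (fun U => AddEquiv.refl (M.val.obj (op ((ex E X H).obj U))))
    (fun _ _ _ => rfl) (fun {U V} u x => by
      change (chiF χ hχ ((ex E X H).map u).c⁻¹ • rst M.val ((ex E X H).map u) x :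
        M.val.obj (op ((ex E X H).obj V))) =
        (show (Rs E X).obj.obj (op ((ex E X H).obj V)) from
          chiF (chS H χ) (chS_continuous H hχ) (u.c)⁻¹) • rst M.val ((ex E X H).map u) x
      congr 1)

/-- Restriction commutes with push-forward. -/
def resPush (i : Y ⟶ X) (M : Sh E Y) :
    (res E X H).obj ((push E i).obj M) ≅ (push (E.sub H) i).obj ((res E Y H).obj M) :=
  mdIso (fun U => AddEquiv.refl (M.val.obj (op ((pull i).obj ((ex E X H).obj U)))))
    (fun _ _ _ => rfl) (fun {U V} u x => rfl)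

end res

section push

variable {E : Env} {X Y : Scheme.{0}}

/-- Twists commute with push-forward. -/
def pushTw (χ : E.G →* ℚ_[E.ℓ]ˣ) (hχ : Continuous χ) (i : Y ⟶ X) (M : Sh E Y) :
    (twM χ hχ).obj ((push E i).obj M) ≅ (push E i).obj ((twM χ hχ).obj M) :=
  mdIso (fun U => AddEquiv.refl (M.val.obj (op ((pull i).obj U))))
    (fun _ _ _ => rfl) (fun {U V} u x => rfl)

/-- The base change by the identity. -/
def pullIdHom (U : Tw E X) : (pull (𝟙 X)).obj U ⟶ U where
  f := pullback.fst U.π (𝟙 X)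
  c := 1
  w := by
    change pullback.fst U.π (𝟙 X) ≫ U.π = pullback.snd U.π (𝟙 X)
    rw [pullback.condition, Category.comp_id]
  h := IsTwF.comap _ _

instance (U : Tw E X) : IsIso (pullIdHom U) := by
  have : IsIso ((forget E X).map (pullIdHom U)) :=
    inferInstanceAs (IsIso (pullback.fst U.π (𝟙 X)))
  exact isIso_of_reflects_iso (pullIdHom U) (forget E X)

lemma pullIdHom_nat {U V : Tw E X} (u : V ⟶ U) :
    (pull (𝟙 X)).map u ≫ pullIdHom U = pullIdHom V ≫ u := by
  refine hom_ext ?_ (fun t => ?_)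
  · exact pullback.lift_fst _ _ _
  · change (1 : E.G) * (u.c (pullback.fst V.π (𝟙 X) t)) = u.c (pullback.fst V.π (𝟙 X) t) * 1
    rw [one_mul, mul_one]

/-- Push-forward along the identity. -/
def pushId (M : Sh E X) : M ≅ (push E (𝟙 X)).obj M :=
  mdIso (N := (push E (𝟙 X)).obj M) (fun U => rstEquiv M.val (pullIdHom U))
    (fun U r x => rst_smul M.val (pullIdHom U) r x) (fun {U V} u x => by
      change rst M.val (pullIdHom V) (rst M.val u x) =
        rst M.val ((pull (𝟙 X)).map u) (rst M.val (pullIdHom U) x)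
      rw [← rst_comp, ← rst_comp, pullIdHom_nat])

end push

end

end Pool.Agent.H72.MQ
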