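import Pool.Agent.H72.MQ.P7

open CategoryTheory Limits AlgebraicGeometry TopologicalSpace Opposite

namespace Pool.Agent.H72.MQ

noncomputable section

open Tw

section pt

variable {E : Env} {X : Scheme.{0}}

/-- If all coverings of `U` are trivial then all open coverings of the underlying space are
trivial. -/
lemma exists_opens_top {U : Tw E X} (hU : ∀ R ∈ Tw.topo E X U, R = ⊤) {ι : Type}
    (V : ι → U.T.Opens) (hV : ∀ t : U.T, ∃ i, t ∈ V i) : ∃ i, ∀ t : U.T, t ∈ V i := by
  have hwe : ∀ i, WeaklyEtale ((V i).ι ≫ U.π) := fun i => by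
    have := U.we
    infer_instance
  have h1 : Sieve.generate (Presieve.ofArrows
      (fun i => untw (U := U) (V i).ι ((V i).ι ≫ U.π) (hwe i))
      (fun i => untwHom (U := U) (V i).ι ((V i).ι ≫ U.π) (hwe i) rfl)) ∈ Tw.topo E X U := by
    refine mem_topo_iff.2 ⟨_, ?_, Sieve.le_generate _⟩
    change (Presieve.ofArrows _ _).map _ ∈ Scheme.proetalePrecoverage _
    rw [Presieve.map_ofArrows]
    refine Scheme.zariskiPrecoverage_le_propQCPrecoverage _ ?_
    rw [Scheme.ofArrows_mem_precoverage_iff]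
    refine ⟨fun t => ?_, fun i => ?_⟩
    · obtain ⟨i, hi⟩ := hV t
      exact ⟨i, ⟨t, hi⟩, rfl⟩
    · exact inferInstanceAs (IsOpenImmersion (V i).ι)
  have h2 := hU _ h1
  have h3 : (Sieve.generate (Presieve.ofArrows
      (fun i => untw (U := U) (V i).ι ((V i).ι ≫ U.π) (hwe i))
      (fun i => untwHom (U := U) (V i).ι ((V i).ι ≫ U.π) (hwe i) rfl))).arrows (𝟙 U) := by
    rw [h2]
    trivial
  obtain ⟨W, a, _, ⟨i⟩, h⟩ := h3
  refine ⟨i, fun t => ?_⟩
  have h4 : (a ≫ untwHom (U := U) (V i).ι ((V i).ι ≫ U.π) (hwe i) rfl).f = (𝟙 U : U ⟶ U).f := by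
    rw [h]
  let a' : U.T ⟶ (V i).toScheme := a.f
  have h5 : a' ≫ (V i).ι = 𝟙 U.T := h4
  have h6 : (V i).ι (a' t) = t := by
    rw [← Scheme.Hom.comp_apply, h5]
    rfl
  rw [← h6]
  exact (a' t).2

/-- Continuous functions are constant on a point. -/
lemma const_of_pt {U : Tw E X} (hU : ∀ R ∈ Tw.topo E X U, R = ⊤) {q : Type} [MetricSpace q]
    [IsUltrametricDist q] (φ : C(U.T, q)) (t t' : U.T) : φ t = φ t' := by
  refine eq_of_forall_dist_le fun ε hε => ?_
  let B : Set q := Metric.ball (φ t') ε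
  have hB : IsClopen B := IsUltrametricDist.isClopen_ball _ _
  let V : Bool → U.T.Opens := fun b => if b then ⟨φ ⁻¹' B, hB.isOpen.preimage φ.continuous⟩ else
    ⟨φ ⁻¹' Bᶜ, hB.compl.isOpen.preimage φ.continuous⟩
  obtain ⟨b, hb⟩ := exists_opens_top hU V (fun s => by
    by_cases h : φ s ∈ B
    · exact ⟨true, h⟩
    · exact ⟨false, h⟩)
  cases b with
  | true => exact le_of_lt (hb t)
  | false => exact absurd (Metric.mem_ball_self hε) (hb t')

end pt

end

end Pool.Agent.H72.MQ
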