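import Pool.Agent.H72.MQ.Isos
import Pool.Agent.H72.MQ.Pt
import Pool.Agent.H72.MQ.Cex
import Pool.Agent.H72.MP.Mod.A2

open CategoryTheory Limits AlgebraicGeometry TopologicalSpace Opposite

namespace Pool.Agent.H72.MQ

noncomputable section

open Tw

section lisse

variable {E : Env} {X Y : Scheme.{0}}

lemma rankOne {R : Type*} [Ring R] (hR : ∀ a b : R, a * b = b * a) (a b : R) (h : a * b = 1)
    (x : R) : ∃! r : Fin 1 → R, ∑ i, r i • a = x := by
  refine ⟨fun _ => x * b, ?_, fun r hr => ?_⟩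
  · change ∑ i : Fin 1, (x * b) * a = x
    rw [Fin.sum_univ_one, mul_assoc, hR b a, h, mul_one]
  · change ∑ i, r i * a = x at hr
    rw [Fin.sum_univ_one] at hr
    funext i
    rw [Subsingleton.elim i 0, ← hr, mul_assoc, h, mul_one]

lemma locFree_twUnit (χ : E.G →* ℚ_[E.ℓ]ˣ) (hχ : Continuous χ) :
    LocFree ((twM χ hχ).obj (unitM E X)) := fun U =>
  Loc.of_forall fun V _ => ⟨1, fun _ => (1 : (Rs E X).obj.obj (op V)), fun W h x => by
    refine rankOne (R := (Rs E X).obj.obj (op W)) (fun a b => ringS_mul_comm a b)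
      (chiF χ hχ (h.c)⁻¹ * (Rs E X).obj.map h.op 1) (chiF χ hχ h.c) ?_ x
    rw [map_one, mul_one]
    exact chiF_inv_mul χ hχ h.c⟩

lemma locFree_unit : LocFree (unitM E X) := fun U =>
  Loc.of_forall fun V _ => ⟨1, fun _ => (1 : (Rs E X).obj.obj (op V)), fun W h x => by
    refine rankOne (R := (Rs E X).obj.obj (op W)) (fun a b => ringS_mul_comm a b)
      ((Rs E X).obj.map h.op 1) 1 ?_ x
    rw [map_one, mul_one]⟩

lemma isExt_closed (i : Y ⟶ X) [IsClosedImmersion i] (L : Sh E Y) {M : Sh E X}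
    (e : M ≅ (push E i).obj L) : IsExt E i L M := by
  refine ⟨e.hom, inferInstance, fun U s => ⟨fun _ => Loc.of_forall fun V g =>
    Or.inr (fun t ht => ?_), fun _ => ⟨e.inv.val.app (op U) s, ?_⟩⟩⟩
  · have h1 : IsClosed (Set.range i) := (IsClosedImmersion.isClosedEmbedding i).isClosed_range
    change (V.π t) ∈ closure (Set.range i) \ Set.range i at ht
    rw [h1.closure_eq, Set.sdiff_self] at ht
    exact ht
  · have := md_comp_apply e.inv e.hom U s
    rw [e.inv_hom_id] at this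
    exact this.symm

end lisse

section weights

variable {E : Env} {X Y : Scheme.{0}}

lemma isWeil_natCast (ℓ : ℕ) [Fact ℓ.Prime] (q : ℕ) (v : ℤ) (n : ℕ)
    (h : (n : ℝ) ^ 2 = (q : ℝ) ^ v) : IsWeil ℓ q v (n : AlgebraicClosure ℚ_[ℓ]) := by
  refine ⟨isAlgebraic_natCast n, fun z hz => ?_⟩
  have h1 : minpoly ℚ (n : AlgebraicClosure ℚ_[ℓ]) = Polynomial.X - Polynomial.C (n : ℚ) := by
    have := minpoly.eq_X_sub_C (AlgebraicClosure ℚ_[ℓ]) (n : ℚ)
    rwa [map_natCast] at this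
  rw [h1] at hz
  have h2 : z = n := by
    simpa [sub_eq_zero] using hz
  rw [h2, ← h]
  simp

lemma weilPoly_natCast (ℓ : ℕ) [Fact ℓ.Prime] (q : ℕ) (v : ℤ) (n : ℕ)
    (h : (n : ℝ) ^ 2 = (q : ℝ) ^ v) :
    WeilPoly ℓ q v (Polynomial.X - Polynomial.C (n : ℚ_[ℓ])) := by
  refine ⟨Polynomial.X_sub_C_ne_zero _, fun x hx => ?_⟩
  have h1 : x = n := by simpa [sub_eq_zero] using hx
  rw [h1]
  exact isWeil_natCast ℓ q v n h

lemma iter_nat {C : Type 1} [SmallCategory C] {J : GrothendieckTopology C}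
    {R : Sheaf J RingCat.{1}} {M N : SheafOfModules.{1} R} (f : M ⟶ N) {U : C} (u : U ⟶ U) (n : ℕ)
    (x : M.val.obj (op U)) :
    f.val.app (op U) ((rst M.val u)^[n] x) = (rst N.val u)^[n] (f.val.app (op U) x) := by
  induction n generalizing x with
  | zero => rfl
  | succ n ih => rw [Function.iterate_succ_apply, Function.iterate_succ_apply, ih, md_nat]

lemma ann_of_iso {C : Type 1} [SmallCategory C] {J : GrothendieckTopology C}
    {R : Sheaf J RingCat.{1}} {k : Type} [CommRing k] (κ : Cst k R.obj)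
    {M N : SheafOfModules.{1} R} (e : M ≅ N) {U : C} (u : U ⟶ U) (P : Polynomial k)
    (h : κ.Ann N u P) : κ.Ann M u P := by
  intro x
  have hinj : Function.Injective (e.hom.val.app (op U)) := by
    intro a b hab
    have h1 := md_comp_apply e.hom e.inv U a
    have h2 := md_comp_apply e.hom e.inv U b
    rw [e.hom_inv_id] at h1 h2
    have h3 : a = e.inv.val.app (op U) (e.hom.val.app (op U) a) := h1
    have h4 : b = e.inv.val.app (op U) (e.hom.val.app (op U) b) := h2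
    rw [h3, h4, hab]
  refine hinj ?_
  refine Eq.trans ?_ (map_zero (e.hom.val.app (op U)).hom).symm
  refine Eq.trans ?_ (h (e.hom.val.app (op U) x))
  rw [Polynomial.sum_def, Polynomial.sum_def]
  refine (map_sum (e.hom.val.app (op U)).hom _ _).trans ?_
  refine Finset.sum_congr rfl fun i _ => ?_
  refine ((e.hom.val.app (op U)).hom.map_smul _ _).trans ?_
  exact congrArg (fun y : N.val.obj (op U) => κ.c U (P.coeff i) • y) (iter_nat e.hom u i x)

lemma ann_linear {C : Type 1} [SmallCategory C] {J : GrothendieckTopology C}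
    {R : Sheaf J RingCat.{1}} {k : Type} [CommRing k] (κ : Cst k R.obj)
    {M : SheafOfModules.{1} R} {U : C} (u : U ⟶ U) (a : k)
    (h : ∀ x : M.val.obj (op U), rst M.val u x = κ.c U a • x) :
    κ.Ann M u (Polynomial.X - Polynomial.C a) := by
  intro x
  rw [sub_eq_add_neg, ← Polynomial.C_neg, Polynomial.sum_add_index, Polynomial.sum_X_index,
    Polynomial.sum_C_index]
  · change κ.c U 1 • rst M.val u x + κ.c U (-a) • x = 0
    rw [map_one, one_smul, map_neg, neg_smul, h, add_neg_cancel]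
  · change κ.c U 0 • x = 0
    rw [map_zero, zero_smul]
  · change κ.c U 0 • _ = _
    rw [map_zero, zero_smul]
  · intro i
    change κ.c U 0 • _ = _
    rw [map_zero, zero_smul]
  · intro i b c
    change κ.c U (b + c) • _ = κ.c U b • _ + κ.c U c • _
    rw [map_add, add_smul]

lemma pp_of_twUnit (χ : E.G →* ℚ_[E.ℓ]ˣ) (hχ : Continuous χ) (v : ℤ) (m : ℕ)
    (h1 : ∀ φ : E.G, IsFrob E.p (E.ρ φ).inv → ((χ φ)⁻¹ : ℚ_[E.ℓ]ˣ) = ((m : ℕ) : ℚ_[E.ℓ]))
    (h2 : (m : ℝ) ^ 2 = (E.p : ℝ) ^ v) {L : Sh E X}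
    (e : L ≅ (twM χ hχ).obj (unitM E X)) : PP E v L := by
  intro U hU φ hφ n hn u hu
  refine ⟨Polynomial.X - Polynomial.C (((m ^ n : ℕ)) : ℚ_[E.ℓ]),
    weilPoly_natCast _ _ _ _ ?_, ann_of_iso _ e _ _ (ann_linear _ _ _ fun x => ?_)⟩
  · push_cast
    rw [← pow_mul, mul_comm n 2, pow_mul, h2, ← zpow_natCast, ← zpow_natCast, ← zpow_mul,
      ← zpow_mul, mul_comm]
  · refine ULift.down_injective (ContinuousMap.ext fun t => ?_)
    let y : C(U.T, ℚ_[E.ℓ]) := x.down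
    change ((χ (u.c t)⁻¹ : ℚ_[E.ℓ]ˣ) : ℚ_[E.ℓ]) * y (u.f t) = ((m ^ n : ℕ) : ℚ_[E.ℓ]) * y t
    rw [const_of_pt hU.1 y (u.f t) t, hu t]
    congr 1
    rw [map_inv, map_pow, ← inv_pow, Units.val_pow_eq_pow_val, h1 φ hφ]
    push_cast
    rfl

/-- The trivial twist. -/
def twOne (M : Sh E X) : (twM (1 : E.G →* ℚ_[E.ℓ]ˣ) continuous_const).obj M ≅ M :=
  mdIso (fun U => AddEquiv.refl (M.val.obj (op U))) (fun _ _ _ => rfl) (fun {U V} u x => by
    change chiF (1 : E.G →* ℚ_[E.ℓ]ˣ) continuous_const (u.c)⁻¹ • rst M.val u x = rst M.val u x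
    have h : chiF (E := E) (X := X) (1 : E.G →* ℚ_[E.ℓ]ˣ) continuous_const (u.c)⁻¹ = 1 :=
      ULift.down_injective (ContinuousMap.ext fun t => rfl)
    rw [h, one_smul])

lemma pp_unit {L : Sh E X} (e : L ≅ unitM E X) : PP E 0 L :=
  pp_of_twUnit (1 : E.G →* ℚ_[E.ℓ]ˣ) continuous_const 0 1
    (fun φ _ => by simp) (by simp) (e ≪≫ (twOne _).symm)

end weights

section tate

variable {p ℓ : ℕ} [Fact p.Prime] [Fact ℓ.Prime] {X : Scheme.{0}}

omit [Fact p.Prime] in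
lemma isFrob_spec {R : Type} [CommRing R] (g : RingAut R)
    (h : IsFrob p (specAut g).inv) (x : R) : g x = x ^ p := by
  have h1 := h ((Scheme.ΓSpecIso (.of R)).inv x)
  have h2 := congrArg (fun f : CommRingCat.of R ⟶ Γ(Spec (.of R), ⊤) => f x)
    (Scheme.ΓSpecIso_inv_naturality (CommRingCat.ofHom g.toRingHom))
  have h3 : (Scheme.ΓSpecIso (.of R)).inv (g x) =
      (Spec.map (CommRingCat.ofHom g.toRingHom)).appTop.hom
        ((Scheme.ΓSpecIso (.of R)).inv x) := h2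
  have h4 : (Scheme.ΓSpecIso (.of R)).inv (g x) = (Scheme.ΓSpecIso (.of R)).inv (x ^ p) := by
    rw [h3, map_pow]
    exact h1
  have h5 := congrArg (fun y => (Scheme.ΓSpecIso (.of R)).hom y) h4
  simpa using h5

lemma isFrob_Eη (g : Gη p) (h : IsFrob p ((Eη p ℓ).ρ g).inv) (x : kb p) :
    MP.ρη p g x = x ^ p := by
  rw [← resAct_eq]
  exact isFrob_spec (resAct (OO p) (mem_dec p) g) h x

lemma cycInv_inv (g : Gη p) : (((MP.cycInv p ℓ g)⁻¹ : ℚ_[ℓ]ˣ) : ℚ_[ℓ]) =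
    (((MP.cyc p ℓ g : ℤ_[ℓ]ˣ) : ℤ_[ℓ]) : ℚ_[ℓ]) := by
  have h2 : (MP.cycInv p ℓ g)⁻¹ =
      Units.map (algebraMap ℤ_[ℓ] ℚ_[ℓ]).toMonoidHom (MP.cyc p ℓ g) := by
    change (Units.map (algebraMap ℤ_[ℓ] ℚ_[ℓ]).toMonoidHom ((MP.cyc p ℓ g)⁻¹))⁻¹ = _
    rw [map_inv, inv_inv]
  rw [h2]
  rfl

lemma pp_tate (hℓ : ℓ ≠ p) (H : Subgroup (Eη p ℓ).G) {L : Sh ((Eη p ℓ).sub H) X}
    (e : L ≅ (twM (chS H (cInv p ℓ)) (chS_continuous H (cInv_continuous p ℓ))).obj
      (unitM ((Eη p ℓ).sub H) X)) : PP ((Eη p ℓ).sub H) 2 L :=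
  pp_of_twUnit _ _ 2 p
    (fun φ hφ => by
      refine (cycInv_inv (p := p) (ℓ := ℓ) φ.1).trans ?_
      rw [MP.A2_main p ℓ hℓ φ.1 p (isFrob_Eη (ℓ := ℓ) φ.1 hφ)]
      exact PadicInt.coe_natCast p) (by
      change (p : ℝ) ^ 2 = (p : ℝ) ^ (2 : ℤ)
      norm_cast) e

end tate

end

end Pool.Agent.H72.MQ
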