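import Pool.Agent.H72.MQ.S0

open CategoryTheory Limits AlgebraicGeometry TopologicalSpace Opposite

namespace Pool.Agent.H72.MQ

noncomputable section

/-- Compatibility up to a twist, for arbitrary functions. -/
def IsTwF {G : Type} [Group G] {S : Scheme.{0}} (ρ : G →* Aut S)
    {U V : Scheme.{0}} (a : U ⟶ S) (b : V ⟶ S) (f : U ⟶ V) (c : U → G) : Prop :=
  ∀ t : U, U.fromSpecStalk t ≫ f ≫ b = U.fromSpecStalk t ≫ a ≫ (ρ (c t)).hom

variable {G : Type} [Group G] {S : Scheme.{0}} {ρ : G →* Aut S}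

lemma rho_one : (ρ 1).hom = 𝟙 _ := by
  rw [map_one]; rfl

lemma rho_mul (g h : G) : (ρ (g * h)).hom = (ρ h).hom ≫ (ρ g).hom := by
  rw [map_mul]; rfl

lemma IsTwF.id {U : Scheme.{0}} (a : U ⟶ S) : IsTwF ρ a a (𝟙 U) (fun _ => 1) := by
  intro t
  rw [rho_one, Category.id_comp, Category.comp_id]

lemma fss_comp {U V : Scheme.{0}} (f : U ⟶ V) (t : U) :
    U.fromSpecStalk t ≫ f = Spec.map (f.stalkMap t) ≫ V.fromSpecStalk (f t) :=
  (Scheme.SpecMap_stalkMap_fromSpecStalk f).symm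

lemma IsTwF.at {U V W : Scheme.{0}} {aV : V ⟶ S} {aW : W ⟶ S} (f : U ⟶ V) {g : V ⟶ W} {d : V → G}
    (h2 : IsTwF ρ aV aW g d) (t : U) :
    U.fromSpecStalk t ≫ f ≫ g ≫ aW = U.fromSpecStalk t ≫ f ≫ aV ≫ (ρ (d (f t))).hom := by
  have e2 := h2 (f t)
  have e4 := fss_comp f t
  rw [reassoc_of% e4, e2, ← reassoc_of% e4]

lemma IsTwF.comp {U V W : Scheme.{0}} {aU : U ⟶ S} {aV : V ⟶ S} {aW : W ⟶ S} {f : U ⟶ V}
    {g : V ⟶ W} {c : U → G} {d : V → G} (h1 : IsTwF ρ aU aV f c) (h2 : IsTwF ρ aV aW g d) :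
    IsTwF ρ aU aW (f ≫ g) (fun t => d (f t) * c t) := by
  intro t
  have e1 := h1 t
  rw [rho_mul, Category.assoc, h2.at f t, reassoc_of% e1]

lemma IsTwF.comap {U V : Scheme.{0}} (b : V ⟶ S) (f : U ⟶ V) :
    IsTwF ρ (f ≫ b) b f (fun _ => 1) := by
  intro t
  rw [rho_one, Category.comp_id]

lemma IsTwF.comap_iff {U V W : Scheme.{0}} {aU : U ⟶ S} {aW : W ⟶ S} {f : U ⟶ V} {g : V ⟶ W}
    {c : U → G} : IsTwF ρ aU (g ≫ aW) f c ↔ IsTwF ρ aU aW (f ≫ g) c := by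
  simp only [IsTwF, Category.assoc]

lemma IsTwF.cancel {U V W : Scheme.{0}} {aU : U ⟶ S} {aV : V ⟶ S} {aW : W ⟶ S} {g : U ⟶ V}
    {f : V ⟶ W} {d : U → G} {c : V → G} (h1 : IsTwF ρ aV aW f c)
    (h2 : IsTwF ρ aU aW (g ≫ f) d) : IsTwF ρ aU aV g (fun t => (c (g t))⁻¹ * d t) := by
  intro t
  have e1 := h1.at g t
  have e2 := h2 t
  rw [Category.assoc, e1] at e2
  have e3 := congrArg (fun z => z ≫ (ρ (c (g t))⁻¹).hom) e2
  simp only [Category.assoc] at e3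
  rw [← rho_mul, ← rho_mul, inv_mul_cancel, rho_one, Category.comp_id] at e3
  exact e3

/-- Change of group. -/
lemma IsTwF.res {H : Type} [Group H] {ρH : H →* Aut S} (σ : H →* G) (hσ : ∀ h, ρ (σ h) = ρH h)
    {U V : Scheme.{0}} {a : U ⟶ S} {b : V ⟶ S} {f : U ⟶ V} {c : U → H}
    (h : IsTwF ρH a b f c) : IsTwF ρ a b f (fun t => σ (c t)) := by
  intro t
  rw [h t, hσ]

/-! ### Base change -/

lemma twf_snd {U V W : Scheme.{0}} {aU : U ⟶ S} {aV : V ⟶ S} {aW : W ⟶ S} {u : U ⟶ W} {v : V ⟶ W}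
    {c : U → G} {d : V → G} (hu : IsTwF ρ aU aW u c) (hv : IsTwF ρ aV aW v d) :
    IsTwF ρ (pullback.fst u v ≫ aU) aV (pullback.snd u v)
      (fun t => (d (pullback.snd u v t))⁻¹ * (c (pullback.fst u v t) * 1)) := by
  refine IsTwF.cancel hv ?_
  rw [← pullback.condition]
  exact (IsTwF.comap _ _).comp hu

lemma twf_lift {U V W Z : Scheme.{0}} {aU : U ⟶ S} {aZ : Z ⟶ S}
    {u : U ⟶ W} {v : V ⟶ W} {a : Z ⟶ U} {b : Z ⟶ V} {c : Z → G} (h : a ≫ u = b ≫ v)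
    (ha : IsTwF ρ aZ aU a c) :
    IsTwF ρ aZ (pullback.fst u v ≫ aU) (pullback.lift a b h) c := by
  refine IsTwF.comap_iff.2 ?_
  rw [pullback.lift_fst]
  exact ha

lemma snd_w {U V W X : Scheme.{0}} {u : U ⟶ W} {v : V ⟶ W} {πU : U ⟶ X} {πV : V ⟶ X}
    {πW : W ⟶ X} (hu : u ≫ πW = πU) (hv : v ≫ πW = πV) :
    pullback.snd u v ≫ πV = pullback.fst u v ≫ πU := by
  rw [← hu, ← hv, ← Category.assoc, ← Category.assoc, pullback.condition]

lemma lift_w {U V W Z X : Scheme.{0}} {u : U ⟶ W} {v : V ⟶ W} {πU : U ⟶ X} {πZ : Z ⟶ X}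
    {a : Z ⟶ U} {b : Z ⟶ V} (h : a ≫ u = b ≫ v) (ha : a ≫ πU = πZ) :
    pullback.lift a b h ≫ pullback.fst u v ≫ πU = πZ := by
  rw [← Category.assoc, pullback.lift_fst, ha]

lemma lift_snd_pt {U V W Z : Scheme.{0}} {u : U ⟶ W} {v : V ⟶ W} {a : Z ⟶ U} {b : Z ⟶ V}
    (h : a ≫ u = b ≫ v) (t : Z) : pullback.snd u v (pullback.lift a b h t) = b t := by
  rw [← Scheme.Hom.comp_apply, pullback.lift_snd]

lemma lift_fst_pt {U V W Z : Scheme.{0}} {u : U ⟶ W} {v : V ⟶ W} {a : Z ⟶ U} {b : Z ⟶ V}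
    (h : a ≫ u = b ≫ v) (t : Z) : pullback.fst u v (pullback.lift a b h t) = a t := by
  rw [← Scheme.Hom.comp_apply, pullback.lift_fst]

lemma pull_w {U V Y X : Scheme.{0}} {f : X ⟶ Y} {πU : U ⟶ Y} {πV : V ⟶ Y} {u : U ⟶ V}
    (h : u ≫ πV = πU) : (pullback.fst πU f ≫ u) ≫ πV = pullback.snd πU f ≫ f := by
  rw [Category.assoc, h, pullback.condition]

lemma twf_pull {U V Y X : Scheme.{0}} {f : X ⟶ Y} {πU : U ⟶ Y} {πV : V ⟶ Y} {u : U ⟶ V}
    {aU : U ⟶ S} {aV : V ⟶ S} {c : U → G}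
    (h : u ≫ πV = πU) (hu : IsTwF ρ aU aV u c) :
    IsTwF ρ (pullback.fst πU f ≫ aU) (pullback.fst πV f ≫ aV)
      (pullback.lift (pullback.fst πU f ≫ u) (pullback.snd πU f) (pull_w h))
      (fun t => c (pullback.fst πU f t)) := by
  refine IsTwF.comap_iff.2 ?_
  rw [pullback.lift_fst]
  intro t
  have e := hu.at (pullback.fst πU f) t
  rw [Category.assoc, Category.assoc, e]

lemma pm_isPullback {U V Y X : Scheme.{0}} {f : X ⟶ Y} {πU : U ⟶ Y} {πV : V ⟶ Y} {u : U ⟶ V}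
    (h : u ≫ πV = πU) :
    IsPullback (pullback.lift (pullback.fst πU f ≫ u) (pullback.snd πU f) (pull_w h))
      (pullback.fst πU f) (pullback.fst πV f) u := by
  refine IsPullback.of_right (h₁₂ := pullback.snd πV f) (h₂₂ := πV) (v₁₃ := f) ?_ ?_ ?_
  · rw [pullback.lift_snd, h]
    exact (IsPullback.of_hasPullback _ _).flip
  · rw [pullback.lift_fst]
  · exact (IsPullback.of_hasPullback _ _).flip

lemma pull_isPullback_aux {W U V T Y X : Scheme.{0}} {f : X ⟶ Y} {πU : U ⟶ Y} {πV : V ⟶ Y}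
    {πT : T ⟶ Y} {πW : W ⟶ Y} {a : W ⟶ U} {b : W ⟶ V} {u : U ⟶ T} {v : V ⟶ T}
    (hu : u ≫ πT = πU) (hv : v ≫ πT = πV) (ha : a ≫ πU = πW) (hb : b ≫ πV = πW)
    (h : IsPullback a b u v) :
    IsPullback (pullback.lift (pullback.fst πW f ≫ a) (pullback.snd πW f) (pull_w ha))
      (pullback.lift (pullback.fst πW f ≫ b) (pullback.snd πW f) (pull_w hb))
      (pullback.lift (pullback.fst πU f ≫ u) (pullback.snd πU f) (pull_w hu))
      (pullback.lift (pullback.fst πV f ≫ v) (pullback.snd πV f) (pull_w hv)) := by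
  have h1 := (pm_isPullback (f := f) hb).flip.paste_horiz h
  refine IsPullback.of_right (h₁₂ := pullback.fst πU f) (h₂₂ := pullback.fst πT f) (v₁₃ := u)
    ?_ ?_ (pm_isPullback hu).flip
  · rw [pullback.lift_fst, pullback.lift_fst]
    exact h1
  · refine pullback.hom_ext ?_ ?_
    · rw [Category.assoc, Category.assoc, pullback.lift_fst, pullback.lift_fst,
        ← Category.assoc, ← Category.assoc, pullback.lift_fst, pullback.lift_fst,
        Category.assoc, Category.assoc, h.w]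
    · rw [Category.assoc, Category.assoc, pullback.lift_snd, pullback.lift_snd,
        pullback.lift_snd, pullback.lift_snd]

end

end Pool.Agent.H72.MQ
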