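import Pool.Agent.H72.MQ.S2

open CategoryTheory Limits AlgebraicGeometry TopologicalSpace Opposite

namespace Pool.Agent.H72.MQ

noncomputable section

namespace Tw

variable {E : Env} {X Y : Scheme.{0}}

@[ext]
lemma hom_ext {U V : Tw E X} {u v : U ⟶ V} (h1 : u.f = v.f) (h2 : ∀ t, u.c t = v.c t) :
    u = v := Hom.ext' h1 h2

@[simp] lemma id_f (U : Tw E X) : Hom.f (𝟙 U) = 𝟙 U.T := rfl
@[simp] lemma id_c (U : Tw E X) : Hom.c (𝟙 U) = 1 := rfl
@[simp, reassoc] lemma comp_f {U V W : Tw E X} (u : U ⟶ V) (v : V ⟶ W) :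
    (u ≫ v).f = u.f ≫ v.f := rfl
lemma comp_c {U V W : Tw E X} (u : U ⟶ V) (v : V ⟶ W) :
    (u ≫ v).c = v.c.comp ⟨u.f, u.f.continuous⟩ * u.c := rfl
@[simp] lemma comp_c_apply {U V W : Tw E X} (u : U ⟶ V) (v : V ⟶ W) (t : U.T) :
    (u ≫ v).c t = v.c (u.f t) * u.c t := rfl

section pullback

lemma we_hom {U V : Tw E X} (u : U ⟶ V) : WeaklyEtale u.f := by
  have h := V.we
  have h2 : WeaklyEtale (u.f ≫ V.π) := by rw [u.w]; exact U.we
  exact MorphismProperty.of_postcomp (W := @WeaklyEtale) (W' := @WeaklyEtale) u.f V.π h h2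

/-- The fibre product in the twisted site. -/
def pb {U V W : Tw E X} (u : U ⟶ W) (v : V ⟶ W) : Tw E X where
  T := pullback u.f v.f
  π := pullback.fst u.f v.f ≫ U.π
  we := by
    have := we_hom v
    have := U.we
    infer_instance
  a := pullback.fst u.f v.f ≫ U.a

/-- First projection. -/
def pbFst {U V W : Tw E X} (u : U ⟶ W) (v : V ⟶ W) : pb u v ⟶ U where
  f := pullback.fst u.f v.f
  c := 1
  w := rfl
  h := IsTwF.comap _ _

/-- Second projection. -/
def pbSnd {U V W : Tw E X} (u : U ⟶ W) (v : V ⟶ W) : pb u v ⟶ V where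
  f := pullback.snd u.f v.f
  c := ⟨fun t => (v.c (pullback.snd u.f v.f t))⁻¹ * (u.c (pullback.fst u.f v.f t) * 1),
    by fun_prop⟩
  w := snd_w u.w v.w
  h := twf_snd u.h v.h

lemma pb_condition {U V W : Tw E X} (u : U ⟶ W) (v : V ⟶ W) :
    pbFst u v ≫ u = pbSnd u v ≫ v := by
  refine hom_ext pullback.condition (fun t => ?_)
  change u.c (pullback.fst u.f v.f t) * 1 = v.c (pullback.snd u.f v.f t) *
    ((v.c (pullback.snd u.f v.f t))⁻¹ * (u.c (pullback.fst u.f v.f t) * 1))
  rw [mul_inv_cancel_left]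

/-- The universal morphism to the fibre product. -/
def pbLift {U V W Z : Tw E X} (u : U ⟶ W) (v : V ⟶ W) (a : Z ⟶ U) (b : Z ⟶ V)
    (h : a ≫ u = b ≫ v) : Z ⟶ pb u v where
  f := pullback.lift a.f b.f (congrArg Hom.f h)
  c := a.c
  w := lift_w (congrArg Hom.f h) a.w
  h := twf_lift (congrArg Hom.f h) a.h

lemma pbLift_fst {U V W Z : Tw E X} (u : U ⟶ W) (v : V ⟶ W) (a : Z ⟶ U) (b : Z ⟶ V)
    (h : a ≫ u = b ≫ v) : pbLift u v a b h ≫ pbFst u v = a := by
  refine hom_ext (pullback.lift_fst _ _ _) (fun t => ?_)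
  change 1 * a.c t = a.c t
  rw [one_mul]

lemma pbLift_snd {U V W Z : Tw E X} (u : U ⟶ W) (v : V ⟶ W) (a : Z ⟶ U) (b : Z ⟶ V)
    (h : a ≫ u = b ≫ v) : pbLift u v a b h ≫ pbSnd u v = b := by
  refine hom_ext (pullback.lift_snd _ _ _) (fun t => ?_)
  have h0 : u.c (a.f t) * a.c t = v.c (b.f t) * b.c t :=
    DFunLike.congr_fun (congrArg Hom.c h) t
  change (v.c (pullback.snd u.f v.f (pullback.lift a.f b.f _ t)))⁻¹ *
    (u.c (pullback.fst u.f v.f (pullback.lift a.f b.f _ t)) * 1) * a.c t = b.c t
  rw [lift_snd_pt, lift_fst_pt, mul_one, mul_assoc, h0, inv_mul_cancel_left]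

lemma pb_hom_ext {U V W Z : Tw E X} (u : U ⟶ W) (v : V ⟶ W) {a b : Z ⟶ pb u v}
    (h1 : a ≫ pbFst u v = b ≫ pbFst u v) (h2 : a ≫ pbSnd u v = b ≫ pbSnd u v) : a = b := by
  refine hom_ext ?_ (fun t => ?_)
  · exact pullback.hom_ext (congrArg Hom.f h1) (congrArg Hom.f h2)
  · have := DFunLike.congr_fun (congrArg Hom.c h1) t
    change 1 * a.c t = 1 * b.c t at this
    rwa [one_mul, one_mul] at this

lemma isPullback_pb {U V W : Tw E X} (u : U ⟶ W) (v : V ⟶ W) :
    IsPullback (pbFst u v) (pbSnd u v) u v :=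
  ⟨⟨pb_condition u v⟩, ⟨PullbackCone.IsLimit.mk _ (fun s => pbLift u v s.fst s.snd s.condition)
    (fun s => pbLift_fst _ _ _ _ _) (fun s => pbLift_snd _ _ _ _ _)
    (fun s m h1 h2 => pb_hom_ext u v (by rw [h1, pbLift_fst]) (by rw [h2, pbLift_snd]))⟩⟩

instance : HasPullbacks (Tw E X) := by
  have : ∀ {U V W : Tw E X} {u : U ⟶ W} {v : V ⟶ W}, HasLimit (cospan u v) :=
    fun {U V W} {u} {v} => (isPullback_pb u v).hasPullback
  exact hasPullbacks_of_hasLimit_cospan _

lemma forget_isPullback {U V W : Tw E X} (u : U ⟶ W) (v : V ⟶ W) :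
    IsPullback ((forget E X).map (pbFst u v)) ((forget E X).map (pbSnd u v))
      ((forget E X).map u) ((forget E X).map v) :=
  IsPullback.of_hasPullback u.f v.f

instance : PreservesLimitsOfShape WalkingCospan (forget E X) where
  preservesLimit {K} := by
    have : PreservesLimit (cospan (K.map WalkingCospan.Hom.inl) (K.map WalkingCospan.Hom.inr))
        (forget E X) :=
      preservesLimit_of_preserves_limit_cone (isPullback_pb _ _).isLimit
        ((isLimitMapConePullbackConeEquiv (forget E X) (pb_condition _ _)).symm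
          (forget_isPullback _ _).isLimit)
    exact preservesLimit_of_iso_diagram _ (diagramIsoCospan K).symm

/-- The pro-etale precoverage of the twisted site: a family is covering if the underlying
family of schemes is. -/
def precov (E : Env) (X : Scheme.{0}) : Precoverage (Tw E X) :=
  Scheme.proetalePrecoverage.comap (forget E X)

instance : (precov E X).HasIsos := by unfold precov; infer_instance
instance : (precov E X).IsStableUnderComposition := by unfold precov; infer_instance
instance : (precov E X).IsStableUnderBaseChange := by unfold precov; infer_instance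

lemma topo_eq : topo E X = (precov E X).toGrothendieck := rfl

lemma mem_topo_iff {U : Tw E X} {S : Sieve U} :
    S ∈ topo E X U ↔ ∃ R ∈ precov E X U, R ≤ S.arrows := by
  rw [topo_eq]
  exact Precoverage.mem_toGrothendieck_iff_of_isStableUnderComposition

end pullback

section reflect

/-- Inverse of a twisted morphism whose underlying morphism is an isomorphism. -/
def invHom {U V : Tw E X} (u : U ⟶ V) [IsIso u.f] : V ⟶ U where
  f := inv u.f
  c := ⟨fun t => (u.c (inv u.f t))⁻¹ * 1, by fun_prop⟩
  w := by rw [← u.w, IsIso.inv_hom_id_assoc]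
  h := by
    refine IsTwF.cancel u.h ?_
    rw [IsIso.inv_hom_id]
    exact IsTwF.id _

instance : (forget E X).ReflectsIsomorphisms where
  reflects {U V} u h := by
    have : IsIso u.f := h
    refine ⟨⟨invHom u, hom_ext (IsIso.hom_inv_id u.f) (fun t => ?_),
      hom_ext (IsIso.inv_hom_id u.f) (fun t => ?_)⟩⟩
    · change (u.c (inv u.f (u.f t)))⁻¹ * 1 * u.c t = 1
      have e : inv u.f (u.f t) = t := by
        rw [← Scheme.Hom.comp_apply, IsIso.hom_inv_id]; rfl
      rw [e, mul_one, inv_mul_cancel]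
    · change u.c (inv u.f t) * ((u.c (inv u.f t))⁻¹ * 1) = 1
      rw [mul_one, mul_inv_cancel]

end reflect

section cont

lemma isPullback_of_forget {W U V T : Tw E X} {a : W ⟶ U} {b : W ⟶ V} {u : U ⟶ T} {v : V ⟶ T}
    (w : a ≫ u = b ≫ v) (h : IsPullback a.f b.f u.f v.f) : IsPullback a b u v := by
  have : ReflectsLimit (cospan u v) (forget E X) :=
    reflectsLimit_of_reflectsIsomorphisms _ _
  exact IsPullback.of_map (forget E X) w h

instance pull_preserves (f : X ⟶ Y) :
    PreservesLimitsOfShape WalkingCospan (pull (E := E) f) where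
  preservesLimit {K} := by
    have key := isPullback_of_forget (E := E) (X := X)
      (W := (pull f).obj (pb (K.map WalkingCospan.Hom.inl) (K.map WalkingCospan.Hom.inr)))
      (a := (pull f).map (pbFst _ _)) (b := (pull f).map (pbSnd _ _))
      (u := (pull f).map (K.map WalkingCospan.Hom.inl))
      (v := (pull f).map (K.map WalkingCospan.Hom.inr))
      (by rw [← Functor.map_comp, ← Functor.map_comp, pb_condition])
      (pull_isPullback_aux (K.map WalkingCospan.Hom.inl).w (K.map WalkingCospan.Hom.inr).w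
        rfl (pbSnd _ _).w (IsPullback.of_hasPullback _ _))
    have : PreservesLimit (cospan (K.map WalkingCospan.Hom.inl) (K.map WalkingCospan.Hom.inr))
        (pull (E := E) f) :=
      preservesLimit_of_preserves_limit_cone (isPullback_pb _ _).isLimit
        ((isLimitMapConePullbackConeEquiv (pull (E := E) f) (pb_condition _ _)).symm
          key.isLimit)
    exact preservesLimit_of_iso_diagram _ (diagramIsoCospan K).symm

lemma pull_cover (f : X ⟶ Y) :
    precov E Y ≤ (precov E X).comap (pull (E := E) f) := by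
  intro U R hR
  obtain ⟨ι, Z, g, rfl⟩ := R.exists_eq_ofArrows
  change ((Presieve.ofArrows Z g).map _).map _ ∈ Scheme.proetalePrecoverage _
  change (Presieve.ofArrows Z g).map _ ∈ Scheme.proetalePrecoverage _ at hR
  rw [Presieve.map_ofArrows] at hR
  rw [Presieve.map_ofArrows, Presieve.map_ofArrows]
  exact Precoverage.mem_coverings_of_isPullback _ hR (pullback.fst U.π f) _
    (fun i => pullback.fst (Z i).π f) (fun i => (pm_isPullback (g i).w))

theorem pull_continuous (f : X ⟶ Y) :
    (pull (E := E) f).IsContinuous (topo E Y) (topo E X) :=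
  Functor.isContinuous_toGrothendieck_of_pullbacksPreservedBy _ (precov E Y)
    (precov E X) (pull_cover f)

end cont

section ex

variable (H : Subgroup E.G)

instance ex_preserves : PreservesLimitsOfShape WalkingCospan (ex E X H) where
  preservesLimit {K} := by
    have key := isPullback_of_forget (E := E) (X := X)
      (W := (ex E X H).obj (pb (K.map WalkingCospan.Hom.inl) (K.map WalkingCospan.Hom.inr)))
      (a := (ex E X H).map (pbFst _ _)) (b := (ex E X H).map (pbSnd _ _))
      (u := (ex E X H).map (K.map WalkingCospan.Hom.inl))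
      (v := (ex E X H).map (K.map WalkingCospan.Hom.inr))
      (by rw [← Functor.map_comp, ← Functor.map_comp, pb_condition])
      (IsPullback.of_hasPullback _ _)
    have : PreservesLimit (cospan (K.map WalkingCospan.Hom.inl) (K.map WalkingCospan.Hom.inr))
        (ex E X H) :=
      preservesLimit_of_preserves_limit_cone (isPullback_pb _ _).isLimit
        ((isLimitMapConePullbackConeEquiv (ex E X H)
          (pb_condition _ _)).symm key.isLimit)
    exact preservesLimit_of_iso_diagram _ (diagramIsoCospan K).symm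

lemma ex_cover : precov (E.sub H) X ≤ (precov E X).comap (ex E X H) := by
  intro U R hR
  obtain ⟨ι, Z, g, rfl⟩ := R.exists_eq_ofArrows
  change ((Presieve.ofArrows Z g).map _).map _ ∈ Scheme.proetalePrecoverage _
  change (Presieve.ofArrows Z g).map _ ∈ Scheme.proetalePrecoverage _ at hR
  rw [Presieve.map_ofArrows] at hR
  rw [Presieve.map_ofArrows, Presieve.map_ofArrows]
  exact hR

theorem ex_continuous : (ex E X H).IsContinuous (topo (E.sub H) X) (topo E X) :=
  Functor.isContinuous_toGrothendieck_of_pullbacksPreservedBy _ (precov (E.sub H) X)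
    (precov E X) (ex_cover H)

/-- The source of a morphism, with the structure pulled back from the target. -/
def untw {Z : Scheme.{0}} {U : Tw E X} (f : Z ⟶ U.T) (π : Z ⟶ X) (hπ : WeaklyEtale π) :
    Tw E X where
  T := Z
  π := π
  we := hπ
  a := f ≫ U.a

/-- The untwisted morphism. -/
def untwHom {Z : Scheme.{0}} {U : Tw E X} (f : Z ⟶ U.T) (π : Z ⟶ X) (hπ : WeaklyEtale π)
    (h : f ≫ U.π = π) : untw f π hπ ⟶ U where
  f := f
  c := 1
  w := h
  h := IsTwF.comap _ _

/-- Comparison with a twisted morphism. -/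
def untwTo {Z U : Tw E X} (g : Z ⟶ U) : untw g.f Z.π Z.we ⟶ Z where
  f := 𝟙 _
  c := ⟨fun t => (g.c t)⁻¹ * 1, by fun_prop⟩
  w := Category.id_comp _
  h := by
    refine IsTwF.cancel (g := 𝟙 Z.T) g.h ?_
    rw [Category.id_comp]
    exact IsTwF.comap _ _

lemma untwTo_comp {Z U : Tw E X} (g : Z ⟶ U) :
    untwTo g ≫ g = untwHom g.f Z.π Z.we g.w := by
  refine hom_ext (Category.id_comp _) (fun t => ?_)
  change g.c t * ((g.c t)⁻¹ * 1) = 1
  rw [mul_one, mul_inv_cancel]

theorem ex_cocontinuous : (ex E X H).IsCocontinuous (topo (E.sub H) X) (topo E X) where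
  cover_lift {U} S hS := by
    obtain ⟨R, hR, hRS⟩ := mem_topo_iff.1 hS
    obtain ⟨ι, Z, g, rfl⟩ := R.exists_eq_ofArrows
    refine mem_topo_iff.2 ⟨Presieve.ofArrows (fun i => untw (U := U) (g i).f (Z i).π (Z i).we)
      (fun i => untwHom (U := U) (g i).f (Z i).π (Z i).we (g i).w), ?_, ?_⟩
    · change (Presieve.ofArrows Z g).map _ ∈ Scheme.proetalePrecoverage _ at hR
      rw [Presieve.map_ofArrows] at hR
      change (Presieve.ofArrows _ _).map _ ∈ Scheme.proetalePrecoverage _
      rw [Presieve.map_ofArrows]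
      exact hR
    · rintro _ _ ⟨i⟩
      change S.arrows ((ex E X H).map
        (untwHom (U := U) (g i).f (Z i).π (Z i).we (g i).w))
      have h1 : S.arrows (g i) := hRS _ _ ⟨i⟩
      have h2 := S.downward_closed h1 (untwTo (g i))
      rw [untwTo_comp] at h2
      exact h2

end ex

end Tw

end

end Pool.Agent.H72.MQ
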