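import Pool.Agent.H72.MQ.S3

open CategoryTheory Limits AlgebraicGeometry TopologicalSpace Opposite

namespace Pool.Agent.H72.MQ

noncomputable section

namespace Tw

variable {E : Env} {X : Scheme.{0}}

section fn

variable (E X) (V : Type) [TopologicalSpace V] [MulAction E.G V] [ContinuousSMul E.G V]

/-- The presheaf of continuous functions to `V`, with twisted restriction maps. -/
def fn : (Tw E X)ᵒᵖ ⥤ Type where
  obj U := C(U.unop.T, V)
  map {U W} u := ↾fun φ => (⟨fun t => (u.unop.c t)⁻¹ • φ (u.unop.f t), by fun_prop⟩ :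
    C(W.unop.T, V))
  map_id U := by
    ext φ t
    simp
  map_comp {U W Z} u v := by
    ext φ t
    simp [mul_smul]

variable {E X V}

/-- A section of `fn` as a continuous map. -/
def fn.toMap {U : Tw E X} (x : (fn E X V).obj (op U)) : C(U.T, V) := x

lemma fn.map_apply {U W : Tw E X} (u : U ⟶ W) (x : (fn E X V).obj (op W)) (t : U.T) :
    fn.toMap ((fn E X V).map u.op x) t = (u.c t)⁻¹ • fn.toMap x (u.f t) := rfl

lemma fn.ext {U : Tw E X} {x y : (fn E X V).obj (op U)}
    (h : ∀ t, fn.toMap x t = fn.toMap y t) : x = y :=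
  ContinuousMap.ext h

lemma fn_isSheafFor {U : Tw E X} {R : Presieve U} (hR : R ∈ precov E X U) :
    Presieve.IsSheafFor (fn E X V) R := by
  obtain ⟨ι, Z, g, rfl⟩ := R.exists_eq_ofArrows
  have hR' : (Presieve.ofArrows Z g).map (forget E X) ∈ Scheme.proetalePrecoverage U.T := hR
  rw [Presieve.map_ofArrows] at hR'
  have hs : Presieve.IsSheafFor (continuousMapPresheaf V)
      (Presieve.ofArrows (fun i => (Z i).T) (fun i => (g i).f)) := by
    have h1 := isSheaf_fpqcTopology_continuousMapPresheaf.{0, 0} V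
    rw [isSheaf_iff_isSheaf_of_type] at h1
    exact (Presieve.isSheaf_of_le _ Scheme.proetaleTopology_le_fpqcTopology
      h1).isSheafFor_of_mem_precoverage hR'
  rw [Presieve.isSheafFor_arrows_iff_pullbacks] at hs
  rw [Presieve.isSheafFor_arrows_iff]
  intro x hx
  let y : ∀ i, C((Z i).T, V) := fun i => ⟨fun t => (g i).c t • fn.toMap (x i) t, by fun_prop⟩
  have hy : Presieve.Arrows.PullbackCompatible (continuousMapPresheaf V)
      (fun i => (g i).f) y := by
    intro i j
    refine ContinuousMap.ext (fun w => ?_)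
    have h1 := hx i j (pb (g i) (g j)) (pbFst _ _) (pbSnd _ _) (pb_condition _ _)
    have h2 := congrArg (fun z => fn.toMap z w) h1
    simp only [fn.map_apply] at h2
    change (g i).c (pullback.fst (g i).f (g j).f w) • fn.toMap (x i) (pullback.fst (g i).f (g j).f w)
      = (g j).c (pullback.snd (g i).f (g j).f w) • fn.toMap (x j) (pullback.snd (g i).f (g j).f w)
    change (1 : E.G)⁻¹ • fn.toMap (x i) (pullback.fst (g i).f (g j).f w) =
      (((g j).c (pullback.snd (g i).f (g j).f w))⁻¹ * ((g i).c (pullback.fst (g i).f (g j).f w) * 1))⁻¹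
        • fn.toMap (x j) (pullback.snd (g i).f (g j).f w) at h2
    rw [inv_one, one_smul] at h2
    rw [h2, smul_smul]
    congr 1
    simp
  obtain ⟨z, hz, huniq⟩ := hs y hy
  refine ⟨z, fun i => ?_, fun z' hz' => huniq z' (fun i => ?_)⟩
  · refine fn.ext (fun t => ?_)
    have h3 := congrArg (fun q : C((Z i).T, V) => q t) (hz i)
    change fn.toMap (U := U) z ((g i).f t) = (g i).c t • fn.toMap (x i) t at h3
    rw [fn.map_apply, h3, smul_smul, inv_mul_cancel, one_smul]
  · refine ContinuousMap.ext (fun t => ?_)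
    have h3 := congrArg (fun z => fn.toMap z t) (hz' i)
    simp only [fn.map_apply] at h3
    change fn.toMap (U := U) z' ((g i).f t) = (g i).c t • fn.toMap (x i) t
    rw [← h3, smul_smul, mul_inv_cancel, one_smul]

lemma fn_isSheaf : Presieve.IsSheaf (topo E X) (fn E X V) := by
  rw [topo_eq, Precoverage.isSheaf_toGrothendieck_iff_of_isStableUnderBaseChange]
  intro U R hR
  exact fn_isSheafFor hR

end fn

/-- Trivial action, used only to see that `ringP` is a sheaf. -/
@[instance_reducible]
def trivAct (G : Type) [Group G] (V : Type) : MulAction G V where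
  smul _ x := x
  one_smul _ := rfl
  mul_smul _ _ _ := rfl

theorem ringP_isSheaf : Presheaf.IsSheaf (topo E X) (ringP E X) := by
  let : MulAction E.G ℚ_[E.ℓ] := trivAct _ _
  have : ContinuousSMul E.G ℚ_[E.ℓ] := ⟨continuous_snd⟩
  have : ReflectsLimitsOfSize.{1, 1} (CategoryTheory.forget RingCat.{1}) :=
    reflectsLimits_of_reflectsIsomorphisms
  refine Presheaf.isSheaf_of_isSheaf_comp _ _ (CategoryTheory.forget RingCat.{1}) ?_
  rw [isSheaf_iff_isSheaf_of_type]
  have h : Presieve.IsSheaf (topo E X) (fn E X ℚ_[E.ℓ] ⋙ uliftFunctor.{1, 0}) :=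
    (Presieve.isSheaf_comp_uliftFunctor_iff _).2 fn_isSheaf
  exact h

end Tw

end

end Pool.Agent.H72.MQ
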