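import Pool.Agent.H72.MQ.S5
import Pool.Agent.H72.MP.Exact

open CategoryTheory Limits AlgebraicGeometry TopologicalSpace Opposite

namespace Pool.Agent.H72.MQ

noncomputable section

variable (E : Env) {X Y : Scheme.{0}}

theorem push_additive (f : X ⟶ Y) : (push E f).Additive where
  map_add := rfl

theorem push_lim' (f : X ⟶ Y) : PreservesFiniteLimits (push E f) := by
  have := Tw.pull_cont (E := E) f
  exact inferInstanceAs (PreservesFiniteLimits (SheafOfModules.pushforward.{1} (F := Tw.pull f) _))

theorem res_additive (H : Subgroup E.G) : (res E X H).Additive where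
  map_add := rfl

theorem res_lim' (H : Subgroup E.G) : PreservesFiniteLimits (res E X H) := by
  have := Tw.ex_cont E X H
  exact inferInstanceAs (PreservesFiniteLimits (SheafOfModules.pushforward.{1} (F := Tw.ex E X H) _))

theorem res_colim' (H : Subgroup E.G) : PreservesFiniteColimits (res E X H) := by
  have := Tw.ex_cont E X H
  have := Tw.ex_cocontinuous (X := X) (E := E) H
  exact MP.pushforward_preservesFiniteColimits_of_cocontinuous _

end

end Pool.Agent.H72.MQ
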