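import Pool.Agent.H72.MQ.PosG

open CategoryTheory Limits AlgebraicGeometry TopologicalSpace Opposite Pretriangulated ZeroObject

namespace Pool.Agent.H72.MQ

noncomputable section

open Tw MP

lemma dist_zero {C : Type*} [Category C] [HasZeroObject C] [HasShift C ℤ] [Preadditive C]
    [∀ n : ℤ, (shiftFunctor C n).Additive] [Pretriangulated C] {K : C} (hK : IsZero K) :
    Triangle.mk (0 : K ⟶ K) (0 : K ⟶ K) (0 : K ⟶ K⟦(1 : ℤ)⟧) ∈ distTriang C :=
  isomorphic_distinguished _ (contractible_distinguished K) _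
    (Triangle.isoMk _ _ (Iso.refl K) (Iso.refl K) (hK.iso (isZero_zero _))
      (hK.eq_of_src _ _) (hK.eq_of_src _ _) (hK.eq_of_src _ _))

section zero

variable {E : Env} {X : Scheme.{0}}

lemma geoO_zero {K : D E X} (hK : IsZero K) : IsZero ((geoD E X).obj K) := resO_zero ⊥ hK

/-- The monodromy filtration of a zero object. -/
def monFilZero {K : D E X} (hK : IsZero K) :
    MonFil (geoD E X) (Perv E) K (0 : (geoD E X).obj K ⟶ (geoD E X).obj K) where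
  M _ := K
  perv_M _ := perv_zero hK
  inc _ := 0
  s _ := 0
  s_inc _ := hK.eq_of_src _ _
  low := ⟨0, fun _ _ => hK⟩
  high := ⟨0, fun _ _ => isIso_of_isZero hK hK _⟩
  gr _ := K
  perv_gr _ := perv_zero hK
  q _ := 0
  δ _ := 0
  dist _ := dist_zero hK
  Nk _ := 𝟙 _
  Nk_inc _ := (geoO_zero hK).eq_of_src _ _
  ν _ := 𝟙 _
  q_ν _ := (geoO_zero hK).eq_of_src _ _
  it _ _ := 𝟙 _
  it_self _ := rfl
  it_step _ _ _ := (geoO_zero hK).eq_of_src _ _
  iso _ := inferInstance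

lemma mperv_zero (t : E.G → ℚ_[E.ℓ]) {K : D E X} (hK : IsZero K) (w : ℤ) : MPerv E t w K :=
  ⟨perv_zero hK, fun H _ => mixed_zero H hK, 0,
    ⟨0, (geoO_zero hK).eq_of_src _ _, ⊤, isOpen_univ, fun g _ hg =>
      ⟨gN E X g⁻¹ (by rw [map_inv, hg, inv_one]), gN_isAct E X g _,
        (geoO_zero hK).eq_of_src _ _⟩⟩, monFilZero hK,
    fun _ H _ => wt_zero H _ hK⟩

end zero

section coh

variable {E : Env} {X : Scheme.{0}} {K : D E X} (hK : Perv E K)

include hK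

lemma coh_zero : IsCoh (PLE E) (PGE E) 0 K K :=
  ⟨_, contractible_distinguished K, _, contractible_distinguished₁ K, ⟨Iso.refl _⟩, hK.1,
    DCl.zero (isZero_zero _), ⟨Iso.refl _⟩, DCl.zero (isZero_zero _), hK.2,
    ⟨((shiftFunctorZero _ ℤ).app K).symm⟩⟩

lemma coh_pos (i : ℤ) (hi : 0 < i) {Q : D E X} (hQ : IsZero Q) :
    IsCoh (PLE E) (PGE E) i K Q :=
  ⟨_, contractible_distinguished K, _, contractible_distinguished K, ⟨Iso.refl _⟩,
    hK.1.mono hi.le, DCl.zero (isZero_zero _), ⟨Iso.refl _⟩, hK.1.mono (by omega),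
    DCl.zero (isZero_zero _),
    ⟨hQ.iso ((shiftFunctor (D E X) i).map_isZero (isZero_zero _))⟩⟩

lemma coh_neg (i : ℤ) (hi : i < 0) {Q : D E X} (hQ : IsZero Q) :
    IsCoh (PLE E) (PGE E) i K Q :=
  ⟨_, contractible_distinguished₁ K, _,
    contractible_distinguished (0 : D E X), ⟨Iso.refl _⟩,
    DCl.zero (isZero_zero _), hK.2.mono (by omega), ⟨Iso.refl _⟩, DCl.zero (isZero_zero _),
    DCl.zero (isZero_zero _),
    ⟨hQ.iso ((shiftFunctor (D E X) i).map_isZero (isZero_zero _))⟩⟩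

end coh

variable {p ℓ : ℕ} [Fact p.Prime] [Fact ℓ.Prime] (κ : Kum p ℓ) {X Y : Scheme.{0}} {i : Y ⟶ X}

lemma mperv_one (hℓ : ℓ ≠ p) (h : Geo p i) :
    MPerv (Eη p ℓ) κ.tq 1 (DerivedCategory.Q.obj (C1 κ i)) :=
  ⟨perv_1 κ h, fun H _ => mixed_1 κ h hℓ H, dj (geoM (Eη p ℓ) X) (nc κ i), isLog κ i hℓ,
    monFil κ h, fun k H _ => pure_gc h hℓ k H⟩

/-- The complex `ℚ_ℓ ⟶ i_* E` is monodromy-pure of weight one. -/
theorem pos (hℓ : ℓ ≠ p) (h : Geo p i) :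
    MPure (Eη p ℓ) κ.tq 1 (plusO (Eη p ℓ) (FF κ i)) := by
  refine ⟨dbc_1 κ h, fun j => ?_⟩
  rcases lt_trichotomy j 0 with hj | rfl | hj
  · exact ⟨0, coh_neg (perv_1 κ h) j hj (isZero_zero _), mperv_zero κ.tq (isZero_zero _) _⟩
  · exact ⟨_, coh_zero (perv_1 κ h), mperv_one κ hℓ h⟩
  · exact ⟨0, coh_pos (perv_1 κ h) j hj (isZero_zero _), mperv_zero κ.tq (isZero_zero _) _⟩

end

end Pool.Agent.H72.MQ
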