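import Pool.Agent.H72.MQ.Lisse
import Pool.Agent.H72.MQ.ExactPt
import Pool.Agent.H72.MP.DerExact

open CategoryTheory Limits AlgebraicGeometry TopologicalSpace Opposite Pretriangulated

namespace Pool.Agent.H72.MQ

noncomputable section

open Tw

section ext

variable {A : Type 2} [Category.{1} A] [Abelian A] [HasDerivedCategory.{2} A]

lemma DCl.mono {S S' : DerivedCategory A → Prop} (h : ∀ K, S K → S' K) {K : DerivedCategory A}
    (hK : DCl S K) : DCl S' K := by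
  induction hK with
  | of h1 => exact DCl.of (h _ h1)
  | zero h1 => exact DCl.zero h1
  | iso e _ ih => exact DCl.iso e ih
  | ext T hT _ _ ih1 ih3 => exact DCl.ext T hT ih1 ih3

end ext

variable {E : Env} {X Y Z : Scheme.{0}}

section perv

lemma isRF_exact (i : Z ⟶ X) [PreservesFiniteColimits (push E i)]
    (L : Sh E Z) (j : ℤ) {M : Sh E X} (e : M ≅ (push E i).obj L)
    {K : D E X} (hK : IsSgl M j K) : IsRF (push E i) L j K := by
  obtain ⟨hK⟩ := hK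
  obtain ⟨e'⟩ := MP.derExact_single (push E i) L j
  exact ⟨hK ≪≫ (DerivedCategory.singleFunctor _ j).mapIso e ≪≫ e'.symm⟩

lemma perv_single (i : Z ⟶ X) [IsClosedImmersion i]
    [PreservesFiniteColimits (push E i)] [IrreducibleSpace Z] (hZ : SmoothOver E.p Z)
    (d : ℕ) (hd : topologicalKrullDim Z = d) (L : Sh E Z) (hL : LocFree L)
    {M : Sh E X} (e : M ≅ (push E i).obj L)
    {K : D E X} (j : ℤ) (hj : j = -d)
    (hK : IsSgl M j K) : Perv E K :=
  ⟨DCl.of ⟨Z, i, inferInstance, L, M, j, hL, isExt_closed i L e, ⟨d, hd.le, by omega⟩, hK⟩,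
    DCl.of ⟨Z, i, inferInstance, hZ, L, j, hL, ⟨inferInstance, d, hd.ge, by omega⟩,
      isRF_exact i L j e hK⟩⟩

lemma dbc_single (i : Z ⟶ X) [IsClosedImmersion i] (L : Sh E Z)
    (hL : LocFree L) {M : Sh E X} (e : M ≅ (push E i).obj L)
    {K : D E X} (j : ℤ) (hK : IsSgl M j K) : Dbc E K :=
  DCl.of ⟨Z, i, inferInstance, L, M, j, hL, isExt_closed i L e, trivial, hK⟩

lemma perv_zero {K : D E X} (h : IsZero K) : Perv E K :=
  ⟨DCl.zero h, DCl.zero h⟩

lemma perv_ext (T : Triangle (D E X)) (hT : T ∈ distTriang _)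
    (h1 : Perv E T.obj₁) (h3 : Perv E T.obj₃) : Perv E T.obj₂ :=
  ⟨DCl.ext T hT h1.1 h3.1, DCl.ext T hT h1.2 h3.2⟩

lemma perv_iso {K L : D E X} (e : K ≅ L) (h : Perv E K) : Perv E L :=
  ⟨DCl.iso e h.1, DCl.iso e h.2⟩

lemma PLE.mono {m n : ℤ} (h : m ≤ n) {K : D E X} (hK : PLE E m K) : PLE E n K :=
  DCl.mono (fun _ ⟨Z, i, hi, L, M, j, hL, hM, ⟨d, hd, hj⟩, e⟩ =>
    ⟨Z, i, hi, L, M, j, hL, hM, ⟨d, hd, hj.trans h⟩, e⟩) hK

lemma PGE.mono {m n : ℤ} (h : n ≤ m) {K : D E X} (hK : PGE E m K) : PGE E n K :=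
  DCl.mono (fun _ ⟨Z, i, hi, h1, L, j, hL, ⟨h2, d, hd, hj⟩, e⟩ =>
    ⟨Z, i, hi, h1, L, j, hL, ⟨h2, d, hd, h.trans hj⟩, e⟩) hK

end perv

section pure

variable (H : Subgroup E.G)

/-- Restriction of single complexes. -/
lemma resO_single {M : Sh E X} {j : ℤ} {K : D E X} (hK : IsSgl M j K) :
    IsSgl ((res E X H).obj M) j (resO E H K) := by
  obtain ⟨hK⟩ := hK
  exact ⟨(resD E X H).mapIso hK ≪≫ ((res E X H).mapDerivedCategorySingleFunctor j).app M⟩

lemma wt_single (i : Z ⟶ X) [IsClosedImmersion i]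
    [PreservesFiniteColimits (push (E.sub H) i)] (hZ : SmoothOver E.p Z)
    (L : Sh E Z) (v w j : ℤ) (hv : v = w + j)
    (hL : LocFree ((res E Z H).obj L)) (hP : PP (E.sub H) v ((res E Z H).obj L))
    {M : Sh E X} (e : M ≅ (push E i).obj L) {K : D E X}
    (hK : IsSgl M j K) : WLE (E.sub H) w (resO E H K) ∧ WGE (E.sub H) w (resO E H K) := by
  have e1 := resO_single H hK
  have e2 : (res E X H).obj M ≅ (push (E.sub H) i).obj ((res E Z H).obj L) :=
    (res E X H).mapIso e ≪≫ resPush H i L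
  exact ⟨DCl.of ⟨Z, i, inferInstance, (res E Z H).obj L, _, j, hL,
      isExt_closed i _ e2, ⟨v, hP, hv.le⟩, e1⟩,
    DCl.of ⟨Z, i, inferInstance, hZ, (res E Z H).obj L, j, hL, ⟨v, hP, hv.ge⟩,
      isRF_exact i _ j e2 e1⟩⟩

lemma mixed_of_wle {w : ℤ} {K : D E X} (h : WLE E w K) : Mixed E K :=
  DCl.mono (fun _ ⟨Z, i, hi, L, M, j, hL, hM, ⟨v, hv, _⟩, e⟩ =>
    ⟨Z, i, hi, L, M, j, hL, hM, ⟨v, hv⟩, e⟩) h

lemma resO_zero {K : D E X} (h : IsZero K) : IsZero (resO E H K) :=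
  (res E X H).mapDerivedCategory.map_isZero h

lemma mixed_zero {K : D E X} (h : IsZero K) : Mixed (E.sub H) (resO E H K) :=
  DCl.zero (resO_zero H h)

lemma wt_zero {K : D E X} (w : ℤ) (h : IsZero K) :
    WLE (E.sub H) w (resO E H K) ∧ WGE (E.sub H) w (resO E H K) :=
  ⟨DCl.zero (resO_zero H h), DCl.zero (resO_zero H h)⟩

lemma mixed_ext (T : Triangle (D E X)) (hT : T ∈ distTriang _)
    (h1 : Mixed (E.sub H) (resO E H T.obj₁)) (h3 : Mixed (E.sub H) (resO E H T.obj₃)) :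
    Mixed (E.sub H) (resO E H T.obj₂) :=
  DCl.ext ((res E X H).mapDerivedCategory.mapTriangle.obj T)
    ((res E X H).mapDerivedCategory.map_distinguished T hT) h1 h3

end pure

end

end Pool.Agent.H72.MQ
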