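import Pool.Agent.H72.MQ.PosA

open CategoryTheory Limits AlgebraicGeometry TopologicalSpace Opposite Pretriangulated ZeroObject

namespace Pool.Agent.H72.MQ

noncomputable section

open Tw MP

variable {p ℓ : ℕ} [Fact p.Prime] [Fact ℓ.Prime] (κ : Kum p ℓ) {X Y : Scheme.{0}} (i : Y ⟶ X)

variable (p ℓ) in
/-- The sheaf `i_* ℚ_ℓ`. -/
abbrev B0 : Sh (Eη p ℓ) X := (push (Eη p ℓ) i).obj (OE p ℓ Y)

/-- The sheaf `i_* E`. -/
abbrev B1 : Sh (Eη p ℓ) X := (push (Eη p ℓ) i).obj (EE κ Y)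

/-- The inclusion of `i_* ℚ_ℓ` in `i_* E`. -/
def bInc : B0 p ℓ i ⟶ B1 κ i := (push (Eη p ℓ) i).map (eInc κ Y)

/-- The projection of `i_* E` to `i_* ℚ_ℓ (-1)`. -/
def bProj : B1 κ i ⟶ (tateM p ℓ X).obj (B0 p ℓ i) :=
  (push (Eη p ℓ) i).map (eProj κ Y) ≫
    (pushTw (cInv p ℓ) (cInv_continuous p ℓ) i (OE p ℓ Y)).inv

/-- Sections of `ℚ_ℓ` over the base change of `U`. -/
abbrev SecY (U : Tw (Eη p ℓ) X) : Type 1 := (Rs (Eη p ℓ) Y).obj.obj (op ((pull i).obj U))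

lemma bInc_apply (U : Tw (Eη p ℓ) X) (a : SecY i U) :
    (bInc κ i).val.app (op U) a = ((a, 0) : SecY i U × SecY i U) := rfl

lemma bProj_apply (U : Tw (Eη p ℓ) X) (x : SecY i U × SecY i U) :
    (bProj κ i).val.app (op U) x = x.2 := rfl

lemma bInc_bProj : bInc κ i ≫ bProj κ i = 0 := md_hom_ext (fun _ _ => rfl)

lemma ses_b : (ShortComplex.mk (bInc κ i) (bProj κ i) (bInc_bProj κ i)).ShortExact := by
  refine md_shortExact _ (fun U a b h => ?_) (fun U y => ?_) (fun U y hy => ?_)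
  · exact congrArg (fun z : SecY i U × SecY i U => z.1) h
  · exact ⟨((0, y) : SecY i U × SecY i U), rfl⟩
  · let y' : SecY i U × SecY i U := y
    have hy' : y'.2 = 0 := hy
    exact ⟨y'.1, Prod.ext rfl hy'.symm⟩

variable (p ℓ) in
/-- The restriction of the constant sheaf. -/
abbrev uR : OE p ℓ X ⟶ B0 p ℓ i := unitRes (Eη p ℓ) i

lemma dI_eq : dI κ i = uR p ℓ i ≫ bInc κ i := rfl

lemma dI_bProj : dI κ i ≫ bProj κ i = 0 := by
  rw [dI_eq, Category.assoc, bInc_bProj, comp_zero]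

/-! ### The complexes -/

variable (p ℓ) in
/-- The complex `i_* ℚ_ℓ`. -/
abbrev Cm : CochainComplex (Sh (Eη p ℓ) X) ℤ := two (0 : (0 : Sh (Eη p ℓ) X) ⟶ B0 p ℓ i)

variable (p ℓ) in
/-- The complex `ℚ_ℓ ⟶ i_* ℚ_ℓ`. -/
abbrev C0 : CochainComplex (Sh (Eη p ℓ) X) ℤ := two (uR p ℓ i)

/-- The complex `ℚ_ℓ ⟶ i_* E`. -/
abbrev C1 : CochainComplex (Sh (Eη p ℓ) X) ℤ := two (dI κ i)

variable (p ℓ) in
/-- The complex `ℚ_ℓ[1]`. -/
abbrev g0 (X : Scheme.{0}) : CochainComplex (Sh (Eη p ℓ) X) ℤ := two (0 : OE p ℓ X ⟶ 0)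

variable (p ℓ) in
/-- The complex `i_* ℚ_ℓ(-1)`. -/
abbrev g1 : CochainComplex (Sh (Eη p ℓ) X) ℤ :=
  two (0 : (0 : Sh (Eη p ℓ) X) ⟶ (tateM p ℓ X).obj (B0 p ℓ i))

variable (p ℓ) in
/-- The inclusion `Cm ⟶ C0`. -/
def jm : Cm p ℓ i ⟶ C0 p ℓ i := twoMap 0 (𝟙 _) (by simp)

variable (p ℓ) in
/-- The projection `C0 ⟶ g0`. -/
def pm : C0 p ℓ i ⟶ g0 p ℓ X := twoMap (𝟙 _) 0 (by simp)

/-- The inclusion `C0 ⟶ C1`. -/
def j0 : C0 p ℓ i ⟶ C1 κ i := twoMap (𝟙 _) (bInc κ i) (by rw [dI_eq, Category.id_comp])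

/-- The projection `C1 ⟶ g1`. -/
def p0 : C1 κ i ⟶ g1 p ℓ i := twoMap 0 (bProj κ i) (by rw [dI_bProj, comp_zero])

lemma ses_id_zero {C : Type*} [Category C] [Abelian C] (A : C) :
    (ShortComplex.mk (𝟙 A) (0 : A ⟶ (0 : C)) (by simp)).ShortExact where
  exact := ShortComplex.exact_of_f_is_kernel _ (KernelFork.IsLimit.ofId _ rfl)
  mono_f := inferInstance
  epi_g := ⟨fun _ _ _ => (isZero_zero C).eq_of_src _ _⟩

lemma ses_zero_id {C : Type*} [Category C] [Abelian C] (A : C) :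
    (ShortComplex.mk (0 : (0 : C) ⟶ A) (𝟙 A) (by simp)).ShortExact where
  exact := ShortComplex.exact_of_g_is_cokernel _ (CokernelCofork.IsColimit.ofId _ rfl)
  mono_f := ⟨fun _ _ _ => (isZero_zero C).eq_of_tgt _ _⟩
  epi_g := inferInstance

lemma ses_m : (ShortComplex.mk (jm p ℓ i) (pm p ℓ i) (two_hom_ext zero_comp comp_zero)).ShortExact :=
  two_shortExact _ _ (by simp) (by simp) (ses_zero_id _) (ses_id_zero _)

lemma ses_0 : (ShortComplex.mk (j0 κ i) (p0 κ i) (two_hom_ext comp_zero (bInc_bProj κ i))).ShortExact :=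
  two_shortExact _ _ (by simp) (bInc_bProj κ i) (ses_id_zero _) (ses_b κ i)

end

end Pool.Agent.H72.MQ
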