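import Pool.Agent.H72.MQ.PosB

open CategoryTheory Limits AlgebraicGeometry TopologicalSpace Opposite Pretriangulated ZeroObject

namespace Pool.Agent.H72.MQ

noncomputable section

open Tw MP

/-- `Q` of a two-term complex with zero source. -/
lemma isSgl_zero {C : Type 2} [Category.{1} C] [Abelian C] [HasDerivedCategory.{2} C] (B : C) :
    IsSgl B 0 (DerivedCategory.Q.obj (two (0 : (0 : C) ⟶ B))) :=
  ⟨DerivedCategory.Q.mapIso (twoZeroIso B)⟩

/-- `Q` of a two-term complex with zero target. -/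
lemma isSgl_neg {C : Type 2} [Category.{1} C] [Abelian C] [HasDerivedCategory.{2} C] (A : C) :
    IsSgl A (-1) (DerivedCategory.Q.obj (two (0 : A ⟶ (0 : C)))) :=
  ⟨DerivedCategory.Q.mapIso (twoZeroIso' A)⟩

/-- Purity after every restriction of the group. -/
def Pur (E : Env) {X : Scheme.{0}} (w : ℤ) (K : D E X) : Prop :=
  ∀ H : Subgroup E.G, WLE (E.sub H) w (resO E H K) ∧ WGE (E.sub H) w (resO E H K)

/-- Mixedness after every restriction of the group. -/
def Mix (E : Env) {X : Scheme.{0}} (K : D E X) : Prop :=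
  ∀ H : Subgroup E.G, Mixed (E.sub H) (resO E H K)

/-- Geometric hypotheses: `X` is irreducible, smooth over `𝔽_p` and of dimension one, `Y` is
irreducible, smooth and of dimension zero, and `i : Y ⟶ X` is a closed immersion such that
`i_*` is exact. -/
structure Geo (p : ℕ) {X Y : Scheme.{0}} (i : Y ⟶ X) : Prop where
  closed : IsClosedImmersion i
  ex : ∀ E : Env, PreservesFiniteColimits (push E i)
  smX : SmoothOver p X
  smY : SmoothOver p Y
  irX : IrreducibleSpace X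
  irY : IrreducibleSpace Y
  dX : topologicalKrullDim X = (1 : ℕ)
  dY : topologicalKrullDim Y = (0 : ℕ)

variable {p ℓ : ℕ} [Fact p.Prime] [Fact ℓ.Prime] (κ : Kum p ℓ) {X Y : Scheme.{0}} {i : Y ⟶ X}
  (h : Geo p i)

include h

lemma perv_m : Perv (Eη p ℓ) (DerivedCategory.Q.obj (Cm p ℓ i)) := by
  have := h.closed
  have := h.ex (Eη p ℓ)
  have := h.irY
  exact perv_single i h.smY 0 h.dY (OE p ℓ Y) locFree_unit (Iso.refl _) 0 (by simp)
    (isSgl_zero _)

lemma perv_g0 : Perv (Eη p ℓ) (DerivedCategory.Q.obj (g0 p ℓ X)) := by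
  have := h.irX
  exact perv_single (𝟙 X) h.smX 1 h.dX (OE p ℓ X) locFree_unit (pushId _) (-1) (by simp)
    (isSgl_neg _)

lemma perv_g1 : Perv (Eη p ℓ) (DerivedCategory.Q.obj (g1 p ℓ i)) := by
  have := h.closed
  have := h.ex (Eη p ℓ)
  have := h.irY
  exact perv_single i h.smY 0 h.dY ((tateM p ℓ Y).obj (OE p ℓ Y)) (locFree_twUnit _ _)
    (pushTw _ _ i _) 0 (by simp) (isSgl_zero _)

lemma perv_0 : Perv (Eη p ℓ) (DerivedCategory.Q.obj (C0 p ℓ i)) :=
  perv_ext _ (DerivedCategory.triangleOfSES_distinguished (ses_m i)) (perv_m h) (perv_g0 h)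

lemma perv_1 : Perv (Eη p ℓ) (DerivedCategory.Q.obj (C1 κ i)) :=
  perv_ext _ (DerivedCategory.triangleOfSES_distinguished (ses_0 κ i)) (perv_0 h) (perv_g1 h)

lemma dbc_1 : Dbc (Eη p ℓ) (DerivedCategory.Q.obj (C1 κ i)) := by
  have := h.closed
  have hm : Dbc (Eη p ℓ) (DerivedCategory.Q.obj (Cm p ℓ i)) :=
    dbc_single i (OE p ℓ Y) locFree_unit (Iso.refl _) 0 (isSgl_zero _)
  have h0 : Dbc (Eη p ℓ) (DerivedCategory.Q.obj (g0 p ℓ X)) :=
    dbc_single (𝟙 X) (OE p ℓ X) locFree_unit (pushId _) (-1) (isSgl_neg _)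
  have h1 : Dbc (Eη p ℓ) (DerivedCategory.Q.obj (g1 p ℓ i)) :=
    dbc_single i ((tateM p ℓ Y).obj (OE p ℓ Y)) (locFree_twUnit _ _) (pushTw _ _ i _) 0
      (isSgl_zero _)
  exact DCl.ext _ (DerivedCategory.triangleOfSES_distinguished (ses_0 κ i))
    (DCl.ext _ (DerivedCategory.triangleOfSES_distinguished (ses_m i)) hm h0) h1

lemma pure_m : Pur (Eη p ℓ) 0 (DerivedCategory.Q.obj (Cm p ℓ i)) := by
  intro H
  have := h.closed
  have := h.ex ((Eη p ℓ).sub H)
  exact wt_single H i h.smY (OE p ℓ Y) 0 0 0 (by simp)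
    (locFree_of_iso (resUnit H).symm locFree_unit) (pp_unit (resUnit H)) (Iso.refl _)
    (isSgl_zero _)

lemma pure_g0 : Pur (Eη p ℓ) 1 (DerivedCategory.Q.obj (g0 p ℓ X)) := fun H =>
  wt_single H (𝟙 X) h.smX (OE p ℓ X) 0 1 (-1) (by simp)
    (locFree_of_iso (resUnit H).symm locFree_unit) (pp_unit (resUnit H)) (pushId _)
    (isSgl_neg _)

lemma pure_g1 (hℓ : ℓ ≠ p) : Pur (Eη p ℓ) 2 (DerivedCategory.Q.obj (g1 p ℓ i)) := by
  intro H
  have := h.closed
  have := h.ex ((Eη p ℓ).sub H)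
  have e : (res (Eη p ℓ) Y H).obj ((tateM p ℓ Y).obj (OE p ℓ Y)) ≅
      (twM (chS H (cInv p ℓ)) (chS_continuous H (cInv_continuous p ℓ))).obj
        (unitM ((Eη p ℓ).sub H) Y) :=
    resTw H _ _ _ ≪≫ (twM _ _).mapIso (resUnit H)
  exact wt_single H i h.smY ((tateM p ℓ Y).obj (OE p ℓ Y)) 2 2 0 (by simp)
    (locFree_of_iso e.symm (locFree_twUnit _ _)) (pp_tate hℓ H e) (pushTw _ _ i _)
    (isSgl_zero _)

lemma mixed_1 (hℓ : ℓ ≠ p) : Mix (Eη p ℓ) (DerivedCategory.Q.obj (C1 κ i)) := fun H =>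
  mixed_ext H _ (DerivedCategory.triangleOfSES_distinguished (ses_0 κ i))
    (mixed_ext H _ (DerivedCategory.triangleOfSES_distinguished (ses_m i))
      (mixed_of_wle (pure_m h H).1) (mixed_of_wle (pure_g0 h H).1))
    (mixed_of_wle (pure_g1 h hℓ H).1)

end

end Pool.Agent.H72.MQ
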