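import Pool.Agent.H72.MQ.PosC
import Pool.Agent.H72.MQ.Dj

open CategoryTheory Limits AlgebraicGeometry TopologicalSpace Opposite Pretriangulated ZeroObject

namespace Pool.Agent.H72.MQ

noncomputable section

open Tw MP

section kap

variable {E : Env} {X : Scheme.{0}}

lemma kap_aux (χ : E.G →* ℚ_[E.ℓ]ˣ) (hχ : Continuous χ) (M : Sh E X) {U V : Tw E.geo X}
    (u : V ⟶ U) (x : M.val.obj (op ((ex E X ⊥).obj U))) :
    (chiF χ hχ (((ex E X ⊥).map u).c)⁻¹ • rst M.val ((ex E X ⊥).map u) x :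
      M.val.obj (op ((ex E X ⊥).obj V))) = rst M.val ((ex E X ⊥).map u) x := by
  have h : (((ex E X ⊥).map u).c)⁻¹ = 1 := by
    ext t : 1
    have h1 : ((ex E X ⊥).map u).c t = 1 := Subgroup.mem_bot.1 (u.c t).2
    change (((ex E X ⊥).map u).c t)⁻¹ = 1
    rw [h1, inv_one]
  rw [h, chiF_one, one_smul]

/-- After forgetting the Galois action, twists are trivial. -/
def kap (χ : E.G →* ℚ_[E.ℓ]ˣ) (hχ : Continuous χ) (M : Sh E X) :
    (geoM E X).obj ((twM χ hχ).obj M) ≅ (geoM E X).obj M :=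
  mdIso (fun U => AddEquiv.refl (M.val.obj (op ((ex E X ⊥).obj U)))) (fun _ _ _ => rfl)
    (fun {_ _} u x => kap_aux χ hχ M u x)

end kap

variable {p ℓ : ℕ} [Fact p.Prime] [Fact ℓ.Prime] (κ : Kum p ℓ) {X Y : Scheme.{0}} (i : Y ⟶ X)

/-- Forgetting the Galois action, on complexes. -/
abbrev Gc (p ℓ : ℕ) [Fact p.Prime] [Fact ℓ.Prime] (X : Scheme.{0}) :
    CochainComplex (Sh (Eη p ℓ) X) ℤ ⥤ CochainComplex (Sh (Eη p ℓ).geo X) ℤ :=
  Fc (geoM (Eη p ℓ) X)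

lemma jm_pm : jm p ℓ i ≫ pm p ℓ i = 0 := two_hom_ext zero_comp comp_zero

lemma j0_p0 : j0 κ i ≫ p0 κ i = 0 := two_hom_ext comp_zero (bInc_bProj κ i)

variable (p ℓ) in
/-- The isomorphism between the top and the bottom graded pieces. -/
def νIso : (Gc p ℓ X).obj (g1 p ℓ i) ≅ (Gc p ℓ X).obj (Cm p ℓ i) :=
  mapTwo (geoM (Eη p ℓ) X) (0 : (0 : Sh (Eη p ℓ) X) ⟶ (tateM p ℓ X).obj (B0 p ℓ i)) ≪≫
    twoIso (Iso.refl _) (kap (cInv p ℓ) (cInv_continuous p ℓ) (B0 p ℓ i))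
      (by rw [Functor.map_zero, Functor.map_zero, comp_zero, zero_comp]) ≪≫
    (mapTwo (geoM (Eη p ℓ) X) (0 : (0 : Sh (Eη p ℓ) X) ⟶ B0 p ℓ i)).symm

/-- The operator on complexes. -/
def nm : (Gc p ℓ X).obj (C1 κ i) ⟶ (Gc p ℓ X).obj (Cm p ℓ i) :=
  (Gc p ℓ X).map (p0 κ i) ≫ (νIso p ℓ i).hom

/-- The operator on complexes. -/
def nc : (Gc p ℓ X).obj (C1 κ i) ⟶ (Gc p ℓ X).obj (C1 κ i) :=
  nm κ i ≫ (Gc p ℓ X).map (jm p ℓ i ≫ j0 κ i)

/-- The steps of the filtration. -/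
def Mc : ℤ → CochainComplex (Sh (Eη p ℓ) X) ℤ
  | .negSucc 0 => Cm p ℓ i
  | .negSucc (_ + 1) => 0
  | .ofNat 0 => C0 p ℓ i
  | .ofNat (_ + 1) => C1 κ i

/-- The inclusions. -/
def incc : ∀ k : ℤ, Mc κ i k ⟶ C1 κ i
  | .negSucc 0 => jm p ℓ i ≫ j0 κ i
  | .negSucc (_ + 1) => 0
  | .ofNat 0 => j0 κ i
  | .ofNat (_ + 1) => 𝟙 _

/-- The inclusions. -/
def sc : ∀ k : ℤ, Mc κ i k ⟶ Mc κ i (k + 1)
  | .negSucc 0 => jm p ℓ i
  | .negSucc (_ + 1) => 0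
  | .ofNat 0 => j0 κ i
  | .ofNat (_ + 1) => 𝟙 _

lemma sc_incc (k : ℤ) : sc κ i k ≫ incc κ i (k + 1) = incc κ i k := by
  rcases k with (_ | k) | (_ | k)
  · exact Category.comp_id _
  · exact Category.comp_id _
  · rfl
  · exact (isZero_zero _).eq_of_src _ _

variable (p ℓ) in
/-- The graded pieces. -/
def gc : ℤ → CochainComplex (Sh (Eη p ℓ) X) ℤ
  | .negSucc 0 => Cm p ℓ i
  | .negSucc (_ + 1) => 0
  | .ofNat 0 => g0 p ℓ X
  | .ofNat 1 => g1 p ℓ i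
  | .ofNat (_ + 2) => 0

/-- The projections. -/
def qcc : ∀ k : ℤ, Mc κ i k ⟶ gc p ℓ i k
  | .negSucc 0 => 𝟙 _
  | .negSucc (_ + 1) => 0
  | .ofNat 0 => pm p ℓ i
  | .ofNat 1 => p0 κ i
  | .ofNat (_ + 2) => 0

lemma sc_qc (k : ℤ) : sc κ i k ≫ qcc κ i (k + 1) = 0 := by
  rcases k with (_ | k) | (_ | _ | k)
  · exact j0_p0 κ i
  · exact comp_zero
  · exact jm_pm i
  · exact zero_comp
  · exact zero_comp

lemma ses_zero_zero {C : Type*} [Category C] [Abelian C] :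
    (ShortComplex.mk (0 : (0 : C) ⟶ 0) (0 : (0 : C) ⟶ 0) (by simp)).ShortExact where
  exact := ShortComplex.exact_of_isZero_X₂ _ (isZero_zero C)
  mono_f := ⟨fun _ _ _ => (isZero_zero C).eq_of_tgt _ _⟩
  epi_g := ⟨fun _ _ _ => (isZero_zero C).eq_of_src _ _⟩

lemma ses_c (k : ℤ) : (ShortComplex.mk (sc κ i k) (qcc κ i (k + 1)) (sc_qc κ i k)).ShortExact := by
  rcases k with (_ | k) | (_ | _ | k)
  · exact ses_0 κ i
  · exact ses_id_zero _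
  · exact ses_m i
  · exact ses_zero_id _
  · exact ses_zero_zero

/-- The operator on the steps. -/
def Nkc : ∀ k : ℤ, (Gc p ℓ X).obj (Mc κ i (k + 2)) ⟶ (Gc p ℓ X).obj (Mc κ i k)
  | .negSucc 0 => nm κ i
  | .negSucc (_ + 1) => 0
  | .ofNat 0 => nm κ i ≫ (Gc p ℓ X).map (jm p ℓ i)
  | .ofNat (_ + 1) => nc κ i

lemma j0_nm : (Gc p ℓ X).map (j0 κ i) ≫ nm κ i = 0 := by
  rw [nm, ← Category.assoc, ← Functor.map_comp, j0_p0, Functor.map_zero, zero_comp]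

lemma j0_nc : (Gc p ℓ X).map (j0 κ i) ≫ nc κ i = 0 := by
  rw [nc, ← Category.assoc, j0_nm, zero_comp]

lemma isZero_Gc : IsZero ((Gc p ℓ X).obj 0) := (Gc p ℓ X).map_isZero (isZero_zero _)

lemma Nkc_incc (k : ℤ) :
    Nkc κ i k ≫ (Gc p ℓ X).map (incc κ i k) = (Gc p ℓ X).map (incc κ i (k + 2)) ≫ nc κ i := by
  rcases k with (_ | k) | (_ | _ | _ | k)
  · change (nm κ i ≫ (Gc p ℓ X).map (jm p ℓ i)) ≫ (Gc p ℓ X).map (j0 κ i) =
      (Gc p ℓ X).map (𝟙 _) ≫ nc κ i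
    rw [CategoryTheory.Functor.map_id, Category.id_comp, Category.assoc, ← Functor.map_comp, nc]
  · change nc κ i ≫ (Gc p ℓ X).map (𝟙 _) = (Gc p ℓ X).map (𝟙 _) ≫ nc κ i
    rw [CategoryTheory.Functor.map_id, Category.id_comp, Category.comp_id]
  · change nm κ i ≫ (Gc p ℓ X).map (jm p ℓ i ≫ j0 κ i) = (Gc p ℓ X).map (𝟙 _) ≫ nc κ i
    rw [CategoryTheory.Functor.map_id, Category.id_comp, nc]
  · change 0 ≫ _ = (Gc p ℓ X).map (j0 κ i) ≫ nc κ i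
    rw [zero_comp, j0_nc]
  · change 0 ≫ _ = (Gc p ℓ X).map (jm p ℓ i ≫ j0 κ i) ≫ nc κ i
    rw [zero_comp, Functor.map_comp, Category.assoc, j0_nc, comp_zero]
  · exact isZero_Gc.eq_of_src _ _

variable (p ℓ) in
/-- The operator on the graded pieces. -/
def νc : ∀ k : ℤ, (Gc p ℓ X).obj (gc p ℓ i (k + 2)) ⟶ (Gc p ℓ X).obj (gc p ℓ i k)
  | .negSucc 0 => (νIso p ℓ i).hom
  | .negSucc (_ + 1) => 0
  | .ofNat _ => 0

lemma qc_νc (k : ℤ) :
    (Gc p ℓ X).map (qcc κ i (k + 2)) ≫ νc p ℓ i k = Nkc κ i k ≫ (Gc p ℓ X).map (qcc κ i k) := by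
  rcases k with (_ | _ | k) | (_ | k)
  · change (Gc p ℓ X).map (0 : C1 κ i ⟶ 0) ≫ 0 =
      (nm κ i ≫ (Gc p ℓ X).map (jm p ℓ i)) ≫ (Gc p ℓ X).map (pm p ℓ i)
    rw [Category.assoc, ← Functor.map_comp, jm_pm, Functor.map_zero, Functor.map_zero, comp_zero,
      comp_zero]
  · change (Gc p ℓ X).map (0 : C1 κ i ⟶ 0) ≫ 0 = nc κ i ≫ (Gc p ℓ X).map (p0 κ i)
    rw [comp_zero, nc, Category.assoc, ← Functor.map_comp, Category.assoc, j0_p0, comp_zero,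
      Functor.map_zero, comp_zero]
  · exact isZero_Gc.eq_of_tgt _ _
  · change (Gc p ℓ X).map (p0 κ i) ≫ (νIso p ℓ i).hom = nm κ i ≫ (Gc p ℓ X).map (𝟙 _)
    rw [CategoryTheory.Functor.map_id, Category.comp_id, nm]
  · exact isZero_Gc.eq_of_tgt _ _

variable (p ℓ) in
/-- The iterates of the operator on the graded pieces. -/
def itc (a b : ℤ) : (Gc p ℓ X).obj (gc p ℓ i a) ⟶ (Gc p ℓ X).obj (gc p ℓ i b) :=
  if h : a = 1 ∧ b = -1 then
    eqToHom (by rw [h.1]; rfl) ≫ (νIso p ℓ i).hom ≫ eqToHom (by rw [h.2]; rfl)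
  else if h : a = b then eqToHom (by rw [h]) else 0

lemma itc_self (a : ℤ) : itc p ℓ i a a = 𝟙 _ := by
  rw [itc, dif_neg (by omega), dif_pos rfl, eqToHom_refl]

lemma itc_one : itc p ℓ i 1 (-1) = (νIso p ℓ i).hom := by
  rw [itc, dif_pos ⟨rfl, rfl⟩]
  exact (Category.id_comp _).trans (Category.comp_id _)

lemma isZero_gc (k : ℤ) (hk : 2 ≤ k ∨ k ≤ -2) : IsZero ((Gc p ℓ X).obj (gc p ℓ i k)) := by
  rcases k with (_ | _ | k) | (_ | k)
  · exact absurd hk (by decide)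
  · exact absurd hk (by decide)
  · exact isZero_Gc
  · exact absurd hk (by decide)
  · exact isZero_Gc

lemma itc_step (a b : ℤ) (h : b ≤ a) : itc p ℓ i (a + 2) b = νc p ℓ i a ≫ itc p ℓ i a b := by
  by_cases h1 : 0 ≤ a
  · exact (isZero_gc i (a + 2) (Or.inl (by omega))).eq_of_src _ _
  · by_cases h2 : b ≤ -2
    · exact (isZero_gc i b (Or.inr h2)).eq_of_tgt _ _
    · obtain rfl : a = -1 := by omega
      obtain rfl : b = -1 := by omega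
      rw [itc_self, Category.comp_id]
      exact itc_one i

lemma itc_iso (j : ℕ) : IsIso (itc p ℓ i j (-j)) := by
  rcases j with _ | _ | j
  · have h1 : itc p ℓ i 0 0 = 𝟙 _ := itc_self i 0
    have h2 : IsIso (itc p ℓ i 0 0) := by rw [h1]; infer_instance
    exact h2
  · have h1 : IsIso (itc p ℓ i 1 (-1)) := by
      rw [itc_one]
      infer_instance
    exact h1
  · exact isIso_of_isZero (isZero_gc i _ (Or.inl (by push_cast; omega)))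
      (isZero_gc i _ (Or.inr (by push_cast; omega))) _

end

end Pool.Agent.H72.MQ
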