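import Pool.Agent.H72.MQ.PosD

open CategoryTheory Limits AlgebraicGeometry TopologicalSpace Opposite Pretriangulated ZeroObject

namespace Pool.Agent.H72.MQ

noncomputable section

open Tw MP

variable {p ℓ : ℕ} [Fact p.Prime] [Fact ℓ.Prime] (κ : Kum p ℓ) {X Y : Scheme.{0}} (i : Y ⟶ X)

variable {i} (h : Geo p i)

include h in
lemma perv_Mc (k : ℤ) : Perv (Eη p ℓ) (DerivedCategory.Q.obj (Mc κ i k)) := by
  rcases k with (_ | k) | (_ | k)
  · exact perv_0 h
  · exact perv_1 κ h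
  · exact perv_m h
  · exact perv_zero isZero_Q

include h in
lemma perv_gc (k : ℤ) : Perv (Eη p ℓ) (DerivedCategory.Q.obj (gc p ℓ i k)) := by
  rcases k with (_ | _ | k) | (_ | k)
  · exact perv_g0 h
  · exact perv_g1 h
  · exact perv_zero isZero_Q
  · exact perv_m h
  · exact perv_zero isZero_Q

include h in
lemma pure_gc (hℓ : ℓ ≠ p) (k : ℤ) :
    Pur (Eη p ℓ) (k + 1) (DerivedCategory.Q.obj (gc p ℓ i k)) := by
  rcases k with (_ | _ | k) | (_ | k)
  · exact pure_g0 h
  · exact pure_g1 h hℓ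
  · exact fun H => wt_zero H _ isZero_Q
  · exact pure_m h
  · exact fun H => wt_zero H _ isZero_Q

/-- The monodromy filtration. -/
def monFil : MonFil (geoD (Eη p ℓ) X) (Perv (Eη p ℓ)) (DerivedCategory.Q.obj (C1 κ i))
    (dj (geoM (Eη p ℓ) X) (nc κ i)) where
  M k := DerivedCategory.Q.obj (Mc κ i k)
  perv_M k := perv_Mc κ h k
  inc k := DerivedCategory.Q.map (incc κ i k)
  s k := DerivedCategory.Q.map (sc κ i k)
  s_inc k := by rw [← Functor.map_comp, sc_incc]
  low := ⟨-2, fun k hk => by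
    rcases k with (_ | k) | (_ | k)
    · exact absurd hk (by decide)
    · exact absurd hk (by rw [Int.ofNat_eq_natCast]; omega)
    · exact absurd hk (by decide)
    · exact isZero_Q⟩
  high := ⟨1, fun k hk => by
    rcases k with (_ | k) | (_ | k)
    · exact absurd hk (by decide)
    · exact inferInstanceAs (IsIso (DerivedCategory.Q.map (𝟙 (C1 κ i))))
    · exact absurd hk (by decide)
    · exact absurd hk (by have := Int.negSucc_lt_zero (k + 1); omega)⟩
  gr k := DerivedCategory.Q.obj (gc p ℓ i k)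
  perv_gr k := perv_gc h k
  q k := DerivedCategory.Q.map (qcc κ i k)
  δ k := DerivedCategory.triangleOfSESδ (ses_c κ i k)
  dist k := DerivedCategory.triangleOfSES_distinguished (ses_c κ i k)
  Nk k := dj (geoM (Eη p ℓ) X) (Nkc κ i k)
  Nk_inc k := dj_sq (geoM (Eη p ℓ) X) (Nkc_incc κ i k)
  ν k := dj (geoM (Eη p ℓ) X) (νc p ℓ i k)
  q_ν k := (dj_sq (geoM (Eη p ℓ) X) (qc_νc κ i k).symm).symm
  it a b := dj (geoM (Eη p ℓ) X) (itc p ℓ i a b)
  it_self a := (congrArg (dj (geoM (Eη p ℓ) X)) (itc_self i a)).trans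
    (dj_id (geoM (Eη p ℓ) X) _)
  it_step a b hab := (congrArg (dj (geoM (Eη p ℓ) X)) (itc_step i a b hab)).trans
    (dj_comp (geoM (Eη p ℓ) X) _ _)
  iso j := isIso_dj _ _ (itc_iso i j)

end

end Pool.Agent.H72.MQ
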