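import Pool.Agent.H72.MQ.PosE

open CategoryTheory Limits AlgebraicGeometry TopologicalSpace Opposite Pretriangulated ZeroObject

namespace Pool.Agent.H72.MQ

noncomputable section

open Tw MP

section gT

variable (E : Env) (X : Scheme.{0}) (g : E.G) (hg : E.ρ g = 1)

/-- An element of the group which acts trivially on `S` acts on the inclusion functor. -/
def gT : ex0 E X ⟶ ex0 E X where
  app U :=
    { f := 𝟙 _
      c := ContinuousMap.const _ g
      w := Category.id_comp _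
      h := by
        intro t
        change _ = _ ≫ _ ≫ (E.ρ g).hom
        rw [hg]
        change _ = _ ≫ _ ≫ 𝟙 _
        rw [Category.id_comp, Category.comp_id] }
  naturality {U V} u := by
    refine hom_ext ((Category.comp_id _).trans (Category.id_comp _).symm) (fun t => ?_)
    let w : (⊥ : Subgroup E.G) := u.c t
    have h1 : (w : E.G) = 1 := Subgroup.mem_bot.1 w.2
    change g * (w : E.G) = (w : E.G) * g
    rw [h1, one_mul, mul_one]

/-- The action of `g` on sheaves. -/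
def gN : geoM E X ⟶ geoM E X where
  app M := mdHom (M := (geoM E X).obj M) (N := (geoM E X).obj M)
    (fun U => AddMonoidHom.mk' (rst M.val ((gT E X g hg).app U))
      (rst_add M.val ((gT E X g hg).app U)))
    (fun U r x => rst_smul M.val ((gT E X g hg).app U) r x)
    (fun {U V} u x => by
      change rst M.val ((gT E X g hg).app V) (rst M.val ((ex0 E X).map u) x) =
        rst M.val ((ex0 E X).map u) (rst M.val ((gT E X g hg).app U) x)
      rw [← rst_comp, ← rst_comp, (gT E X g hg).naturality])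
  naturality {M N} f := md_hom_ext (fun U x => (md_nat f ((gT E X g hg).app U) x).symm)

lemma gN_apply (M : Sh E X) (U : Tw E.geo X) (x : M.val.obj (op ((ex0 E X).obj U))) :
    ((gN E X g hg).app M).val.app (op U) x = rst M.val ((gT E X g hg).app U) x := rfl

lemma gN_isAct (h' : E.ρ g⁻¹ = 1) : IsAct E g (gN E X g⁻¹ h') := by
  intro M U v hv x
  have h1 : v = (gT E X g⁻¹ h').app U := hom_ext hv.1 (fun t => hv.2 t)
  rw [h1]
  rfl

end gT

section gTrans

variable {E : Env} {X Y : Scheme.{0}} (i : Y ⟶ X)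

lemma pull_map_f (U : Tw E X) (u : U ⟶ U) (hu : u.f = 𝟙 _) :
    ((pull i).map u).f = 𝟙 _ := by
  refine pullback.hom_ext ?_ ?_
  · refine (pullback.lift_fst _ _ _).trans ?_
    rw [hu]
    exact (Category.comp_id _).trans (Category.id_comp _).symm
  · exact (pullback.lift_snd _ _ _).trans (Category.id_comp _).symm

lemma extMap_const (χ : E.G →* ℚ_[E.ℓ]ˣ) (hχ : Continuous χ) (τ : C(E.G, ℚ_[E.ℓ])) (V : Tw E X)
    (v : V ⟶ V) (hv : v.f = 𝟙 _) (γ : E.G) (hc : ∀ t, v.c t = γ)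
    (x : (Rs E X).obj.obj (op V) × (Rs E X).obj.obj (op V)) :
    extMap χ hχ τ v x = (x.1 - (qc E X).c V (τ γ) * x.2,
      (qc E X).c V ((χ γ⁻¹ : ℚ_[E.ℓ]ˣ) : ℚ_[E.ℓ]) * x.2) := by
  have h1 : ∀ a : (Rs E X).obj.obj (op V), (Rs E X).obj.map v.op a = a := by
    intro a
    refine ULift.down_injective (ContinuousMap.ext fun t => ?_)
    change (show ULift.{1} C(V.T, ℚ_[E.ℓ]) from a).down (v.f t) = _
    rw [hv]
    rfl
  have h2 : tauF τ v.c = ((qc E X).c V (τ γ) : (Rs E X).obj.obj (op V)) := by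
    refine ULift.down_injective (ContinuousMap.ext fun t => ?_)
    exact congrArg τ (hc t)
  have h3 : chiF χ hχ (v.c)⁻¹ =
      ((qc E X).c V ((χ γ⁻¹ : ℚ_[E.ℓ]ˣ) : ℚ_[E.ℓ]) : (Rs E X).obj.obj (op V)) := by
    refine ULift.down_injective (ContinuousMap.ext fun t => ?_)
    change ((χ (v.c t)⁻¹ : ℚ_[E.ℓ]ˣ) : ℚ_[E.ℓ]) = _
    rw [hc]
    rfl
  rw [extMap, h1, h1, h2, h3]

end gTrans

variable {p ℓ : ℕ} [Fact p.Prime] [Fact ℓ.Prime] (κ : Kum p ℓ) {X Y : Scheme.{0}} (i : Y ⟶ X)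

/-- The operator on the underlying sheaf. -/
def L0 : (geoM (Eη p ℓ) X).obj (B1 κ i) ⟶ (geoM (Eη p ℓ) X).obj (B1 κ i) :=
  ((geoM (Eη p ℓ) X).map (bProj κ i) ≫
    (kap (cInv p ℓ) (cInv_continuous p ℓ) (B0 p ℓ i)).hom) ≫ (geoM (Eη p ℓ) X).map (bInc κ i)

lemma nc_f_neg : (nc κ i).f (-1) = 0 := by
  have h : (jm p ℓ i ≫ j0 κ i).f (-1) = 0 := zero_comp
  have h2 : ((Gc p ℓ X).map (jm p ℓ i ≫ j0 κ i)).f (-1) = 0 :=
    (congrArg (geoM (Eη p ℓ) X).map h).trans ((geoM (Eη p ℓ) X).map_zero _ _)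
  exact (congrArg (fun z => (nm κ i).f (-1) ≫ z) h2).trans comp_zero

lemma nc_f_zero : (nc κ i).f 0 = L0 κ i := by
  change ((geoM (Eη p ℓ) X).map (bProj κ i) ≫ (𝟙 _ ≫
    (kap (cInv p ℓ) (cInv_continuous p ℓ) (B0 p ℓ i)).hom ≫ 𝟙 _)) ≫
      (geoM (Eη p ℓ) X).map (𝟙 _ ≫ bInc κ i) = _
  rw [Category.id_comp, Category.comp_id, Category.id_comp, L0]

lemma nc_sq : nc κ i ≫ nc κ i = 0 := by
  have h : (Gc p ℓ X).map (jm p ℓ i ≫ j0 κ i) ≫ nc κ i = 0 := by
    rw [Functor.map_comp, Category.assoc, j0_nc, comp_zero]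
  refine (congrArg (fun z => z ≫ nc κ i) (nc.eq_1 κ i)).trans ?_
  rw [Category.assoc, h, comp_zero]

/-- The pull-back of an object of the site of the geometric fibre. -/
abbrev iU (U : Tw (Eη p ℓ).geo X) : Tw (Eη p ℓ) Y := (pull i).obj ((ex0 (Eη p ℓ) X).obj U)

/-- Sections of `ℚ_ℓ` over the base change of `U`. -/
abbrev SecU (U : Tw (Eη p ℓ).geo X) : Type 1 := (Rs (Eη p ℓ) Y).obj.obj (op (iU i U))

lemma L0_apply (U : Tw (Eη p ℓ).geo X) (x : SecU i U × SecU i U) :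
    (L0 κ i).val.app (op U) x = ((x.2, 0) : SecU i U × SecU i U) := rfl

lemma rho_eq_one (g : Gη p) (hg : (Eη p ℓ).ρ g = 1) : MP.ρη p g = 1 := by
  have h1 : (specAut (resAct (OO p) (mem_dec p) g)).inv = 𝟙 _ :=
    congrArg (fun z : Aut (Spec (.of (kb p))) => z.inv) hg
  refine RingEquiv.ext fun x => ?_
  rw [← resAct_eq]
  have h2 : CommRingCat.ofHom (resAct (OO p) (mem_dec p) g).toRingHom = 𝟙 _ :=
    Spec.map_injective (h1.trans (Spec.map_id _).symm)
  exact congrArg (fun f : CommRingCat.of (kb p) ⟶ CommRingCat.of (kb p) => f.hom x) h2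

lemma t_inv (hℓ : ℓ ≠ p) (g : Gη p) (hg : MP.ρη p g = 1) : κ.t g⁻¹ = - κ.t g := by
  have h1 : κ.t (g * g⁻¹) = _ := κ.toMP.cocycle g g⁻¹
  have h2 : κ.t (1 * 1) = _ := κ.toMP.cocycle 1 1
  rw [mul_inv_cancel, MP.cyc_inertia p ℓ hℓ g hg] at h1
  rw [mul_one, map_one] at h2
  simp only [Units.val_one, one_mul] at h1 h2
  have h3 : κ.t 1 = 0 := by
    have h4 : κ.toMP.t 1 = κ.t 1 := rfl
    rw [h4] at h2
    simpa using h2
  have h4 : κ.toMP.t g = κ.t g := rfl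
  have h5 : κ.toMP.t g⁻¹ = κ.t g⁻¹ := rfl
  rw [h3, h4, h5] at h1
  exact (neg_eq_of_add_eq_zero_right h1.symm).symm

lemma cycInv_inertia (hℓ : ℓ ≠ p) (g : Gη p) (hg : MP.ρη p g = 1) : MP.cycInv p ℓ g = 1 := by
  rw [MP.cycInv]
  simp [MP.cyc_inertia p ℓ hℓ g hg]

end

end Pool.Agent.H72.MQ
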