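import Pool.Agent.H72.MQ.PosF

open CategoryTheory Limits AlgebraicGeometry TopologicalSpace Opposite Pretriangulated ZeroObject

namespace Pool.Agent.H72.MQ

noncomputable section

open Tw MP

variable {p ℓ : ℕ} [Fact p.Prime] [Fact ℓ.Prime] (κ : Kum p ℓ) {X Y : Scheme.{0}} (i : Y ⟶ X)

lemma rho_inv (g : (Eη p ℓ).G) (hg : (Eη p ℓ).ρ g = 1) : (Eη p ℓ).ρ g⁻¹ = 1 := by
  rw [map_inv, hg, inv_one]

/-- The action of inertia on sheaves. -/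
abbrev gA (p ℓ : ℕ) [Fact p.Prime] [Fact ℓ.Prime] (X : Scheme.{0}) (g : (Eη p ℓ).G)
    (hg : (Eη p ℓ).ρ g = 1) : geoM (Eη p ℓ) X ⟶ geoM (Eη p ℓ) X :=
  gN (Eη p ℓ) X g⁻¹ (rho_inv g hg)

lemma gA_unit (g : (Eη p ℓ).G) (hg : (Eη p ℓ).ρ g = 1) :
    (gA p ℓ X g hg).app (OE p ℓ X) = 𝟙 _ :=
  md_hom_ext (fun _ _ => rfl)

lemma gA_B1 (hℓ : ℓ ≠ p) (g : (Eη p ℓ).G) (hg : (Eη p ℓ).ρ g = 1) :
    (gA p ℓ X g hg).app (B1 κ i) = 𝟙 _ + (κ.tq g) • L0 κ i := by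
  refine md_hom_ext (fun U x => ?_)
  let x' : SecU i U × SecU i U := x
  have h1 := extMap_const (cInv p ℓ) (cInv_continuous p ℓ) (kumC κ)
    (iU i U) ((pull i).map ((gT (Eη p ℓ) X g⁻¹ (rho_inv g hg)).app U))
    (pull_map_f i _ _ rfl) g⁻¹ (fun t => rfl) x'
  refine Eq.trans h1 ?_
  have h2 : (𝟙 _ + (κ.tq g) • L0 κ i).val.app (op U) x =
      x + (L0 κ i).val.app (op U) ((qc (Eη p ℓ).geo X).c U (κ.tq g) • x) := rfl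
  have h3 : (L0 κ i).val.app (op U) ((qc (Eη p ℓ).geo X).c U (κ.tq g) • x) =
      (((qc (Eη p ℓ) Y).c (iU i U) (κ.tq g) * x'.2, 0) : SecU i U × SecU i U) := rfl
  refine Eq.trans ?_ h2.symm
  rw [h3]
  have hg' := rho_eq_one g hg
  have e1 : (kumC κ) g⁻¹ = - κ.tq g := by
    change ((κ.t (show Gη p from g)⁻¹ : ℤ_[ℓ]) : ℚ_[ℓ]) = - ((κ.t g : ℤ_[ℓ]) : ℚ_[ℓ])
    rw [t_inv κ hℓ g hg', PadicInt.coe_neg]
  have e2 : cInv p ℓ g = 1 := cycInv_inertia hℓ g hg'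
  rw [e1, inv_inv, e2]
  refine Prod.ext ?_ ?_
  · change x'.1 - (qc (Eη p ℓ) Y).c (iU i U) (- κ.tq g) * x'.2 =
      x'.1 + (qc (Eη p ℓ) Y).c (iU i U) (κ.tq g) * x'.2
    rw [map_neg, neg_mul, sub_neg_eq_add]
  · change (qc (Eη p ℓ) Y).c (iU i U) (((1 : ℚ_[(Eη p ℓ).ℓ]ˣ) : ℚ_[(Eη p ℓ).ℓ])) * x'.2 = x'.2 + 0
    rw [Units.val_one, map_one, one_mul, add_zero]

lemma gA_cx (hℓ : ℓ ≠ p) (g : (Eη p ℓ).G) (hg : (Eη p ℓ).ρ g = 1) :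
    (NatTrans.mapHomologicalComplex (gA p ℓ X g hg) (ComplexShape.up ℤ)).app (C1 κ i) =
      𝟙 _ + (κ.tq g) • nc κ i := by
  refine map_two_hom_ext _ ?_ ?_
  · change (gA p ℓ X g hg).app (OE p ℓ X) = 𝟙 _ + (κ.tq g) • (nc κ i).f (-1)
    rw [nc_f_neg, gA_unit, smul_zero]
    exact (add_zero (𝟙 ((geoM (Eη p ℓ) X).obj (OE p ℓ X)))).symm
  · change (gA p ℓ X g hg).app (B1 κ i) = 𝟙 _ + (κ.tq g) • (nc κ i).f 0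
    rw [nc_f_zero, gA_B1 κ i hℓ g hg]
    rfl

lemma isLog (hℓ : ℓ ≠ p) : IsLog (Eη p ℓ) κ.tq (DerivedCategory.Q.obj (C1 κ i))
    (dj (geoM (Eη p ℓ) X) (nc κ i)) := by
  refine ⟨2, cj_sq (geoM (Eη p ℓ) X) _ (nc_sq κ i), ⊤, isOpen_univ, fun g _ hg =>
    ⟨gA p ℓ X g hg, gN_isAct (Eη p ℓ) X g (rho_inv g hg), ?_⟩⟩
  have h1 := nat_cj (geoM (Eη p ℓ) X) (K := C1 κ i) (gA p ℓ X g hg)
  rw [gA_cx κ i hℓ g hg] at h1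
  exact h1.trans (cj_exp (geoM (Eη p ℓ) X) _ _)

end

end Pool.Agent.H72.MQ
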