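import Mathlib

open CategoryTheory Limits AlgebraicGeometry TopologicalSpace Opposite

namespace Pool.Agent.H72.MQ

noncomputable section

/-- Continuous maps from the space of a scheme. -/
abbrev CM (T : Scheme.{0}) (G : Type) [TopologicalSpace G] : Type := C(T, G)

/-- The constant map with value one. -/
abbrev CM.one (T : Scheme.{0}) (G : Type) [Group G] [TopologicalSpace G] : C(T, G) := 1

/-- Composition of twists. -/
abbrev CM.mul {G : Type} [Group G] [TopologicalSpace G] [IsTopologicalGroup G]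
    {U V : Scheme.{0}} (f : U ⟶ V) (c : C(U, G)) (d : C(V, G)) : C(U, G) :=
  ContinuousMap.comp d ⟨f, f.continuous⟩ * c

/-- The morphism `f : U ⟶ V` is compatible with the morphisms `a : U ⟶ S` and `b : V ⟶ S` up to
the twist `c : U ⟶ G`. -/
def IsTw {G : Type} [Group G] [TopologicalSpace G] {S : Scheme.{0}} (ρ : G →* Aut S)
    {U V : Scheme.{0}} (a : U ⟶ S) (b : V ⟶ S) (f : U ⟶ V) (c : C(U, G)) : Prop :=
  ∀ t : U, U.fromSpecStalk t ≫ f ≫ b = U.fromSpecStalk t ≫ a ≫ (ρ (c t)).hom

/-- A number `p`, the coefficients `ℚ_ℓ` and a topological group `G` acting on a scheme `S`. -/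
structure Env : Type 1 where
  p : ℕ
  ℓ : ℕ
  [hℓ : Fact ℓ.Prime]
  S : Scheme.{0}
  G : Type
  [gr : Group G]
  [tp : TopologicalSpace G]
  [tg : IsTopologicalGroup G]
  ρ : G →* Aut S

attribute [instance] Env.hℓ Env.gr Env.tp Env.tg

end

end Pool.Agent.H72.MQ
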