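import Pool.Agent.H72.MQ.P0

open CategoryTheory Limits AlgebraicGeometry TopologicalSpace Opposite

namespace Pool.Agent.H72.MQ

noncomputable section

/-- Objects of the twisted pro-etale site of `X`. -/
structure Tw (E : Env) (X : Scheme.{0}) : Type 1 where
  T : Scheme.{0}
  π : T ⟶ X
  we : WeaklyEtale π
  a : T ⟶ E.S

namespace Tw

variable {E : Env} {X : Scheme.{0}}

/-- Twisted morphisms. -/
structure Hom (U V : Tw E X) : Type 1 where
  f : U.T ⟶ V.T
  c : CM U.T E.G
  w : f ≫ V.π = U.π
  h : IsTw E.ρ U.a V.a f c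

theorem Hom.ext' {U V : Tw E X} {u v : Hom U V} (h1 : u.f = v.f) (h2 : ∀ t, u.c t = v.c t) :
    u = v := by
  cases u; cases v
  simp only at h1 h2
  subst h1
  congr
  ext t
  exact h2 t

theorem id_tw (U : Tw E X) : IsTw E.ρ U.a U.a (𝟙 U.T) (CM.one U.T E.G) := IsTwF.id _

/-- The identity. -/
def idH (U : Tw E X) : Hom U U := ⟨𝟙 U.T, CM.one U.T E.G, Category.id_comp _, id_tw U⟩

theorem comp_tw {U V W : Tw E X} (u : Hom U V) (v : Hom V W) :
    IsTw E.ρ U.a W.a (u.f ≫ v.f) (CM.mul u.f u.c v.c) := IsTwF.comp u.h v.h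

theorem comp_w {U V W : Tw E X} (u : Hom U V) (v : Hom V W) : (u.f ≫ v.f) ≫ W.π = U.π := by
  rw [Category.assoc, v.w, u.w]

/-- The composition. -/
def compH {U V W : Tw E X} (u : Hom U V) (v : Hom V W) : Hom U W :=
  ⟨u.f ≫ v.f, CM.mul u.f u.c v.c, comp_w u v, comp_tw u v⟩

theorem id_compH {U V : Tw E X} (u : Hom U V) : compH (idH U) u = u :=
  Hom.ext' (Category.id_comp _) (fun t => mul_one (u.c t))

theorem comp_idH {U V : Tw E X} (u : Hom U V) : compH u (idH V) = u :=
  Hom.ext' (Category.comp_id _) (fun t => one_mul (u.c t))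

theorem assocH {U V W Z : Tw E X} (u : Hom U V) (v : Hom V W) (w : Hom W Z) :
    compH (compH u v) w = compH u (compH v w) :=
  Hom.ext' (Category.assoc _ _ _) (fun t => (mul_assoc (w.c (v.f (u.f t))) _ _).symm)

instance : Category (Tw E X) where
  Hom := Hom
  id := idH
  comp := compH
  id_comp := id_compH
  comp_id := comp_idH
  assoc := assocH

variable (E X) in
/-- The forgetful functor to schemes. -/
def forget : Tw E X ⥤ Scheme.{0} where
  obj := T
  map := Hom.f

variable (E X) in
/-- The pro-etale topology of the twisted site: a family is covering if the underlying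
family of schemes is. -/
def topo : GrothendieckTopology (Tw E X) :=
  (Scheme.proetalePrecoverage.comap (forget E X)).toGrothendieck

end Tw

end

end Pool.Agent.H72.MQ
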