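import Pool.Agent.H72.MQ.S1

open CategoryTheory Limits AlgebraicGeometry TopologicalSpace Opposite

namespace Pool.Agent.H72.MQ

noncomputable section

/-- Restriction of a twist to a subset of a group. -/
abbrev CM.incl {G : Type} [Group G] [TopologicalSpace G] (H : Subgroup G) {T : Scheme.{0}}
    (c : C(T, H)) : C(T, G) := ContinuousMap.comp ⟨H.subtype, continuous_subtype_val⟩ c

theorem bcm_w {U V Y X : Scheme.{0}} {f : X ⟶ Y} {πU : U ⟶ Y} {πV : V ⟶ Y} {u : U ⟶ V}
    (h : u ≫ πV = πU) : (pullback.fst πU f ≫ u) ≫ πV = pullback.snd πU f ≫ f := pull_w h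

/-- The comparison of two base changes. -/
def bcm {U V Y X : Scheme.{0}} (f : X ⟶ Y) {πU : U ⟶ Y} {πV : V ⟶ Y} {u : U ⟶ V}
    (h : u ≫ πV = πU) : pullback πU f ⟶ pullback πV f :=
  pullback.lift (pullback.fst πU f ≫ u) (pullback.snd πU f) (bcm_w h)

/-- Pull-back of a twist. -/
abbrev CM.pull {G : Type} [TopologicalSpace G] {U Y X : Scheme.{0}} (f : X ⟶ Y) (π : U ⟶ Y)
    (c : C(U, G)) : CM (pullback π f) G :=
  ContinuousMap.comp c ⟨pullback.fst π f, (pullback.fst π f).continuous⟩

/-- The restriction of the group to a subgroup. -/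
def Env.sub (E : Env) (H : Subgroup E.G) : Env :=
  { p := E.p, ℓ := E.ℓ, S := E.S, G := H, ρ := E.ρ.comp H.subtype }

namespace Tw

variable {E : Env} {X Y : Scheme.{0}}

theorem bcObj_we (f : X ⟶ Y) (U : Tw E Y) : WeaklyEtale (pullback.snd U.π f) := by
  have := U.we
  infer_instance

/-- Base change. -/
def bcObj (f : X ⟶ Y) (U : Tw E Y) : Tw E X :=
  ⟨pullback U.π f, pullback.snd U.π f, bcObj_we f U, pullback.fst U.π f ≫ U.a⟩

theorem bcMap_w (f : X ⟶ Y) {U V : Tw E Y} (u : Hom U V) :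
    bcm f u.w ≫ (bcObj f V).π = (bcObj f U).π := pullback.lift_snd _ _ _

theorem bcMap_h (f : X ⟶ Y) {U V : Tw E Y} (u : Hom U V) :
    IsTw E.ρ (bcObj f U).a (bcObj f V).a (bcm f u.w) (CM.pull f U.π u.c) :=
  twf_pull u.w u.h

/-- Base change of a morphism. -/
def bcMap (f : X ⟶ Y) {U V : Tw E Y} (u : Hom U V) : Hom (bcObj f U) (bcObj f V) :=
  ⟨bcm f u.w, CM.pull f U.π u.c, bcMap_w f u, bcMap_h f u⟩

theorem bcMap_id (f : X ⟶ Y) (U : Tw E Y) : bcMap f (idH U) = idH (bcObj f U) := by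
  refine Hom.ext' ?_ (fun t => rfl)
  refine pullback.hom_ext ?_ ?_
  · exact (pullback.lift_fst _ _ _).trans ((Category.comp_id _).trans (Category.id_comp _).symm)
  · exact (pullback.lift_snd _ _ _).trans (Category.id_comp _).symm

theorem bcMap_comp (f : X ⟶ Y) {U V W : Tw E Y} (u : Hom U V) (v : Hom V W) :
    bcMap f (compH u v) = compH (bcMap f u) (bcMap f v) := by
  refine Hom.ext' ?_ (fun t => ?_)
  · refine pullback.hom_ext ?_ ?_
    · refine (pullback.lift_fst _ _ _).trans ?_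
      refine Eq.trans ?_ (Category.assoc _ _ _).symm
      refine Eq.trans ?_ (congrArg (fun z => bcm f u.w ≫ z) (pullback.lift_fst _ _ _).symm)
      refine Eq.trans ?_ (Category.assoc _ _ _)
      refine Eq.trans ?_ (congrArg (fun z => z ≫ v.f) (pullback.lift_fst _ _ _).symm)
      exact (Category.assoc _ _ _).symm
    · refine (pullback.lift_snd _ _ _).trans ?_
      refine Eq.trans ?_ (Category.assoc _ _ _).symm
      refine Eq.trans ?_ (congrArg (fun z => bcm f u.w ≫ z) (pullback.lift_snd _ _ _).symm)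
      exact (pullback.lift_snd _ _ _).symm
  · change v.c (u.f (pullback.fst U.π f t)) * u.c (pullback.fst U.π f t) =
      v.c (pullback.fst V.π f (pullback.lift (pullback.fst U.π f ≫ u.f)
        (pullback.snd U.π f) (pull_w u.w) t)) * u.c (pullback.fst U.π f t)
    rw [lift_fst_pt]
    rfl

/-- The base change functor. -/
def pull (f : X ⟶ Y) : Tw E Y ⥤ Tw E X where
  obj := bcObj f
  map := bcMap f
  map_id := bcMap_id f
  map_comp := bcMap_comp f

/-- Extension of the group. -/
def exObj {H : Subgroup E.G} (U : Tw (E.sub H) X) : Tw E X := ⟨U.T, U.π, U.we, U.a⟩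

/-- Extension of the group. -/
def exMap {H : Subgroup E.G} {U V : Tw (E.sub H) X} (u : Hom U V) :
    Hom (exObj U) (exObj V) := ⟨u.f, CM.incl H u.c, u.w, u.h⟩

variable (E X) in
/-- The functor defined by a subgroup. -/
def ex (H : Subgroup E.G) : Tw (E.sub H) X ⥤ Tw E X where
  obj := exObj
  map := exMap
  map_id _ := rfl
  map_comp _ _ := rfl

end Tw

end

end Pool.Agent.H72.MQ
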