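import Pool.Agent.H72.MQ.P1

open CategoryTheory Limits AlgebraicGeometry TopologicalSpace Opposite

namespace Pool.Agent.H72.MQ

noncomputable section

/-- Composition with a continuous map. -/
def cfMap (R : Type) [CommSemiring R] [TopologicalSpace R] [IsTopologicalSemiring R]
    {T T' : Type} [TopologicalSpace T] [TopologicalSpace T'] (f : C(T, T')) :
    ULift.{1} C(T', R) →+* ULift.{1} C(T, R) where
  toFun φ := ⟨φ.down.comp f⟩
  map_one' := rfl
  map_mul' _ _ := rfl
  map_zero' := rfl
  map_add' _ _ := rfl

set_option linter.overlappingInstances false in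
/-- The rings of continuous functions with values in `R`. -/
def Rg (R : Type) [CommRing R] [TopologicalSpace R] [IsTopologicalRing R]
    [IsTopologicalSemiring R] : TopCat.{0}ᵒᵖ ⥤ RingCat.{1} where
  obj T := RingCat.of (ULift.{1} C(T.unop, R))
  map u := RingCat.ofHom (cfMap R u.unop.hom)

namespace Tw

variable (E : Env) (X : Scheme.{0})

/-- The presheaf of rings of continuous `ℚ_ℓ`-valued functions. -/
def ringP : (Tw E X)ᵒᵖ ⥤ RingCat.{1} := (forget E X ⋙ Scheme.forgetToTop).op ⋙ Rg ℚ_[E.ℓ]

end Tw

end

end Pool.Agent.H72.MQ
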