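import Pool.Agent.H72.MQ.P3
import Pool.Agent.H72.MP.Groth

open CategoryTheory Limits AlgebraicGeometry TopologicalSpace Opposite

namespace Pool.Agent.H72.MQ

noncomputable section

theorem has_sheafify {C : Type 1} [SmallCategory C] (J : GrothendieckTopology C) :
    HasSheafify J AddCommGrpCat.{1} := inferInstance

theorem we_lb {C : Type 1} [SmallCategory C] (J : GrothendieckTopology C) :
    J.WEqualsLocallyBijective AddCommGrpCat.{1} := inferInstance

namespace Tw

variable (E : Env) (X : Scheme.{0})

theorem ringP_sheaf : Presheaf.IsSheaf (topo E X) (ringP E X) := ringP_isSheaf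

/-- The sheaf of rings `ℚ_ℓ`. -/
def Rs : Sheaf (topo E X) RingCat.{1} := ⟨ringP E X, ringP_sheaf E X⟩

end Tw

variable (E : Env) (X : Scheme.{0})

/-- The category of sheaves of `ℚ_ℓ`-modules on the twisted site of `X`. -/
abbrev Sh : Type 2 := SheafOfModules.{1} (Tw.Rs E X)

instance Sh.cat : Category.{1} (Sh E X) := SheafOfModules.instCategory

instance Sh.ab : Abelian (Sh E X) :=
  @SheafOfModules.instAbelian _ _ _ (Tw.Rs E X) (has_sheafify _) (we_lb _)

instance Sh.der : HasDerivedCategory.{2} (Sh E X) := HasDerivedCategory.standard _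

instance Sh.inj : EnoughInjectives (Sh E X) := inferInstance

end

end Pool.Agent.H72.MQ
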