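import Pool.Agent.H72.MQ.S4
import Pool.Agent.H72.MQ.G0
import Pool.Agent.H72.MQ.G1

open CategoryTheory Limits AlgebraicGeometry TopologicalSpace Opposite

namespace Pool.Agent.H72.MQ

noncomputable section

/-- The functor defined by a continuous functor `F` of sites and a morphism `t` from the sheaf of
rings `S` to the restriction of `R` along `F`. -/
def pfw {C D : Type 1} [SmallCategory C] [SmallCategory D] {J : GrothendieckTopology C}
    {K : GrothendieckTopology D} (F : C ⥤ D) (hF : F.IsContinuous J K)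
    (S : Sheaf J RingCat.{1}) (R : Sheaf K RingCat.{1}) (t : S.obj ⟶ F.op ⋙ R.obj) :
    SheafOfModules.{1} R ⥤ SheafOfModules.{1} S :=
  SheafOfModules.pushforward.{1} (F := F)
    (⟨t⟩ : S ⟶ (F.sheafPushforwardContinuous RingCat.{1} J K).obj R)

namespace Tw

variable {E : Env} {X Y : Scheme.{0}}

theorem pfst_nat (f : X ⟶ Y) {U V : Tw E Y} (u : U ⟶ V) :
    bcm f u.w ≫ pullback.fst V.π f = pullback.fst U.π f ≫ u.f := pullback.lift_fst _ _ _

/-- The projection from the base change. -/
def pfst (f : X ⟶ Y) : pull f ⋙ forget E X ⟶ forget E Y :=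
  { app := fun U => pullback.fst U.π f, naturality := fun _ _ u => pfst_nat f u }

/-- The comparison of the rings of functions under base change. -/
def rpull (f : X ⟶ Y) : ringP E Y ⟶ (pull f).op ⋙ ringP E X :=
  Functor.whiskerRight (NatTrans.op (Functor.whiskerRight (pfst f) Scheme.forgetToTop))
    (Rg ℚ_[E.ℓ])

theorem pull_cont (f : X ⟶ Y) : (pull (E := E) f).IsContinuous (topo E Y) (topo E X) :=
  pull_continuous f

variable (E X) in
theorem ex_cont (H : Subgroup E.G) : (ex E X H).IsContinuous (topo (E.sub H) X) (topo E X) :=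
  ex_continuous H

variable (E X) in
/-- The comparison of the rings of functions when the group is restricted. -/
def rex (H : Subgroup E.G) : ringP (E.sub H) X ⟶ (ex E X H).op ⋙ ringP E X :=
  𝟙 (ringP (E.sub H) X)

end Tw

variable (E : Env) {X Y : Scheme.{0}}

/-- The direct image of sheaves. -/
def push (f : X ⟶ Y) : Sh E X ⥤ Sh E Y :=
  pfw (Tw.pull f) (Tw.pull_cont f) (Tw.Rs E Y) (Tw.Rs E X) (Tw.rpull f)

variable (X) in
/-- The restriction of the group to a subgroup. -/
def res (H : Subgroup E.G) : Sh E X ⥤ Sh (E.sub H) X :=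
  pfw (Tw.ex E X H) (Tw.ex_cont E X H) (Tw.Rs (E.sub H) X) (Tw.Rs E X) (Tw.rex E X H)

end

end Pool.Agent.H72.MQ
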