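import Pool.Agent.H72.MQ.P5

open CategoryTheory Limits AlgebraicGeometry TopologicalSpace Opposite

namespace Pool.Agent.H72.MQ

noncomputable section

/-! ### Weil numbers -/

/-- A Weil number: algebraic over `ℚ`, all of whose complex conjugates have absolute value
`q ^ (v / 2)`. -/
def IsWeil (ℓ : ℕ) [Fact ℓ.Prime] (q : ℕ) (v : ℤ) (x : AlgebraicClosure ℚ_[ℓ]) : Prop :=
  IsAlgebraic ℚ x ∧ ∀ z : ℂ, Polynomial.aeval z (minpoly ℚ x) = 0 → ‖z‖ ^ 2 = (q : ℝ) ^ v

/-- A nonzero polynomial all of whose roots are Weil numbers. -/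
def WeilPoly (ℓ : ℕ) [Fact ℓ.Prime] (q : ℕ) (v : ℤ) (P : Polynomial ℚ_[ℓ]) : Prop :=
  P ≠ 0 ∧ ∀ x : AlgebraicClosure ℚ_[ℓ], Polynomial.aeval x P = 0 → IsWeil ℓ q v x

/-- The global functions are raised to the power `p`. -/
def IsFrob (p : ℕ) {S : Scheme.{0}} (φ : S ⟶ S) : Prop := ∀ x : Γ(S, ⊤), φ.appTop.hom x = x ^ p

/-- Smooth schemes over `𝔽_p`. -/
def SmoothOver (p : ℕ) (Z : Scheme.{0}) : Prop := ∃ s : Z ⟶ Spec (.of (ZMod p)), Smooth s

/-- The points of the source which are mapped to the boundary of the image of `i` do not exist. -/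
def Off {Z X T : Type} [TopologicalSpace X] (i : Z → X) (π : T → X) : Prop :=
  ∀ t : T, π t ∉ closure (Set.range i) \ Set.range i

/-- The map on points. -/
abbrev pts {X Y : Scheme.{0}} (f : X ⟶ Y) : X → Y := f

/-- The constant functions. -/
def cfConst (R : Type) [CommSemiring R] [TopologicalSpace R] [IsTopologicalSemiring R] (T : Type)
    [TopologicalSpace T] : R →+* ULift.{1} C(T, R) := algebraMap R (ULift.{1} C(T, R))

section

variable (R : Type) [CommRing R] [TopologicalSpace R] [IsTopologicalRing R]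
    [IsTopologicalSemiring R]

set_option linter.overlappingInstances false in
theorem cf_nat {T T' : TopCat.{0}} (u : T' ⟶ T) (a : R) :
    ((Rg R).map u.op).hom (cfConst R T a) = cfConst R T' a := rfl

set_option linter.overlappingInstances false in
theorem cf_comm (T : TopCat.{0}) (a : R) (r : (Rg R).obj (op T)) :
    r * (show (Rg R).obj (op T) from cfConst R T a) = (show (Rg R).obj (op T) from cfConst R T a) * r :=
  mul_comm (show ULift.{1} C(T, R) from r) (cfConst R T a)

set_option linter.overlappingInstances false in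
/-- The constants in the rings of functions. -/
def cstRg : Cst R (Rg R) := ⟨fun T => cfConst R T, cf_nat R, cf_comm R⟩

end

section

variable (E : Env) (X : Scheme.{0})

/-- The constants in the sheaf of rings `ℚ_ℓ`. -/
def qc : Cst ℚ_[E.ℓ] (Tw.Rs E X).obj := (cstRg ℚ_[E.ℓ]).comap (Tw.forget E X ⋙ Scheme.forgetToTop)

instance Sh.lin : CategoryTheory.Linear ℚ_[E.ℓ] (Sh E X) := (qc E X).lin

/-- The trivial subgroup: the site of the geometric fibre. -/
abbrev Env.geo (E : Env) : Env := E.sub ⊥

instance Sh.lin' : CategoryTheory.Linear ℚ_[E.ℓ] (Sh E.geo X) := Sh.lin E.geo X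

end

variable (E : Env) {X Y : Scheme.{0}}

instance push_add (f : X ⟶ Y) : (push E f).Additive := push_additive E f
instance res_add (H : Subgroup E.G) : (res E X H).Additive := res_additive E H
instance res_lim (H : Subgroup E.G) : PreservesFiniteLimits (res E X H) := res_lim' E H
instance res_colim (H : Subgroup E.G) : PreservesFiniteColimits (res E X H) := res_colim' E H

variable (X) in
/-- The derived category. -/
abbrev D : Type 2 := DerivedCategory (Sh E X)

variable (X) in
/-- The restriction of the group to a subgroup, on complexes. -/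
def resD (H : Subgroup E.G) : D E X ⥤ D (E.sub H) X := (res E X H).mapDerivedCategory

variable (X) in
/-- Forgetting the action of the group. -/
abbrev geoM : Sh E X ⥤ Sh E.geo X := res E X ⊥

variable (X) in
/-- Forgetting the action of the group, on complexes. -/
abbrev geoD : D E X ⥤ D E.geo X := resD E X ⊥

/-- The underlying complex on the geometric fibre. -/
abbrev geoO (K : D E X) : D E.geo X := (geoD E X).obj K

/-- The restriction of the group to a subgroup, on complexes. -/
abbrev resO (H : Subgroup E.G) (K : D E X) : D (E.sub H) X := (resD E X H).obj K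

/-! ### Perverse sheaves -/

/-- `M` is the extension by zero of `L` along the immersion `i`: the subsheaf of the direct
image of the sections which vanish locally near the boundary. -/
def IsExt {Z : Scheme.{0}} (i : Z ⟶ X) (L : Sh E Z) (M : Sh E X) : Prop :=
  IsSubOff ((push E i).obj L) M (fun U => Off (pts i) (pts U.π))

/-- The complexes generated by the extensions by zero of lisse sheaves `L` on locally closed
subschemes `Z`, placed in degree `j`, such that `Q Z L j` holds. -/
def GenL (Q : ∀ Z : Scheme.{0}, Sh E Z → ℤ → Prop) (K : D E X) : Prop :=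
  DCl (fun K => ∃ (Z : Scheme.{0}) (i : Z ⟶ X) (_ : IsImmersion i) (L : Sh E Z) (M : Sh E X)
    (j : ℤ), LocFree L ∧ IsExt E i L M ∧ Q Z L j ∧ IsSgl M j K) K

/-- The complexes generated by the derived direct images of lisse sheaves `L` on smooth
locally closed subschemes `Z`, placed in degree `j`, such that `Q Z L j` holds. -/
def GenR (Q : ∀ Z : Scheme.{0}, Sh E Z → ℤ → Prop) (K : D E X) : Prop :=
  DCl (fun K => ∃ (Z : Scheme.{0}) (i : Z ⟶ X) (_ : IsImmersion i) (_ : SmoothOver E.p Z)
    (L : Sh E Z) (j : ℤ), LocFree L ∧ Q Z L j ∧ IsRF (push E i) L j K) K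

/-- Bounded constructible complexes. -/
def Dbc (K : D E X) : Prop := GenL E (fun _ _ _ => True) K

/-- The aisle `≤ m` of the perverse t-structure. -/
def PLE (m : ℤ) (K : D E X) : Prop :=
  GenL E (fun Z _ j => ∃ d : ℕ, topologicalKrullDim Z ≤ d ∧ j + d ≤ m) K

/-- The coaisle `≥ m` of the perverse t-structure. -/
def PGE (m : ℤ) (K : D E X) : Prop :=
  GenR E (fun Z _ j => IrreducibleSpace Z ∧
    ∃ d : ℕ, (d : WithBot ℕ∞) ≤ topologicalKrullDim Z ∧ m ≤ j + d) K

/-- Perverse sheaves. -/
def Perv (K : D E X) : Prop := PLE E 0 K ∧ PGE E 0 K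

/-! ### Weights -/

/-- Geometric points: all coverings of `U` are trivial and the structure morphism to `S` has a
section (that is, `U` is the strict henselisation at a geometric point with values in `S`; the
sections over `U` are the stalk at this geometric point). -/
def IsPt (U : Tw E X) : Prop := (∀ R ∈ Tw.topo E X U, R = ⊤) ∧ ∃ z : E.S ⟶ U.T, z ≫ U.a = 𝟙 E.S

/-- Pointwise purity: for the elements `φ` of the group which act as the (arithmetic) Frobenius
of `S`, the action of (the inverse of) `φ ^ n` on the stalks is annihilated by a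
polynomial whose roots are Weil numbers of weight `v`. -/
def PP (v : ℤ) (L : Sh E X) : Prop :=
  ∀ U : Tw E X, IsPt E U → ∀ φ : E.G, IsFrob E.p (E.ρ φ).inv → ∀ n : ℕ, 0 < n → ∀ u : U ⟶ U,
    (∀ t, Tw.Hom.c u t = φ ^ n) → ∃ P, WeilPoly E.ℓ (E.p ^ n) v P ∧ (qc E X).Ann L u P

/-- Weights `≤ w`. -/
def WLE (w : ℤ) (K : D E X) : Prop := GenL E (fun _ L j => ∃ v, PP E v L ∧ v ≤ w + j) K

/-- Weights `≥ w`. -/
def WGE (w : ℤ) (K : D E X) : Prop := GenR E (fun _ L j => ∃ v, PP E v L ∧ w + j ≤ v) K

/-- Mixed complexes. -/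
def Mixed (K : D E X) : Prop := GenL E (fun _ L _ => ∃ v, PP E v L) K

/-- The closed subgroups which are mapped bijectively to the automorphism group of `S`. -/
def IsSec (H : Subgroup E.G) : Prop :=
  IsClosed (H : Set E.G) ∧ Function.Bijective (E.sub H).ρ

/-! ### Monodromy -/

/-- `v` is the endomorphism defined by `g`. -/
def IsEnd (g : E.G) {U : Tw E X} (v : U ⟶ U) : Prop :=
  Tw.Hom.f v = 𝟙 U.T ∧ ∀ t, Tw.Hom.c v t = g

variable (X) in
/-- The inclusion of the site of the geometric fibre. -/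
abbrev ex0 : Tw E.geo X ⥤ Tw E X := Tw.ex E X ⊥

variable (X) in
theorem ex0_cont : (ex0 E X).IsContinuous (Tw.topo E.geo X) (Tw.topo E X) := Tw.ex_cont E X ⊥

variable (X) in
/-- The comparison of the rings of functions. -/
abbrev rex0 : Tw.ringP E.geo X ⟶ (ex0 E X).op ⋙ Tw.ringP E X := Tw.rex E X ⊥

/-- The natural transformation `τ` is the action of `g`. -/
def IsAct (g : E.G) (τ : FEnd (geoM E X)) : Prop :=
  @IsActBy _ _ _ (Tw.Rs E.geo X) _ _ _ (ex0 E X) (ex0_cont E X) (Tw.Rs E X)
    ⟨rex0 E X⟩ τ (fun _ v => IsEnd E g⁻¹ v)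

/-- `N` is the logarithm of the monodromy: it is nilpotent, and the elements `g` of an open
subgroup which act trivially on `S` act on `K` by `exp (t g N)`. -/
def IsLog (t : E.G → ℚ_[E.ℓ]) (K : D E X) (N : DEnd (geoO E K)) : Prop :=
  ∃ n : ℕ, NilAt N n ∧ ∃ U : Subgroup E.G, IsOpen (U : Set E.G) ∧ ∀ g ∈ U, E.ρ g = 1 →
    ∃ τ : FEnd (geoM E X), IsAct E g τ ∧ ActsByExp τ K N (t g) n

/-- Monodromy-pure perverse sheaves of weight `w`. -/
def MPerv (t : E.G → ℚ_[E.ℓ]) (w : ℤ) (K : D E X) : Prop :=
  Perv E K ∧ (∀ H, IsSec E H → Mixed (E.sub H) (resO E H K)) ∧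
    ∃ N : DEnd (geoO E K), IsLog E t K N ∧ ∃ F : MonFil (geoD E X) (Perv E) K N,
      ∀ k H, IsSec E H → WLE (E.sub H) (k + w) (resO E H (F.gr k)) ∧
        WGE (E.sub H) (k + w) (resO E H (F.gr k))

/-- Monodromy-pure complexes of weight `w`. -/
def MPure (t : E.G → ℚ_[E.ℓ]) (w : ℤ) (K : D E X) : Prop :=
  Dbc E K ∧ ∀ i : ℤ, ∃ Q : D E X, IsCoh (PLE E) (PGE E) i K Q ∧ MPerv E t (w + i) Q

end

end Pool.Agent.H72.MQ
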