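import Pool.Agent.H72.MQ.S6
import Pool.Agent.H72.MP.ArithDefs

open CategoryTheory Limits AlgebraicGeometry TopologicalSpace Opposite

attribute [local instance] MvPolynomial.gradedAlgebra

namespace Pool.Agent.H72.MQ

noncomputable section

/-! ### The groups -/

theorem spec_hom_inv {R : Type} [CommRing R] (g : RingAut R) :
    Spec.map (CommRingCat.ofHom (g⁻¹ : RingAut R).toRingHom) ≫
      Spec.map (CommRingCat.ofHom g.toRingHom) = 𝟙 (Spec (.of R)) := by
  rw [← Spec.map_comp, ← CommRingCat.ofHom_comp]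
  have h : (g⁻¹ : RingAut R).toRingHom.comp g.toRingHom = RingHom.id R :=
    RingHom.ext fun x => g.symm_apply_apply x
  rw [h]
  exact Spec.map_id _

theorem spec_inv_hom {R : Type} [CommRing R] (g : RingAut R) :
    Spec.map (CommRingCat.ofHom g.toRingHom) ≫
      Spec.map (CommRingCat.ofHom (g⁻¹ : RingAut R).toRingHom) = 𝟙 (Spec (.of R)) := by
  rw [← Spec.map_comp, ← CommRingCat.ofHom_comp]
  have h : g.toRingHom.comp (g⁻¹ : RingAut R).toRingHom = RingHom.id R :=
    RingHom.ext fun x => g.apply_symm_apply x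
  rw [h]
  exact Spec.map_id _

/-- The automorphism of the spectrum of `R` defined by an automorphism of `R`. -/
def specAut {R : Type} [CommRing R] (g : RingAut R) : Aut (Spec (.of R)) :=
  ⟨Spec.map (CommRingCat.ofHom (g⁻¹ : RingAut R).toRingHom),
    Spec.map (CommRingCat.ofHom g.toRingHom), spec_hom_inv g, spec_inv_hom g⟩

theorem specAut_one (R : Type) [CommRing R] : specAut (1 : RingAut R) = 1 :=
  Iso.ext (Spec.map_id _)

theorem specAut_mul (R : Type) [CommRing R] (g h : RingAut R) :
    specAut (g * h) = specAut g * specAut h := by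
  refine Iso.ext ?_
  change Spec.map (CommRingCat.ofHom ((g * h)⁻¹ : RingAut R).toRingHom) =
    Spec.map (CommRingCat.ofHom (h⁻¹ : RingAut R).toRingHom) ≫
      Spec.map (CommRingCat.ofHom (g⁻¹ : RingAut R).toRingHom)
  rw [← Spec.map_comp, ← CommRingCat.ofHom_comp, mul_inv_rev]
  rfl

/-- The action of the automorphisms of a ring on its spectrum. -/
def specAutHom (R : Type) [CommRing R] : RingAut R →* Aut (Spec (.of R)) :=
  ⟨⟨specAut, specAut_one R⟩, specAut_mul R⟩

/-- The action of the automorphisms of a field on the residue field of an invariant valuation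
ring. -/
def resAct {K L : Type} [Field K] [Field L] [Algebra K L] (A : ValuationSubring L)
    (h : ∀ g : L ≃ₐ[K] L, g ∈ A.decompositionSubgroup K) :
    (L ≃ₐ[K] L) →* RingAut (IsLocalRing.ResidueField A) :=
  (MulSemiringAction.toRingAut (A.decompositionSubgroup K) (IsLocalRing.ResidueField A)).comp
    ((MonoidHom.id (L ≃ₐ[K] L)).codRestrict (A.decompositionSubgroup K) h)

variable (p : ℕ) [Fact p.Prime]

/-- The ring of integers of the algebraic closure `PadicAlgCl p` of `ℚ_p`. -/
def OO : ValuationSubring (PadicAlgCl p) :=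
  (Valued.v : Valuation (PadicAlgCl p) NNReal).valuationSubring

/-- The residue field of `PadicAlgCl p`: an algebraic closure of `𝔽_p`. -/
abbrev kb : Type := IsLocalRing.ResidueField (OO p)

/-- The absolute Galois group of `ℚ_p`. -/
abbrev Gη : Type := PadicAlgCl p ≃ₐ[ℚ_[p]] PadicAlgCl p

open scoped Pointwise in
theorem mem_dec (g : Gη p) : g ∈ (OO p).decompositionSubgroup ℚ_[p] := by
  refine MulAction.mem_stabilizer_iff.2 (SetLike.ext fun x => ?_)
  rw [ValuationSubring.mem_smul_pointwise_iff_exists]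
  constructor
  · rintro ⟨y, hy, rfl⟩
    exact (MP.mem_OO p).2 ((MP.norm_gal p g y).trans_le ((MP.mem_OO p).1 hy))
  · intro hx
    refine ⟨g.symm x, ?_, g.apply_symm_apply x⟩
    exact (MP.mem_OO p).2 ((MP.norm_gal p g.symm x).trans_le ((MP.mem_OO p).1 hx))

variable (ℓ : ℕ) [Fact ℓ.Prime]

/-- The absolute Galois group of `ℚ_p` acting on the spectrum of the residue field. -/
def Eη : Env :=
  { p := p, ℓ := ℓ, S := Spec (.of (kb p)), G := Gη p
    ρ := (specAutHom (kb p)).comp (resAct (OO p) (mem_dec p)) }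

/-- A compatible system `ζ` of roots of unity of `ℓ`-power order (a basis of `ℤ_ℓ(1)`),
a compatible system `ϖ` of `ℓ`-power roots of the uniformizer `p`, and the
resulting function `t`; its restriction to the inertia group is the tame character with
values in `ℤ_ℓ(1) ≅ ℤ_ℓ`. -/
structure Kum where
  ζ : ℕ → PadicAlgCl p
  ζ_prim : ∀ n, IsPrimitiveRoot (ζ n) (ℓ ^ n)
  ζ_succ : ∀ n, ζ (n + 1) ^ ℓ = ζ n
  ϖ : ℕ → PadicAlgCl p
  ϖ_zero : ϖ 0 = p
  ϖ_succ : ∀ n, ϖ (n + 1) ^ ℓ = ϖ n
  t : Gη p → ℤ_[ℓ]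
  ht : ∀ g n, g (ϖ n) = ζ n ^ ((t g).toZModPow n).val * ϖ n

variable {p ℓ} in
/-- The tame character. -/
def Kum.tq (κ : Kum p ℓ) (g : (Eη p ℓ).G) : ℚ_[(Eη p ℓ).ℓ] := (κ.t g : ℚ_[ℓ])

/-! ### Projective morphisms -/

/-- The spectrum of `𝔽_p`. -/
abbrev YY (p : ℕ) : Scheme.{0} := Spec (.of (ZMod p))

/-- Projective space over `𝔽_p`. -/
abbrev PS (p n : ℕ) : Scheme.{0} :=
  Proj (MvPolynomial.homogeneousSubmodule (Fin (n + 1)) (ZMod p))

/-- The structure morphism of projective space. -/
def PS.toSpec (p n : ℕ) : PS p n ⟶ YY p :=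
  Proj.toSpecZero _ ≫ Spec.map (CommRingCat.ofHom
    (algebraMap (ZMod p) (MvPolynomial.homogeneousSubmodule (Fin (n + 1)) (ZMod p) 0)))

/-- A morphism of schemes over `𝔽_p` is projective if it factors as a closed immersion
in a relative projective space followed by the projection. -/
def IsProj (p : ℕ) {X Y : Scheme.{0}} (sY : Y ⟶ YY p) (f : X ⟶ Y) : Prop :=
  ∃ (n : ℕ) (c : X ⟶ pullback sY (PS.toSpec p n)), IsClosedImmersion c ∧
    c ≫ pullback.fst sY (PS.toSpec p n) = f

/-- Finite type. -/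
def FinType {X Y : Scheme.{0}} (f : X ⟶ Y) : Prop := LocallyOfFiniteType f ∧ QuasiCompact f

/-- The derived direct image. -/
def RpushO (E : Env) {X Y : Scheme.{0}} (f : X ⟶ Y) (K : DerivedCategory.Plus (Sh E X)) : D E Y :=
  DerivedCategory.Plus.ι.obj ((push E f).rightDerivedFunctorPlus.obj K)

/-- The underlying complex of a complex bounded below. -/
def plusO (E : Env) {X : Scheme.{0}} (K : DerivedCategory.Plus (Sh E X)) : D E X :=
  DerivedCategory.Plus.ι.obj K

end

end Pool.Agent.H72.MQ
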